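import Mathlib
import Pool.Agent.Y141.GF.Shid

/-!
# Shidlovsky's lemma with an explicit constant for systems with commuting coefficient matrices
-/

set_option autoImplicit false

open PowerSeries

namespace Pool.Agent.R351.GF

open Pool.Agent.Y113 (nab)
open Pool.Agent.Y141.GF (iter_form wr_ne_zero natDegree_nab natDegree_det_le smul_eq' dvd_iter)

variable {K : Type} [Field K] {N : ℕ}

/-- the coefficient matrices -/
def cm (B : Fin N → Fin N → Polynomial K) (i : ℕ) : Matrix (Fin N) (Fin N) K :=
  Matrix.of fun j l => (B j l).coeff i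

/-- the centralizer of the coefficient matrices -/
def cent (B : Fin N → Fin N → Polynomial K) : Subalgebra K (Matrix (Fin N) (Fin N) K) :=
  Subalgebra.centralizer K (Set.range (cm B))

/-- a row times a constant matrix -/
noncomputable def rm (G : Fin N → Polynomial K) : Matrix (Fin N) (Fin N) K →ₗ[K] (Fin N → Polynomial K) where
  toFun C := fun l => ∑ j, Polynomial.C (C j l) * G j
  map_add' C C' := by
    funext l
    simp only [Matrix.add_apply, map_add, add_mul, Finset.sum_add_distrib, Pi.add_apply]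
  map_smul' c C := by
    funext l
    simp only [Matrix.smul_apply, smul_eq_mul, map_mul, RingHom.id_apply, Pi.smul_apply,
      Polynomial.smul_eq_C_mul, Finset.mul_sum, mul_assoc]

theorem rm_apply (G : Fin N → Polynomial K) (C : Matrix (Fin N) (Fin N) K) (l : Fin N) :
    rm G C l = ∑ j, Polynomial.C (C j l) * G j := rfl

theorem rm_one (G : Fin N → Polynomial K) : rm G 1 = G := by
  funext l
  rw [rm_apply, Finset.sum_eq_single l]
  · rw [Matrix.one_apply_eq, map_one, one_mul]
  · intro j _ hj
    rw [Matrix.one_apply_ne hj, map_zero, zero_mul]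
  · intro h; exact absurd (Finset.mem_univ _) h

theorem rm_rm (G : Fin N → Polynomial K) (C C' : Matrix (Fin N) (Fin N) K) :
    rm (rm G C) C' = rm G (C * C') := by
  funext l
  simp only [rm_apply, Finset.mul_sum]
  rw [Finset.sum_comm]
  refine Finset.sum_congr rfl fun j _ => ?_
  rw [Matrix.mul_apply, map_sum, Finset.sum_mul]
  refine Finset.sum_congr rfl fun i _ => ?_
  rw [map_mul]
  ring

theorem natDegree_rm {G : Fin N → Polynomial K} {n : ℕ} (hG : ∀ i, (G i).natDegree ≤ n)
    (C : Matrix (Fin N) (Fin N) K) (l : Fin N) : (rm G C l).natDegree ≤ n := by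
  rw [rm_apply]
  refine Polynomial.natDegree_sum_le_of_forall_le _ _ fun j _ => ?_
  exact (Polynomial.natDegree_C_mul_le _ _).trans (hG j)

theorem cent_comm {B : Fin N → Fin N → Polynomial K} {C : Matrix (Fin N) (Fin N) K}
    (hC : C ∈ cent B) (j l : Fin N) :
    ∑ i, Polynomial.C (C j i) * B i l = ∑ i, B j i * Polynomial.C (C i l) := by
  ext m
  have h1 : cm B m * C = C * cm B m := (Subalgebra.mem_centralizer_iff K).1 hC _ ⟨m, rfl⟩
  have h2 := congrFun (congrFun h1 j) l
  rw [Matrix.mul_apply, Matrix.mul_apply] at h2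
  rw [Polynomial.finset_sum_coeff, Polynomial.finset_sum_coeff]
  simp only [Polynomial.coeff_C_mul, Polynomial.coeff_mul_C]
  exact h2.symm

theorem nab_rm (T : Polynomial K) {B : Fin N → Fin N → Polynomial K} (G : Fin N → Polynomial K)
    {C : Matrix (Fin N) (Fin N) K} (hC : C ∈ cent B) : nab T B (rm G C) = rm (nab T B G) C := by
  funext l
  simp only [nab, rm_apply, map_sum, Polynomial.derivative_C_mul, mul_add, Finset.sum_add_distrib,
    Finset.mul_sum, Finset.sum_mul]
  congr 1
  · refine Finset.sum_congr rfl fun j _ => ?_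
    ring
  · have h1 : ∀ j, ∑ i, Polynomial.C (C j i) * G j * B i l = G j * ∑ i, Polynomial.C (C j i) * B i l := by
      intro j
      rw [Finset.mul_sum]
      exact Finset.sum_congr rfl fun i _ => by ring
    rw [Finset.sum_comm]
    simp only [h1, cent_comm hC]
    rw [Finset.sum_comm (f := fun j i => Polynomial.C (C j l) * (G i * B i j))]
    refine Finset.sum_congr rfl fun j _ => ?_
    rw [Finset.mul_sum]
    exact Finset.sum_congr rfl fun i _ => by ring

theorem nab_iter_rm (T : Polynomial K) {B : Fin N → Fin N → Polynomial K} (G : Fin N → Polynomial K)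
    {C : Matrix (Fin N) (Fin N) K} (hC : C ∈ cent B) (k : ℕ) :
    (nab T B)^[k] (rm G C) = rm ((nab T B)^[k] G) C := by
  induction k with
  | zero => rfl
  | succ k ih => rw [Function.iterate_succ_apply', Function.iterate_succ_apply', ih, nab_rm T _ hC]

/-- the operator `nab` as a linear map -/
noncomputable def nabL (T : Polynomial K) (B : Fin N → Fin N → Polynomial K) :
    (Fin N → Polynomial K) →ₗ[K] (Fin N → Polynomial K) where
  toFun := nab T B
  map_add' G G' := by
    funext l
    simp only [nab, Pi.add_apply, map_add, mul_add, add_mul, Finset.sum_add_distrib]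
    ring
  map_smul' c G := by
    funext l
    simp only [nab, Pi.smul_apply, Polynomial.derivative_smul, RingHom.id_apply, smul_add,
      Finset.smul_sum, mul_smul_comm, smul_mul_assoc]

theorem nabL_pow (T : Polynomial K) (B : Fin N → Fin N → Polynomial K) (k : ℕ)
    (G : Fin N → Polynomial K) : (nabL T B ^ k) G = (nab T B)^[k] G := by
  rw [Module.End.pow_apply]
  rfl

/-- the linear form in the functions `y` -/
noncomputable def io (y : Fin N → K⟦X⟧) : (Fin N → Polynomial K) →ₗ[K] K⟦X⟧ where
  toFun G := ∑ i, (G i : K⟦X⟧) * y i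
  map_add' G G' := by
    simp only [Pi.add_apply, Polynomial.coe_add, add_mul, Finset.sum_add_distrib]
  map_smul' c G := by
    simp only [Pi.smul_apply, Polynomial.smul_eq_C_mul, Polynomial.coe_mul, Polynomial.coe_C,
      RingHom.id_apply, PowerSeries.smul_eq_C_mul, Finset.mul_sum, mul_assoc]

theorem io_apply (y : Fin N → K⟦X⟧) (G : Fin N → Polynomial K) :
    io y G = ∑ i, (G i : K⟦X⟧) * y i := rfl

theorem io_inj {y : Fin N → K⟦X⟧} (hLI : LinearIndependent (Polynomial K) y) :
    Function.Injective (io y) := by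
  rw [injective_iff_map_eq_zero]
  intro G hG
  have h1 := Fintype.linearIndependent_iff.1 hLI G (by
    simp only [smul_eq']
    exact hG)
  exact funext h1

section Main

variable [CharZero K] {T : Polynomial K} {B : Fin N → Fin N → Polynomial K} {y : Fin N → K⟦X⟧}

theorem io_iter (hy : ∀ i, (T : K⟦X⟧) * (d⁄dX K (y i)) = ∑ j, (B i j : K⟦X⟧) * y j)
    (G : Fin N → Polynomial K) (k : ℕ) :
    (fun f => (T : K⟦X⟧) * d⁄dX K f)^[k] (io y G) = io y ((nab T B)^[k] G) :=
  iter_form Polynomial.coeToPowerSeries.ringHom (fun p => PowerSeries.derivative_coe p) T B y hy G k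

/-- the coefficients of the solution -/
theorem exists_coeff (hT : T.coeff 0 ≠ 0) (hAb : ∀ i i', cm B i * cm B i' = cm B i' * cm B i)
    (hy : ∀ i, (T : K⟦X⟧) * (d⁄dX K (y i)) = ∑ j, (B i j : K⟦X⟧) * y j) (m : ℕ) :
    ∃ C ∈ cent B, (m = 0 → C = 1) ∧
      ∀ j, coeff m (y j) = ∑ l, C j l * constantCoeff (y l) := by
  have hcm : ∀ i, cm B i ∈ cent B := by
    intro i
    rw [cent, Subalgebra.mem_centralizer_iff]
    rintro _ ⟨i', rfl⟩
    exact hAb i' i
  induction m using Nat.strong_induction_on with
  | _ m ih =>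
    rcases m with _ | m
    · refine ⟨1, one_mem _, fun _ => rfl, fun j => ?_⟩
      rw [Finset.sum_eq_single j]
      · rw [Matrix.one_apply_eq, one_mul, coeff_zero_eq_constantCoeff_apply]
      · intro l _ hl
        rw [Matrix.one_apply_ne (Ne.symm hl), zero_mul]
      · intro h; exact absurd (Finset.mem_univ _) h
    · choose! U hU _ hUc using fun (i : ℕ) (hi : i < m + 1) => ih i hi
      have hm : ((m : K) + 1) * T.coeff 0 ≠ 0 := mul_ne_zero (by exact_mod_cast Nat.succ_ne_zero m) hT
      refine ⟨(((m : K) + 1) * T.coeff 0)⁻¹ •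
        (∑ p ∈ Finset.HasAntidiagonal.antidiagonal m, cm B p.1 * U p.2 -
          ∑ p ∈ (Finset.HasAntidiagonal.antidiagonal m).erase (0, m), (T.coeff p.1 * ((p.2 : K) + 1)) • U (p.2 + 1)),
        ?_, fun h => absurd h (Nat.succ_ne_zero m), fun j => ?_⟩
      · refine Subalgebra.smul_mem _ (sub_mem (sum_mem fun p hp => ?_) (sum_mem fun p hp => ?_)) _
        · rw [Finset.HasAntidiagonal.mem_antidiagonal] at hp
          exact mul_mem (hcm _) (hU _ (by omega))
        · rw [Finset.mem_erase, Finset.HasAntidiagonal.mem_antidiagonal] at hp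
          refine Subalgebra.smul_mem _ (hU _ ?_) _
          have : p.1 ≠ 0 := fun h => hp.1 (Prod.ext h (by simp only; omega))
          omega
      · have h1 := congrArg (coeff m) (hy j)
        rw [PowerSeries.coeff_mul, map_sum] at h1
        simp only [PowerSeries.coeff_mul, Polynomial.coeff_coe, PowerSeries.coeff_derivative] at h1
        rw [← Finset.add_sum_erase _ _ (show ((0, m) : ℕ × ℕ) ∈ Finset.HasAntidiagonal.antidiagonal m
          from Finset.HasAntidiagonal.mem_antidiagonal.2 (zero_add m))] at h1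
        rw [← mul_right_inj' hm]
        have h2 : ∑ i, ∑ p ∈ Finset.HasAntidiagonal.antidiagonal m, (B j i).coeff p.1 * coeff p.2 (y i) =
            ∑ l, (∑ p ∈ Finset.HasAntidiagonal.antidiagonal m, cm B p.1 * U p.2) j l * constantCoeff (y l) := by
          rw [Finset.sum_comm]
          simp only [Matrix.sum_apply, Finset.sum_mul]
          rw [Finset.sum_comm (s := Finset.univ)]
          refine Finset.sum_congr rfl fun p hp => ?_
          rw [Finset.HasAntidiagonal.mem_antidiagonal] at hp
          simp only [Matrix.mul_apply, Finset.sum_mul]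
          rw [Finset.sum_comm]
          refine Finset.sum_congr rfl fun i _ => ?_
          rw [hUc p.2 (by omega) i, Finset.mul_sum]
          refine Finset.sum_congr rfl fun l _ => ?_
          simp only [cm, Matrix.of_apply]
          ring
        have h3 : ∑ p ∈ (Finset.HasAntidiagonal.antidiagonal m).erase (0, m), T.coeff p.1 *
              (coeff (p.2 + 1) (y j) * ((p.2 : K) + 1)) =
            ∑ l, (∑ p ∈ (Finset.HasAntidiagonal.antidiagonal m).erase (0, m), (T.coeff p.1 * ((p.2 : K) + 1)) • U (p.2 + 1)) j l *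
              constantCoeff (y l) := by
          simp only [Matrix.sum_apply, Finset.sum_mul]
          rw [Finset.sum_comm (s := Finset.univ)]
          refine Finset.sum_congr rfl fun p hp => ?_
          rw [Finset.mem_erase, Finset.HasAntidiagonal.mem_antidiagonal] at hp
          have h4 : p.1 ≠ 0 := fun h => hp.1 (Prod.ext h (by simp only; omega))
          rw [hUc (p.2 + 1) (by omega) j, Finset.sum_mul, Finset.mul_sum]
          refine Finset.sum_congr rfl fun l _ => ?_
          simp only [Matrix.smul_apply, smul_eq_mul]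
          ring
        rw [h3, h2] at h1
        have h5 : ∑ l, ((((m : K) + 1) * T.coeff 0)⁻¹ •
            (∑ p ∈ Finset.HasAntidiagonal.antidiagonal m, cm B p.1 * U p.2 -
              ∑ p ∈ (Finset.HasAntidiagonal.antidiagonal m).erase (0, m), (T.coeff p.1 * ((p.2 : K) + 1)) • U (p.2 + 1))) j l *
              constantCoeff (y l) = (((m : K) + 1) * T.coeff 0)⁻¹ *
            (∑ l, (∑ p ∈ Finset.HasAntidiagonal.antidiagonal m, cm B p.1 * U p.2) j l * constantCoeff (y l) -
            ∑ l, (∑ p ∈ (Finset.HasAntidiagonal.antidiagonal m).erase (0, m), (T.coeff p.1 * ((p.2 : K) + 1)) • U (p.2 + 1)) j l *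
              constantCoeff (y l)) := by
          rw [← Finset.sum_sub_distrib, Finset.mul_sum]
          refine Finset.sum_congr rfl fun l _ => ?_
          rw [Matrix.smul_apply, Matrix.sub_apply, smul_eq_mul]
          ring
        rw [h5, mul_inv_cancel_left₀ hm]
        linear_combination h1

/-- a row times a constant column -/
noncomputable def rc (v : Fin N → K) : (Fin N → Polynomial K) →ₗ[K] Polynomial K where
  toFun G := ∑ i, Polynomial.C (v i) * G i
  map_add' G G' := by
    simp only [Pi.add_apply, mul_add, Finset.sum_add_distrib]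
  map_smul' c G := by
    simp only [Pi.smul_apply, Polynomial.smul_eq_C_mul, RingHom.id_apply, Finset.mul_sum]
    exact Finset.sum_congr rfl fun i _ => by ring

theorem rc_apply (v : Fin N → K) (G : Fin N → Polynomial K) :
    rc v G = ∑ i, Polynomial.C (v i) * G i := rfl

/-- **Shidlovsky's lemma** with an explicit constant, for commuting coefficient matrices. -/
theorem shid_ab (hT : T.coeff 0 ≠ 0) (hAb : ∀ i i', cm B i * cm B i' = cm B i' * cm B i)
    (hy : ∀ i, (T : K⟦X⟧) * (d⁄dX K (y i)) = ∑ j, (B i j : K⟦X⟧) * y j)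
    (hLI : LinearIndependent (Polynomial K) y) {b : ℕ} (hbT : T.natDegree ≤ b)
    (hbB : ∀ i j, (B i j).natDegree ≤ b) (n m : ℕ) (P : Fin N → Polynomial K) (hP : P ≠ 0)
    (hPn : ∀ i, (P i).natDegree ≤ n)
    (hm : ∀ l < m, coeff l (∑ i, (P i : K⟦X⟧) * y i) = 0) (hmn : (N - 1) * n + (N * N * b + N) < m) :
    (Matrix.of fun k j : Fin N => ((nab T B)^[(k : ℕ)] P) j).det ≠ 0 := by
  classical
  intro hdet
  have hTne : (T : K⟦X⟧) ≠ 0 := by
    intro h
    apply hT
    have := congrArg (coeff 0) h
    simpa using this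
  -- the relation
  obtain ⟨a, ha0, ha⟩ := Matrix.exists_vecMul_eq_zero_iff.2 hdet
  have hrel : ∀ j, ∑ k : Fin N, a k * (nab T B)^[(k : ℕ)] P j = 0 := fun j => congrFun ha j
  -- the space
  set Φ : Submodule K (Fin N → Polynomial K) := (Subalgebra.toSubmodule (cent B)).map (rm P) with hΦ
  have hfin : Module.Finite K Φ := by
    rw [hΦ]
    infer_instance
  have hPΦ : P ∈ Φ := ⟨1, one_mem (cent B), rm_one P⟩
  have hΦst : ∀ G ∈ Φ, ∀ C ∈ cent B, rm G C ∈ Φ := by
    rintro _ ⟨C', hC', rfl⟩ C hC
    rw [rm_rm]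
    have h1 : C' * C ∈ cent B := mul_mem hC' hC
    exact ⟨C' * C, h1, rfl⟩
  have hΦn : ∀ G ∈ Φ, ∀ i, (G i).natDegree ≤ n := by
    rintro _ ⟨C', hC', rfl⟩ i
    exact natDegree_rm hPn _ _
  have hΦrel : ∀ G ∈ Φ, ∀ j, ∑ k : Fin N, a k * (nab T B)^[(k : ℕ)] G j = 0 := by
    rintro _ ⟨C', hC', rfl⟩ j
    have h1 : ∀ k : ℕ, (nab T B)^[k] (rm P C') = rm ((nab T B)^[k] P) C' := fun k =>
      nab_iter_rm T P hC' k
    simp only [h1, rm_apply, Finset.mul_sum]
    rw [Finset.sum_comm]
    refine Finset.sum_eq_zero fun i _ => ?_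
    have h2 : ∀ k : Fin N, a k * (Polynomial.C (C' i j) * (nab T B)^[(k : ℕ)] P i) =
        Polynomial.C (C' i j) * (a k * (nab T B)^[(k : ℕ)] P i) := fun k => by ring
    simp only [h2]
    rw [← Finset.mul_sum, hrel, mul_zero]
  set ρ := Module.finrank K Φ with hρ
  have hρN : ρ < N := by
    by_contra hcon
    push Not at hcon
    set g : Fin N → (Fin N → Polynomial K) := fun i =>
      (Module.finBasis K Φ (Fin.castLE hcon i) : Fin N → Polynomial K) with hg
    have hgli : LinearIndependent K g := by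
      have h1 := (Module.finBasis K Φ).linearIndependent.comp _ (Fin.castLE_injective hcon)
      exact h1.map' Φ.subtype (Submodule.ker_subtype _)
    have hfli : LinearIndependent K (fun i => io y (g i)) :=
      hgli.map' (io y) (LinearMap.ker_eq_bot.2 (io_inj hLI))
    apply wr_ne_zero (T : K⟦X⟧) hTne N _ hfli
    rw [← Matrix.exists_mulVec_eq_zero_iff]
    refine ⟨fun k => (a k : K⟦X⟧), ?_, ?_⟩
    · intro h
      apply ha0
      funext k
      have := congrFun h k
      simpa using this
    · funext i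
      simp only [Matrix.mulVec, dotProduct, Matrix.of_apply, io_iter hy, Pi.zero_apply]
      have h1 : ∑ k : Fin N, io y ((nab T B)^[(k : ℕ)] (g i)) * (a k : K⟦X⟧) =
          ∑ j, ((∑ k : Fin N, a k * (nab T B)^[(k : ℕ)] (g i) j : Polynomial K) : K⟦X⟧) * y j := by
        simp only [io_apply, Finset.sum_mul]
        rw [Finset.sum_comm]
        refine Finset.sum_congr rfl fun j _ => ?_
        have h2 : ((∑ k : Fin N, a k * (nab T B)^[(k : ℕ)] (g i) j : Polynomial K) : K⟦X⟧) =
            ∑ k : Fin N, (a k : K⟦X⟧) * ((nab T B)^[(k : ℕ)] (g i) j : K⟦X⟧) := by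
          rw [← Polynomial.coeToPowerSeries.ringHom_apply, map_sum]
          refine Finset.sum_congr rfl fun k _ => ?_
          rw [map_mul]
          rfl
        rw [h2, Finset.sum_mul]
        exact Finset.sum_congr rfl fun k _ => by ring
      rw [h1]
      refine Finset.sum_eq_zero fun j _ => ?_
      rw [hΦrel (g i) (Module.finBasis K Φ (Fin.castLE hcon i)).2 j]
      simp
  -- the basis
  set bs := Module.finBasis K Φ with hbs
  set g : Fin ρ → (Fin N → Polynomial K) := fun i => (bs i : Fin N → Polynomial K) with hg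
  have hgΦ : ∀ i, g i ∈ Φ := fun i => (bs i).2
  have hgli : LinearIndependent K g := bs.linearIndependent.map' Φ.subtype (Submodule.ker_subtype _)
  have hfli : LinearIndependent K (fun i => io y (g i)) :=
    hgli.map' (io y) (LinearMap.ker_eq_bot.2 (io_inj hLI))
  have hW := wr_ne_zero (T : K⟦X⟧) hTne ρ _ hfli
  simp only [io_iter hy] at hW
  have hspan : ∀ G ∈ Φ, ∃ c : Fin ρ → K, G = ∑ l, c l • g l := by
    intro G hG
    refine ⟨fun l => bs.repr ⟨G, hG⟩ l, ?_⟩
    have h1 := congrArg Φ.subtype (bs.sum_repr ⟨G, hG⟩)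
    rw [map_sum] at h1
    exact h1.symm
  -- the coefficient matrices
  choose U hU hU0 hUc using fun i => exists_coeff hT hAb hy i
  have hα : ∀ (i : ℕ) (j : Fin ρ), ∃ c : Fin ρ → K, rm (g j) (U i) = ∑ l, c l • g l := fun i j =>
    hspan _ (hΦst _ (hgΦ j) _ (hU i))
  choose α hα using hα
  have hα0 : ∀ j l, α 0 j l = (1 : Matrix (Fin ρ) (Fin ρ) K) j l := by
    intro j l
    have h1 := hα 0 j
    rw [hU0 0 rfl, rm_one] at h1
    have h2 : ∑ l, (α 0 j l - (1 : Matrix (Fin ρ) (Fin ρ) K) j l) • g l = 0 := by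
      simp only [sub_smul, Finset.sum_sub_distrib]
      rw [← h1]
      have h3 : ∑ l, (1 : Matrix (Fin ρ) (Fin ρ) K) j l • g l = g j := by
        rw [Finset.sum_eq_single j]
        · rw [Matrix.one_apply_eq, one_smul]
        · intro l _ hl
          rw [Matrix.one_apply_ne (Ne.symm hl), zero_smul]
        · intro h; exact absurd (Finset.mem_univ _) h
      rw [h3, sub_self]
    exact sub_eq_zero.1 (Fintype.linearIndependent_iff.1 hgli _ h2 l)
  set v₀ : Fin N → K := fun l => constantCoeff (y l) with hv₀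
  set A : Matrix (Fin ρ) (Fin ρ) K⟦X⟧ := Matrix.of fun j l => PowerSeries.mk fun i => α i j l with hA
  have hAdet : constantCoeff A.det = 1 := by
    rw [RingHom.map_det]
    have h1 : (constantCoeff (R := K)).mapMatrix A = 1 := by
      ext j l
      rw [RingHom.mapMatrix_apply, Matrix.map_apply, hA, Matrix.of_apply,
        ← coeff_zero_eq_constantCoeff_apply, coeff_mk]
      exact hα0 j l
    rw [h1, Matrix.det_one]
  have hAunit : IsUnit A.det := by
    rw [PowerSeries.isUnit_iff_constantCoeff, hAdet]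
    exact isUnit_one
  -- the main identity
  have hmain : ∀ (k : ℕ) (j : Fin ρ), io y ((nab T B)^[k] (g j)) =
      ∑ l, A j l * ((rc v₀ ((nab T B)^[k] (g l)) : Polynomial K) : K⟦X⟧) := by
    intro k j
    have h1 : ∀ i, rm ((nab T B)^[k] (g j)) (U i) = ∑ l, α i j l • (nab T B)^[k] (g l) := by
      intro i
      rw [← nab_iter_rm T _ (hU i), hα, ← nabL_pow, map_sum]
      refine Finset.sum_congr rfl fun l _ => ?_
      rw [map_smul, nabL_pow]
    ext d
    rw [io_apply, map_sum, map_sum]
    simp only [PowerSeries.coeff_mul, Polynomial.coeff_coe]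
    rw [Finset.sum_comm]
    rw [Finset.sum_comm (s := Finset.univ)]
    rw [← Finset.Nat.sum_antidiagonal_swap (f := fun p : ℕ × ℕ => ∑ x : Fin ρ, coeff p.1 (A j x) *
      (rc v₀ ((nab T B)^[k] (g x))).coeff p.2)]
    simp only [Prod.fst_swap, Prod.snd_swap]
    refine Finset.sum_congr rfl fun p _ => ?_
    have h2 : ∑ i, ((nab T B)^[k] (g j) i).coeff p.1 * coeff p.2 (y i) =
        (rc v₀ (rm ((nab T B)^[k] (g j)) (U p.2))).coeff p.1 := by
      rw [rc_apply, Polynomial.finset_sum_coeff]
      simp only [hUc, Polynomial.coeff_C_mul, rm_apply, Polynomial.finset_sum_coeff, Finset.mul_sum]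
      rw [Finset.sum_comm]
      refine Finset.sum_congr rfl fun l _ => Finset.sum_congr rfl fun i _ => ?_
      rw [hv₀]
      ring
    rw [h2, h1, map_sum, Polynomial.finset_sum_coeff]
    refine Finset.sum_congr rfl fun l _ => ?_
    rw [map_smul, Polynomial.coeff_smul, smul_eq_mul, hA, Matrix.of_apply, coeff_mk]
  set w : Polynomial K := (Matrix.of fun l k : Fin ρ => rc v₀ ((nab T B)^[(k : ℕ)] (g l))).det with hw
  have hWw : (Matrix.of fun i r : Fin ρ => io y ((nab T B)^[(r : ℕ)] (g i))).det =
      A.det * (w : K⟦X⟧) := by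
    have h1 : (w : K⟦X⟧) = ((Matrix.of fun l k : Fin ρ => rc v₀ ((nab T B)^[(k : ℕ)] (g l))).map
        (Polynomial.coeToPowerSeries.ringHom (R := K))).det := by
      rw [hw, ← Polynomial.coeToPowerSeries.ringHom_apply, RingHom.map_det]
      rfl
    rw [h1, ← Matrix.det_mul]
    congr 1
    ext1 j k
    rw [Matrix.mul_apply]
    exact hmain k j
  rw [hWw] at hW
  have hw0 : w ≠ 0 := by
    rintro h
    rw [h] at hW
    simp at hW
  have hwdeg : w.natDegree ≤ ρ * (n + ρ * b) := by
    apply natDegree_det_le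
    intro l k
    rw [Matrix.of_apply, rc_apply]
    refine Polynomial.natDegree_sum_le_of_forall_le _ _ fun i _ => ?_
    refine (Polynomial.natDegree_C_mul_le _ _).trans ?_
    refine (natDegree_nab T B hbT hbB (g l) (hΦn _ (hgΦ l)) k i).trans ?_
    have : (k : ℕ) * b ≤ ρ * b := Nat.mul_le_mul_right _ k.2.le
    omega
  -- the order
  obtain ⟨c, hc⟩ := hspan P hPΦ
  obtain ⟨j₀, hj₀⟩ : ∃ j, c j ≠ 0 := by
    by_contra hcon
    push Not at hcon
    apply hP
    rw [hc]
    exact Finset.sum_eq_zero fun l _ => by rw [hcon, zero_smul]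
  have hdvd : (X : K⟦X⟧) ^ (m - ρ) ∣ (w : K⟦X⟧) := by
    have h1 : (X : K⟦X⟧) ^ (m - ρ) ∣ PowerSeries.C (c j₀) * (A.det * (w : K⟦X⟧)) := by
      rw [← hWw]
      set M := (Matrix.of fun i r : Fin ρ => io y ((nab T B)^[(r : ℕ)] (g i))) with hM
      have h2 := Matrix.det_updateRow_sum M j₀ (fun l => PowerSeries.C (c l))
      rw [smul_eq_mul] at h2
      rw [← h2]
      have h3 : (∑ l, (fun l => PowerSeries.C (c l)) l • M l) =
          fun r : Fin ρ => io y ((nab T B)^[(r : ℕ)] P) := by
        funext r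
        rw [Finset.sum_apply]
        simp only [Pi.smul_apply, smul_eq_mul, hM, Matrix.of_apply]
        conv_rhs => rw [hc, ← nabL_pow, map_sum, map_sum]
        refine Finset.sum_congr rfl fun l _ => ?_
        rw [map_smul, map_smul, nabL_pow, PowerSeries.smul_eq_C_mul]
      rw [h3]
      have h4 : ∀ r : Fin ρ, (X : K⟦X⟧) ^ (m - ρ) ∣ io y ((nab T B)^[(r : ℕ)] P) := by
        intro r
        rw [← io_iter hy]
        refine dvd_trans (pow_dvd_pow _ ?_) (dvd_iter (PowerSeries.X_pow_dvd_iff.2 hm) r)
        have := r.2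
        omega
      choose q hq using h4
      have h5 : (fun r : Fin ρ => io y ((nab T B)^[(r : ℕ)] P)) = (X : K⟦X⟧) ^ (m - ρ) • q := by
        funext r
        rw [Pi.smul_apply, smul_eq_mul]
        exact hq r
      rw [h5, Matrix.det_updateRow_smul]
      exact dvd_mul_right _ _
    have hcu : IsUnit (PowerSeries.C (c j₀) * A.det) := by
      refine IsUnit.mul ?_ hAunit
      exact (isUnit_iff_ne_zero.2 hj₀).map (PowerSeries.C (R := K))
    rw [← mul_assoc] at h1
    exact (hcu.dvd_mul_left).1 h1
  have hle : m - ρ ≤ w.natDegree := by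
    by_contra hcon
    push Not at hcon
    have h1 := PowerSeries.X_pow_dvd_iff.1 hdvd w.natDegree hcon
    rw [Polynomial.coeff_coe] at h1
    exact hw0 (Polynomial.leadingCoeff_eq_zero.1 h1)
  have h1 : ρ * (n + ρ * b) ≤ (N - 1) * n + N * N * b := by
    have h2 : ρ * n ≤ (N - 1) * n := Nat.mul_le_mul_right _ (by omega)
    have h3 : ρ * (ρ * b) ≤ N * N * b := by
      rw [← mul_assoc]
      exact Nat.mul_le_mul_right _ (Nat.mul_le_mul hρN.le hρN.le)
    rw [mul_add]
    omega
  omega

end Main

end Pool.Agent.R351.GF
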