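import Mathlib
import Pool.Agent.R351.GF.Shid
import Pool.Agent.Y113.G.Main

/-!
# G-systems: the estimate for one value of the parameter, for small values of a linear form

This is a quantitative version of `Pool.Agent.Y113.core`.
-/

set_option autoImplicit false

open PowerSeries Finset.HasAntidiagonal

namespace Pool.Agent.R351.GF

open Pool.Agent.Y113

theorem rank_point' (h_loc : T_loc) {N : ℕ} {T : Polynomial ℚ} {B : Fin N → Fin N → Polynomial ℚ}
    {y : Fin N → ℚ⟦X⟧} (hy : ∀ i, (T : ℚ⟦X⟧) * d⁄dX ℚ (y i) = ∑ j, (B i j : ℚ⟦X⟧) * y j)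
    (hLI : LinearIndependent (Polynomial ℚ) y) (i₀ : Fin N) (h1 : y i₀ = 1) (ξ : ℚ) (hξ0 : ξ ≠ 0) (hξ : T.eval ξ ≠ 0)
    {b c : ℕ} (hbT : T.natDegree ≤ b) (hbB : ∀ i j, (B i j).natDegree ≤ b)
    (hc : ∀ (n m : ℕ) (P : Fin N → Polynomial ℚ), P ≠ 0 → (∀ i, (P i).natDegree ≤ n) →
      (∀ l < m, coeff l (∑ i, (P i : ℚ⟦X⟧) * y i) = 0) → (N - 1) * n + c < m →
      (Matrix.of fun k j : Fin N => ((nab T B)^[(k : ℕ)] P) j).det ≠ 0)
    {c₁ : ℕ} (hc₁ : c + N * N * b + 2 * N ≤ c₁) :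
    ∀ (n m K : ℕ) (P : Fin N → Polynomial ℚ), P ≠ 0 → (∀ i, (P i).natDegree ≤ n) →
      (∀ l < m, coeff l (∑ i, (P i : ℚ⟦X⟧) * y i) = 0) → (N - 1) * n + c₁ < m → N * n + c₁ < m + K →
      ∀ (g : ℚ) (G : ℕ → Fin N → Fin N → Polynomial ℚ), g ≠ 0 →
      (∀ s ≤ K, ∀ i, C g * ((T : ℚ⟦X⟧) ^ s * hd s (y i)) = ∑ j, (G s i j : ℚ⟦X⟧) * y j) →
      ∀ v : Fin N → ℚ, (∀ k ≤ K, ∑ j, (Pd T G P k j).eval ξ * v j = 0) → v = 0 := by
  intro n m K P hP0 hPn hm hm1 hm2 g G hg hG v hv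
  by_contra hv0
  have hNpos : 0 < N := i₀.pos
  set Δ := (Matrix.of fun k j : Fin N => ((nab T B)^[(k : ℕ)] P) j).det with hΔ
  have hΔ0 : Δ ≠ 0 := hc n m P hP0 hPn hm (by omega)
  have hdeg : Δ.natDegree ≤ N * n + N * N * b := natDegree_det_nab hbT hbB hPn
  -- order at 0
  have ho1 := det_order Polynomial.coeToPowerSeries.ringHom coe_deriv' (T := T) (B := B) (w := y)
    (by simpa [Polynomial.coeToPowerSeries.ringHom_apply] using hy) P m
    (by simpa [Polynomial.coeToPowerSeries.ringHom_apply] using hm) i₀ (by rw [h1]; simp)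
  have hd1 : (Polynomial.X : Polynomial ℚ) ^ (m + 1 - N) ∣ Δ := by
    rw [Polynomial.X_pow_dvd_iff]
    intro l hl
    have := ho1 l (by omega)
    rw [Polynomial.coeToPowerSeries.ringHom_apply, Polynomial.coeff_coe] at this
    exact this
  -- local solution
  have hT0 : (Polynomial.taylor ξ T).eval 0 ≠ 0 := by
    rw [Polynomial.taylor_eval]; simpa using hξ
  obtain ⟨w, hw0, hw⟩ := h_loc ℚ N (Polynomial.taylor ξ T) (fun i j => Polynomial.taylor ξ (B i j)) v hT0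
  have hw' : ∀ i, tay ξ T * d⁄dX ℚ (w i) = ∑ j, tay ξ (B i j) * w j := hw
  have hGw := G_transfer hy hLI hG (tay ξ) (tay_deriv ξ) (tay_C ξ) hw'
  have hTc : constantCoeff (tay ξ T) ≠ 0 := by
    rw [tay_apply, ← PowerSeries.coeff_zero_eq_constantCoeff_apply, Polynomial.coeff_coe, Polynomial.taylor_coeff_zero]
    exact hξ
  have hf : ∀ l < K + 1, coeff l (∑ i, tay ξ (P i) * w i) = 0 := by
    intro l hl
    have h2 := Pd_eq (tay ξ) (tay_deriv ξ) hGw P l (by omega)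
    have h3 := congrArg constantCoeff h2
    rw [map_sum] at h3
    have h4 : ∀ j, constantCoeff (tay ξ (Pd T G P l j) * w j) = (Pd T G P l j).eval ξ * v j := by
      intro j
      rw [map_mul, hw0, tay_apply, ← PowerSeries.coeff_zero_eq_constantCoeff_apply, Polynomial.coeff_coe,
        Polynomial.taylor_coeff_zero]
    simp only [h4, hv l (by omega), map_mul, map_pow, constantCoeff_C] at h3
    have h5 : constantCoeff (hd l (∑ i, tay ξ (P i) * w i)) = coeff l (∑ i, tay ξ (P i) * w i) := by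
      rw [← PowerSeries.coeff_zero_eq_constantCoeff_apply, coeff_hd]
      simp
    rw [h5] at h3
    rcases mul_eq_zero.1 h3 with h6 | h6
    · exact absurd h6 hg
    · rcases mul_eq_zero.1 h6 with h7 | h7
      · exact absurd h7 (pow_ne_zero _ hTc)
      · exact h7
  obtain ⟨j₀, hj₀⟩ : ∃ j, v j ≠ 0 := by
    by_contra hcon
    push Not at hcon
    exact hv0 (funext hcon)
  have ho2 := det_order (tay ξ) (tay_deriv ξ) hw' P (K + 1) hf j₀ (by rw [hw0]; exact hj₀)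
  have hd2 : (Polynomial.X - Polynomial.C ξ) ^ (K + 2 - N) ∣ Δ := by
    have h2 : (Polynomial.X : Polynomial ℚ) ^ (K + 2 - N) ∣ Polynomial.taylor ξ Δ := by
      rw [Polynomial.X_pow_dvd_iff]
      intro l hl
      have := ho2 l (by omega)
      rw [tay_apply, Polynomial.coeff_coe] at this
      exact this
    obtain ⟨Q, hQ⟩ := h2
    refine ⟨Polynomial.taylor (-ξ) Q, ?_⟩
    have h3 := congrArg (Polynomial.taylor (-ξ)) hQ
    rw [Polynomial.taylor_taylor, neg_add_cancel, Polynomial.taylor_zero, Polynomial.taylor_mul] at h3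
    rw [h3]
    congr 1
    rw [Polynomial.taylor_pow, Polynomial.taylor_X]
    simp [sub_eq_add_neg]
  have hcop : IsCoprime ((Polynomial.X : Polynomial ℚ) ^ (m + 1 - N)) ((Polynomial.X - Polynomial.C ξ) ^ (K + 2 - N)) := by
    apply IsCoprime.pow
    have := Polynomial.isCoprime_X_sub_C_of_isUnit_sub (R := ℚ) (a := 0) (b := ξ)
      (isUnit_iff_ne_zero.2 (by simpa using hξ0))
    simpa using this
  have hdvd := hcop.mul_dvd hd1 hd2
  have hle := Polynomial.natDegree_le_of_dvd hdvd hΔ0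
  rw [Polynomial.natDegree_mul (pow_ne_zero _ Polynomial.X_ne_zero) (pow_ne_zero _ (Polynomial.X_sub_C_ne_zero ξ)),
    Polynomial.natDegree_X_pow, Polynomial.natDegree_pow, Polynomial.natDegree_X_sub_C] at hle
  omega

lemma det_ineq' {N : ℕ} (M : Matrix (Fin N) (Fin N) ℤ) (hM : M.det ≠ 0) (r₀ i₀ : Fin N) (Y : Fin N → ℝ) (hY : Y i₀ = 1)
    (ε : ℝ) (h0 : |∑ j, (M r₀ j : ℝ) * Y j| ≤ ε) (A X L : ℝ) (hA : 0 ≤ A) (hX : 1 ≤ X) (hL : 0 ≤ L) (hMA : ∀ j, |(M r₀ j : ℝ)| ≤ A)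
    (hMX : ∀ r, r ≠ r₀ → ∀ j, |(M r j : ℝ)| ≤ X) (hML : ∀ r, r ≠ r₀ → |∑ j, (M r j : ℝ) * Y j| ≤ L) :
    1 ≤ N * (N.factorial * (A * X ^ (N - 2)) * L) + N.factorial * X ^ (N - 1) * ε := by
  classical
  set R : Matrix (Fin N) (Fin N) ℝ := M.map (Int.cast : ℤ → ℝ) with hR
  have hdet : R.det = ((M.det : ℤ) : ℝ) := (Int.cast_det (R := ℝ) M).symm
  have h1 : (1 : ℝ) ≤ |R.det| := by
    rw [hdet]
    exact_mod_cast Int.one_le_abs hM
  have h2 : R.det * Y i₀ = ∑ r, R.adjugate i₀ r * (R.mulVec Y) r := by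
    have h3 : R.adjugate.mulVec (R.mulVec Y) = R.det • Y := by
      rw [Matrix.mulVec_mulVec, Matrix.adjugate_mul, Matrix.smul_mulVec, Matrix.one_mulVec]
    have := congrFun h3 i₀
    rw [Pi.smul_apply, smul_eq_mul] at this
    rw [← this]
    rfl
  rw [hY, mul_one] at h2
  rw [h2] at h1
  refine h1.trans ((Finset.abs_sum_le_sum_abs _ _).trans ?_)
  have hε : 0 ≤ ε := (abs_nonneg _).trans h0
  have h4 : |R.adjugate i₀ r₀ * (R.mulVec Y) r₀| ≤ N.factorial * X ^ (N - 1) * ε := by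
    have hmv : (R.mulVec Y) r₀ = ∑ j, (M r₀ j : ℝ) * Y j := rfl
    rw [abs_mul, hmv]
    refine mul_le_mul ?_ h0 (abs_nonneg _) (by positivity)
    rw [Matrix.adjugate_apply]
    refine (det_bound _ (fun s => if s = r₀ then 1 else X) ?_).trans (le_of_eq ?_)
    · intro s j
      by_cases hs : s = r₀
      · rw [if_pos hs, hs, Matrix.updateRow_self]
        by_cases hj : j = i₀
        · rw [hj, Pi.single_eq_same, abs_one]
        · rw [Pi.single_eq_of_ne hj, abs_zero]; exact zero_le_one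
      · rw [if_neg hs, Matrix.updateRow_ne hs]
        exact hMX s hs j
    · congr 1
      rw [← Finset.mul_prod_erase Finset.univ _ (Finset.mem_univ r₀), if_pos rfl, one_mul,
        Finset.prod_congr rfl (g := fun _ => X) (fun s hs => by
          rw [Finset.mem_erase] at hs
          rw [if_neg hs.1])]
      rw [Finset.prod_const, Finset.card_erase_of_mem (Finset.mem_univ r₀), Finset.card_univ,
        Fintype.card_fin]
  have h3 : ∀ r : Fin N, r ≠ r₀ → |R.adjugate i₀ r * (R.mulVec Y) r| ≤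
      N.factorial * (A * X ^ (N - 2)) * L := by
    intro r hr
    have hmv : (R.mulVec Y) r = ∑ j, (M r j : ℝ) * Y j := rfl
    rw [abs_mul, hmv]
    refine mul_le_mul ?_ (hML r hr) (abs_nonneg _) (by positivity)
    rw [Matrix.adjugate_apply]
    refine (det_bound _ (fun s => if s = r then 1 else if s = r₀ then A else X) ?_).trans (le_of_eq ?_)
    · intro s j
      by_cases hs : s = r
      · rw [if_pos hs, hs, Matrix.updateRow_self]
        by_cases hj : j = i₀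
        · rw [hj, Pi.single_eq_same, abs_one]
        · rw [Pi.single_eq_of_ne hj, abs_zero]; exact zero_le_one
      · rw [if_neg hs, Matrix.updateRow_ne hs]
        by_cases hs2 : s = r₀
        · rw [if_pos hs2, hs2]; exact hMA j
        · rw [if_neg hs2]; exact hMX s hs2 j
    · congr 1
      rw [← Finset.mul_prod_erase Finset.univ _ (Finset.mem_univ r), if_pos rfl, one_mul]
      rw [← Finset.mul_prod_erase (Finset.univ.erase r) _ (Finset.mem_erase.2 ⟨Ne.symm hr, Finset.mem_univ r₀⟩),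
        if_neg (Ne.symm hr), if_pos rfl]
      congr 1
      rw [Finset.prod_congr rfl (g := fun _ => X) (fun s hs => by
        rw [Finset.mem_erase, Finset.mem_erase] at hs
        rw [if_neg hs.2.1, if_neg hs.1])]
      rw [Finset.prod_const, Finset.card_erase_of_mem (Finset.mem_erase.2 ⟨Ne.symm hr, Finset.mem_univ r₀⟩),
        Finset.card_erase_of_mem (Finset.mem_univ r), Finset.card_univ, Fintype.card_fin]
      congr 1
  rw [← Finset.sum_erase_add _ _ (Finset.mem_univ r₀)]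
  refine add_le_add ?_ h4
  calc ∑ r ∈ Finset.univ.erase r₀, |R.adjugate i₀ r * (R.mulVec Y) r|
      ≤ ∑ _r ∈ Finset.univ.erase r₀, N.factorial * (A * X ^ (N - 2)) * L :=
        Finset.sum_le_sum fun r hr => h3 r (Finset.mem_erase.1 hr).1
    _ ≤ ∑ _r : Fin N, N.factorial * (A * X ^ (N - 2)) * L :=
        Finset.sum_le_sum_of_subset_of_nonneg (Finset.erase_subset _ _) fun _ _ _ => by positivity
    _ = _ := by simp

section Core

variable {N q : ℕ} {C : ℝ} {T : Polynomial ℤ} {y : Fin N → ℚ⟦X⟧}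

/-- the estimate for one value of the parameter `ν` -/
lemma core' (hG : GSys q C T y) (i₀ : Fin N) (h1 : y i₀ = 1) (t : ℕ) (hTt : 8 * C ≤ (t : ℝ))
    (c₁ : ℕ)
    (hrank : ∀ (n m K : ℕ) (P : Fin N → Polynomial ℚ), P ≠ 0 → (∀ i, (P i).natDegree ≤ n) →
      (∀ l < m, coeff l (∑ i, (P i : ℚ⟦X⟧) * y i) = 0) → (N - 1) * n + c₁ < m → N * n + c₁ < m + K →
      ∀ (g : ℚ) (G : ℕ → Fin N → Fin N → Polynomial ℚ), g ≠ 0 →
      (∀ s ≤ K, ∀ i, PowerSeries.C g * (((T.map (Int.castRingHom ℚ) : Polynomial ℚ) : ℚ⟦X⟧) ^ s * hd s (y i)) =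
        ∑ j, (G s i j : ℚ⟦X⟧) * y j) →
      ∀ v : Fin N → ℚ, (∀ k ≤ K, ∑ j, (Pd (T.map (Int.castRingHom ℚ)) G P k j).eval (1 / (t : ℚ)) * v j = 0) → v = 0)
    (a : Fin N → ℤ) (ha0 : a ≠ 0) (ε : ℝ) (ha : |∑ i, (a i : ℝ) * ev t (y i)| ≤ ε) (A : ℝ) (hA : ∀ i, |(a i : ℝ)| ≤ A)
    (L ν : ℕ) (hL : L = 2 * q * N + 4) (hν : c₁ < ν) :
    1 ≤ (N : ℝ) * (N.factorial * (A *
      ((t : ℝ) ^ (L * ν + q * (2 * ν)) * ((2 * C) ^ ((2 * q + 3) * (2 * ν) + 2 * (L * ν) + N + 1) *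
        ((N * (L * ν + 1) : ℕ) * C ^ (2 * ((N * L - 1) * ν) + 1)) ^ (N * L))) ^ (N - 2)) *
      ((t : ℝ) ^ (L * ν + q * (2 * ν)) * ((2 * C) ^ (2 * ν + 1) * ((2 * C) ^ ((q + 1) * (2 * ν)) *
        (2 * ((N * ((L * ν : ℕ) + 1) * ((N * (L * ν + 1) : ℕ) * C ^ (2 * ((N * L - 1) * ν) + 1)) ^ (N * L) * C) *
          (4 * C) ^ ((N * L - 1) * ν) * (1 / (t : ℝ)) ^ ((N * L - 1) * ν - 2 * ν))))))) +
      N.factorial * ((t : ℝ) ^ (L * ν + q * (2 * ν)) * ((2 * C) ^ ((2 * q + 3) * (2 * ν) + 2 * (L * ν) + N + 1) *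
        ((N * (L * ν + 1) : ℕ) * C ^ (2 * ((N * L - 1) * ν) + 1)) ^ (N * L))) ^ (N - 1) * ε := by
  have hC := hG.one_le
  have hNpos : 0 < N := i₀.pos
  have htpos : (0 : ℝ) < t := by linarith
  have htnat : 0 < t := by exact_mod_cast htpos
  have hL4 : 4 ≤ L := by omega
  have hνpos : 0 < ν := by omega
  have hNL : 4 ≤ N * L := le_trans hL4 (Nat.le_mul_of_pos_left L hNpos)
  set n := L * ν with hn
  set m₀ := (N * L - 1) * ν with hm₀
  set K := 2 * ν with hK
  have hNLn : N * n = N * L * ν := by rw [hn]; ring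
  have hm₀' : m₀ + ν = N * n := by
    rw [hNLn, hm₀, Nat.sub_mul, one_mul]
    have : ν ≤ N * L * ν := Nat.le_mul_of_pos_left ν (by omega)
    omega
  have hm₀pos : 0 < m₀ := by
    rw [hm₀]; exact Nat.mul_pos (by omega) hνpos
  have hmn : m₀ < N * (n + 1) := by
    have : N * (n + 1) = N * n + N := by ring
    omega
  have he : m₀ ≤ (N * L) * (N * (n + 1) - m₀) := by
    have h2 : N * (n + 1) - m₀ = ν + N := by
      have : N * (n + 1) = N * n + N := by ring
      omega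
    rw [h2]
    calc m₀ ≤ N * n := by omega
      _ = N * L * ν := hNLn
      _ ≤ N * L * (ν + N) := Nat.mul_le_mul_left _ (by omega)
  obtain ⟨P, hP0, hPn, hPc, hPv⟩ := siegel_poly hC hG.size hG.den n m₀ (N * L) hm₀pos hmn he
  set A₀ : ℝ := ((N * (n + 1) : ℕ) * C ^ (2 * m₀ + 1)) ^ (N * L) with hA₀
  have hA₀0 : 0 ≤ A₀ := by positivity
  obtain ⟨g, hg0, hgC, hgG⟩ := hG.der K
  choose! G hGd hGc hGe using hgG
  -- rational versions
  have hTmap : ps T = ((T.map (Int.castRingHom ℚ) : Polynomial ℚ) : ℚ⟦X⟧) := rfl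
  have hPQ0 : (fun i => (P i).map (Int.castRingHom ℚ)) ≠ 0 := by
    intro h
    apply hP0
    funext i
    have h2 := congrFun h i
    simp only [Pi.zero_apply] at h2
    exact (Polynomial.map_eq_zero_iff (Int.cast_injective)).1 h2
  have hsp := hrank n m₀ K (fun i => (P i).map (Int.castRingHom ℚ)) hPQ0
    (fun i => (Polynomial.natDegree_map_le).trans (hPn i)) hPv
    (by
      have h2 : (N - 1) * n + n = N * n := by
        have h3 : (N - 1 + 1) * n = N * n := by rw [Nat.sub_add_cancel hNpos]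
        rw [← h3]; ring
      have h4 : 2 * ν ≤ n := by rw [hn]; exact Nat.mul_le_mul_right _ (by omega)
      omega)
    (by omega) (g : ℚ) (fun s i j => (G s i j).map (Int.castRingHom ℚ)) (by exact_mod_cast hg0.ne')
    (by
      intro s hs i
      have h2 := hGe s hs i
      rw [← map_natCast (PowerSeries.C (R := ℚ))] at h2
      exact h2)
  -- integer vectors
  have hdegPd : ∀ k ≤ K, ∀ j, (PdZ T G P k j).natDegree ≤ n + q * K := fun k hk j =>
    natDegree_PdZ hG.degT hPn (fun s hs i j => hGd s hs i j) hk j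
  have hint : ∀ (k : Fin (K + 1)) (j : Fin N), ∃ z : ℤ, (z : ℝ) = (t : ℝ) ^ (n + q * K) *
      Polynomial.aeval (1 / (t : ℝ)) (PdZ T G P k j) := fun k j =>
    int_eval (hdegPd k (by have := k.2; omega) j) htnat
  choose z hz using hint
  have hzorth : ∀ v : Fin N → ℚ, (∀ k, ∑ j, (z k j : ℚ) * v j = 0) → v = 0 := by
    intro v hv
    apply hsp v
    intro k hk
    have h2 := hv ⟨k, by omega⟩
    have h3 : ∀ j, ((z ⟨k, by omega⟩ j : ℤ) : ℚ) = (t : ℚ) ^ (n + q * K) *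
        (Pd (T.map (Int.castRingHom ℚ)) (fun s i j => (G s i j).map (Int.castRingHom ℚ))
          (fun i => (P i).map (Int.castRingHom ℚ)) k j).eval (1 / (t : ℚ)) := by
      intro j
      have h4 := hz ⟨k, by omega⟩ j
      rw [aeval_map_eval, PdZ_map] at h4
      exact_mod_cast h4
    simp only [h3, mul_assoc] at h2
    rw [← Finset.mul_sum] at h2
    rcases mul_eq_zero.1 h2 with h5 | h5
    · exact absurd h5 (pow_ne_zero _ (by exact_mod_cast htnat.ne'))
    · exact h5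
  obtain ⟨M, r₀, hMdet, hMr₀, hMr⟩ := exists_matrix a ha0 z hzorth
  -- bounds
  have hx0 : (0 : ℝ) ≤ 1 / t := by positivity
  have hx1 : (1 : ℝ) / t ≤ 1 := by rw [div_le_one htpos]; linarith
  have hC2 : C ≤ 2 * C := by linarith
  have hD2 : 2 ≤ 2 * C := by linarith
  have hD1 : 1 ≤ 2 * C := by linarith
  have hzb : ∀ k j, |((z k j : ℤ) : ℝ)| ≤ (t : ℝ) ^ (n + q * K) * ((2 * C) ^ ((2 * q + 3) * K + 2 * n + N + 1) * A₀) := by
    intro k j
    rw [hz, abs_mul, abs_of_nonneg (pow_nonneg htpos.le _)]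
    refine mul_le_mul_of_nonneg_left ?_ (by positivity)
    exact PdZ_bound hD2 hC2 hC hA₀0 hx0 hx1 hG.degT hG.sizeT hPn hPc (fun s hs i j => hGd s hs i j)
      (fun s hs i j l => hGc s hs i j l) (by have := k.2; omega) j
  -- the small forms
  have hcvy : ∀ i, Cv t (y i) := fun i => Cv.of_bound htpos (A := C) (B := C) (by linarith) (by linarith) (fun m => by
    rw [← pow_succ']; exact hG.size i m)
  set R := ∑ i, ps (P i) * y i with hR
  have hform : ∀ k ≤ K, (g : ℝ) * (Polynomial.aeval (1 / (t : ℝ)) T ^ k * ev t (hd k R)) =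
      ∑ j, Polynomial.aeval (1 / (t : ℝ)) (PdZ T G P k j) * ev t (y j) := by
    intro k hk
    have hbound := ev_hd_bound htpos (f := R) (A := N * (n + 1) * A₀ * C) (B := C) (by positivity) hC (by linarith)
      (form_size hC hA₀0 hG.size hPn hPc) (m₀ := m₀) (k := k) (by
        have : K ≤ m₀ := by
          rw [hK, hm₀]; exact Nat.mul_le_mul_right _ (by omega)
        omega) hPv
    have hps : ∀ Q : Polynomial ℤ, Cv (t : ℝ) (ps Q) ∧ ev (t : ℝ) (ps Q) = Polynomial.aeval (1 / (t : ℝ)) Q := by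
      intro Q
      refine ⟨Cv.coe _, ?_⟩
      rw [ps, ev_coe]
      rw [Polynomial.aeval_def, Polynomial.aeval_def, Polynomial.eval₂_map]
      congr 1
    have hPdeq := Pd_eq Polynomial.coeToPowerSeries.ringHom coe_deriv' (T := T.map (Int.castRingHom ℚ)) (Y := y)
      (G := fun s i j => (G s i j).map (Int.castRingHom ℚ)) (K := K) (g := (g : ℚ⟦X⟧)) (fun s hs i => hGe s hs i)
      (fun i => (P i).map (Int.castRingHom ℚ)) k hk
    simp only [← PdZ_map] at hPdeq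
    have hPdeq' : (g : ℚ⟦X⟧) * (ps T ^ k * hd k R) = ∑ j, ps (PdZ T G P k j) * y j := hPdeq
    have hev := congrArg (ev (t : ℝ)) hPdeq'
    have hgC' : Cv (t : ℝ) ((g : ℚ⟦X⟧)) ∧ ev (t : ℝ) ((g : ℚ⟦X⟧)) = g := by
      rw [← map_natCast (PowerSeries.C (R := ℚ))]
      exact ⟨Cv.C _, by rw [ev_C]; simp⟩
    rw [hgC'.1.ev_mul htpos (((hps T).1.pow htpos k).mul htpos hbound.1),
      ((hps T).1.pow htpos k).ev_mul htpos hbound.1, (hps T).1.ev_pow htpos, hgC'.2, (hps T).2,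
      Cv.ev_sum htpos _ _ (fun j _ => (hps _).1.mul htpos (hcvy j))] at hev
    rw [hev]
    refine Finset.sum_congr rfl fun j _ => ?_
    rw [(hps _).1.ev_mul htpos (hcvy j), (hps _).2]
  set LL : ℝ := (t : ℝ) ^ (n + q * K) * ((2 * C) ^ (K + 1) * ((2 * C) ^ ((q + 1) * K) *
        (2 * ((N * ((n : ℕ) + 1) * A₀ * C) *
          (4 * C) ^ m₀ * (1 / (t : ℝ)) ^ (m₀ - K))))) with hLL
  have hLL0 : 0 ≤ LL := by positivity
  have hsmall : ∀ k : Fin (K + 1), |∑ j, (z k j : ℝ) * ev t (y j)| ≤ LL := by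
    intro k
    have hk : (k : ℕ) ≤ K := by have := k.2; omega
    have h2 : ∑ j, (z k j : ℝ) * ev t (y j) = (t : ℝ) ^ (n + q * K) *
        ((g : ℝ) * (Polynomial.aeval (1 / (t : ℝ)) T ^ (k : ℕ) * ev t (hd k R))) := by
      rw [hform k hk, Finset.mul_sum]
      refine Finset.sum_congr rfl fun j _ => ?_
      rw [hz]; ring
    rw [h2, abs_mul, abs_of_nonneg (pow_nonneg htpos.le _), hLL]
    refine mul_le_mul_of_nonneg_left ?_ (by positivity)
    rw [abs_mul, abs_mul, Nat.abs_cast, abs_pow]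
    have hKm : K ≤ m₀ := by rw [hK, hm₀]; exact Nat.mul_le_mul_right _ (by omega)
    have hbound := (ev_hd_bound htpos (f := R) (A := N * (n + 1) * A₀ * C) (B := C) (by positivity) hC (by linarith)
      (form_size hC hA₀0 hG.size hPn hPc) (m₀ := m₀) (k := k) (by omega) hPv).2
    have hTx : |Polynomial.aeval (1 / (t : ℝ)) T| ≤ (2 * C) ^ (q + 1) := by
      refine (aeval_bound hx0 hx1 hG.degT hG.sizeT).trans ?_
      rw [pow_succ]
      refine mul_le_mul ?_ hC2 (by linarith) (by positivity)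
      calc (q : ℝ) + 1 ≤ 2 ^ q := by exact_mod_cast (Nat.lt_two_pow_self : q < 2 ^ q)
        _ ≤ (2 * C) ^ q := pow_le_pow_left₀ (by norm_num) hD2 q
    refine mul_le_mul ?_ (mul_le_mul ?_ ?_ (abs_nonneg _) (by positivity)) (by positivity) (by positivity)
    · exact hgC.trans (pow_le_pow_left₀ (by linarith) hC2 _)
    · calc |Polynomial.aeval (1 / (t : ℝ)) T| ^ (k : ℕ) ≤ ((2 * C) ^ (q + 1)) ^ (k : ℕ) :=
            pow_le_pow_left₀ (abs_nonneg _) hTx _
        _ = (2 * C) ^ ((q + 1) * k) := by rw [← pow_mul]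
        _ ≤ (2 * C) ^ ((q + 1) * K) := pow_le_pow_right₀ hD1 (Nat.mul_le_mul_left _ hk)
    · refine hbound.trans ?_
      refine mul_le_mul_of_nonneg_left ?_ (by norm_num)
      refine mul_le_mul_of_nonneg_left ?_ (by positivity)
      exact pow_le_pow_of_le_one hx0 hx1 (by omega)
  have hA0 : 0 ≤ A := (abs_nonneg _).trans (hA i₀)
  have hnatN : (1 : ℝ) ≤ ((N * (n + 1) : ℕ) : ℝ) := by
    exact_mod_cast (Nat.mul_pos hNpos (Nat.succ_pos n))
  have hA₀1 : 1 ≤ A₀ := by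
    rw [hA₀]
    apply one_le_pow₀
    have : (1 : ℝ) ≤ C ^ (2 * m₀ + 1) := one_le_pow₀ hC
    nlinarith
  have hX1 : 1 ≤ (t : ℝ) ^ (n + q * K) * ((2 * C) ^ ((2 * q + 3) * K + 2 * n + N + 1) * A₀) := by
    have h2 : (1 : ℝ) ≤ (t : ℝ) ^ (n + q * K) := one_le_pow₀ (by linarith)
    have h3 : (1 : ℝ) ≤ (2 * C) ^ ((2 * q + 3) * K + 2 * n + N + 1) := one_le_pow₀ hD1
    have h4 : (1 : ℝ) ≤ (2 * C) ^ ((2 * q + 3) * K + 2 * n + N + 1) * A₀ := by nlinarith
    nlinarith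
  refine det_ineq' M hMdet r₀ i₀ (fun j => ev t (y j)) (by simp only [h1]; exact ev_one) ε ?_ A _ LL hA0 hX1 hLL0 ?_ ?_ ?_
  · rw [hMr₀]; exact ha
  · intro j; rw [hMr₀]; exact hA j
  · intro r hr j
    obtain ⟨k, hk⟩ := hMr r hr
    rw [hk]; exact hzb k j
  · intro r hr
    obtain ⟨k, hk⟩ := hMr r hr
    rw [hk]; exact hsmall k

end Core

end Pool.Agent.R351.GF
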