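import Mathlib
import Pool.Agent.R351.GF.Shid
import Pool.Agent.Y916.Stm
import Pool.Agent.Y535.LG.Val
import Pool.Agent.Y419.LB.Base

/-!
# The system of the monomials in the functions `∫ z^s / T` has commuting coefficient matrices
-/

set_option autoImplicit false

open PowerSeries

namespace Pool.Agent.R351.GF

open Pool.Agent.Y113 Pool.Agent.Y916
open Pool.Agent.Y535.LG (toF toF_apply toF_inj toF_surj)
open Pool.Agent.Y141.GF (smul_eq')

theorem deriv_F {T : Polynomial ℤ} (h0 : T.coeff 0 = 1) (s : ℕ) :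
    ((T.map (Int.castRingHom ℚ) : Polynomial ℚ) : ℚ⟦X⟧) * d⁄dX ℚ (F T s) = (X : ℚ⟦X⟧) ^ s := by
  have h1 : d⁄dX ℚ (F T s) = (X : ℚ⟦X⟧) ^ s * U T := by
    ext m
    rw [PowerSeries.coeff_derivative, F, coeff_mk, PowerSeries.coeff_X_pow_mul']
    by_cases h : m + 1 ≤ s
    · rw [if_pos h, if_neg (by omega), zero_mul]
    · rw [if_neg h, if_pos (by omega)]
      have h2 : ((m : ℚ) + 1) ≠ 0 := by exact_mod_cast Nat.succ_ne_zero m
      have h3 : m + 1 - 1 - s = m - s := by omega
      rw [h3]
      push_cast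
      field_simp
  have h2 := Pool.Agent.Y419.LB.ps_mul_U h0
  have h3 : ((T.map (Int.castRingHom ℚ) : Polynomial ℚ) : ℚ⟦X⟧) = ps T := rfl
  rw [h1, h3, mul_left_comm, h2, mul_one]

theorem deriv_aeval {n : ℕ} {T : Polynomial ℤ} (h0 : T.coeff 0 = 1) (f : MvPolynomial (Fin n) ℚ) :
    ((T.map (Int.castRingHom ℚ) : Polynomial ℚ) : ℚ⟦X⟧) *
      d⁄dX ℚ (MvPolynomial.aeval (fun s : Fin n => F T s) f) =
      ∑ s : Fin n, (X : ℚ⟦X⟧) ^ (s : ℕ) *
        MvPolynomial.aeval (fun s : Fin n => F T s) (MvPolynomial.pderiv s f) := by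
  classical
  induction f using MvPolynomial.induction_on with
  | C a =>
    simp [MvPolynomial.pderiv_C, PowerSeries.algebraMap_apply]
  | add p q hp hq =>
    simp only [map_add, mul_add, hp, hq, Finset.sum_add_distrib]
  | mul_X p i hp =>
    simp only [map_mul, Derivation.leibniz, smul_eq_mul, MvPolynomial.aeval_X, map_add,
      MvPolynomial.pderiv_X, mul_add, Finset.sum_add_distrib]
    have h1 : ∑ x : Fin n, (X : ℚ⟦X⟧) ^ (x : ℕ) * ((MvPolynomial.aeval fun s : Fin n => F T s) p *
        (MvPolynomial.aeval fun s : Fin n => F T s) ((Pi.single i 1 : Fin n → MvPolynomial (Fin n) ℚ) x)) =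
        (X : ℚ⟦X⟧) ^ (i : ℕ) * (MvPolynomial.aeval fun s : Fin n => F T s) p := by
      rw [Finset.sum_eq_single i]
      · rw [Pi.single_eq_same, map_one, mul_one]
      · intro x _ hx
        rw [Pi.single_eq_of_ne hx, map_zero, mul_zero, mul_zero]
      · intro h; exact absurd (Finset.mem_univ _) h
    have h2 : ∑ x : Fin n, (X : ℚ⟦X⟧) ^ (x : ℕ) * (F T i *
        (MvPolynomial.aeval fun s : Fin n => F T s) ((MvPolynomial.pderiv x) p)) =
        F T i * ∑ x : Fin n, (X : ℚ⟦X⟧) ^ (x : ℕ) *
          (MvPolynomial.aeval fun s : Fin n => F T s) ((MvPolynomial.pderiv x) p) := by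
      rw [Finset.mul_sum]
      exact Finset.sum_congr rfl fun x _ => by ring
    have h3 : ∀ x : Fin n, (Pi.single i 1 : Fin n → MvPolynomial (Fin n) ℚ) x =
      (Pi.single x 1 : Fin n → MvPolynomial (Fin n) ℚ) i := by
      intro x
      by_cases hx : x = i
      · rw [hx]
      · rw [Pi.single_eq_of_ne hx, Pi.single_eq_of_ne (Ne.symm hx)]
    simp only [← h3]
    rw [h1, h2, ← hp]
    have h4 := deriv_F h0 (i : ℕ)
    linear_combination ((MvPolynomial.aeval fun s : Fin n => F T s) p) * h4

section Mat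

variable {n Δ N : ℕ} (ε : Fin N ≃ Mn n Δ)

/-- the monomials -/
noncomputable def mn (i : Fin N) : MvPolynomial (Fin n) ℚ := MvPolynomial.monomial (toF (ε i)) 1

/-- the matrix of the derivation with respect to the variable `s` -/
noncomputable def dm (s : Fin n) : Matrix (Fin N) (Fin N) ℚ :=
  Matrix.of fun i j => MvPolynomial.coeff (toF (ε j)) (MvPolynomial.pderiv s (mn ε i))

theorem pderiv_mn (s : Fin n) (i : Fin N) :
    MvPolynomial.pderiv s (mn ε i) = ∑ j, dm ε s i j • mn ε j := by
  classical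
  set p := MvPolynomial.pderiv s (mn ε i) with hp
  have h1 : ∀ d, MvPolynomial.coeff d p ≠ 0 → ∃ j, toF (ε j) = d := by
    intro d hd
    have h2 : p = MvPolynomial.monomial (toF (ε i) - Finsupp.single s 1) (1 * ((toF (ε i)) s : ℚ)) := by
      rw [hp, mn, MvPolynomial.pderiv_monomial]
    rw [h2, MvPolynomial.coeff_monomial] at hd
    have h3 : toF (ε i) - Finsupp.single s 1 = d := by
      by_contra h
      rw [if_neg h] at hd
      exact hd rfl
    obtain ⟨e, he⟩ := toF_surj (Δ := Δ) (MvPolynomial.monomial d (1 : ℚ)) (by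
      rw [MvPolynomial.totalDegree_monomial _ one_ne_zero, Finsupp.sum_fintype _ _ (fun _ => rfl), ← h3]
      refine (Finset.sum_le_sum fun x _ => ?_).trans (ε i).2
      rw [Finsupp.tsub_apply, toF_apply]
      exact Nat.sub_le _ _) d (by
      rw [MvPolynomial.support_monomial, if_neg one_ne_zero]
      exact Finset.mem_singleton_self d)
    exact ⟨ε.symm e, by rw [Equiv.apply_symm_apply]; exact he⟩
  ext d
  rw [MvPolynomial.coeff_sum]
  simp only [MvPolynomial.coeff_smul, mn, MvPolynomial.coeff_monomial, smul_eq_mul]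
  by_cases hd : ∃ j, toF (ε j) = d
  · obtain ⟨j, rfl⟩ := hd
    rw [Finset.sum_eq_single j]
    · rw [if_pos rfl, mul_one]
      rfl
    · intro k _ hk
      rw [if_neg, mul_zero]
      intro h
      exact hk (ε.injective (toF_inj h))
    · intro h; exact absurd (Finset.mem_univ _) h
  · rw [Finset.sum_eq_zero]
    · by_contra h
      exact hd (h1 d h)
    · intro j _
      rw [if_neg, mul_zero]
      intro h
      exact hd ⟨j, h⟩

theorem dm_comm (s s' : Fin n) : dm ε s * dm ε s' = dm ε s' * dm ε s := by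
  have h1 : ∀ s s' : Fin n, ∀ i k, (dm ε s * dm ε s') i k =
      MvPolynomial.coeff (toF (ε k)) (MvPolynomial.pderiv s' (MvPolynomial.pderiv s (mn ε i))) := by
    intro s s' i k
    rw [Matrix.mul_apply, pderiv_mn ε s i, map_sum, MvPolynomial.coeff_sum]
    refine Finset.sum_congr rfl fun j _ => ?_
    rw [Derivation.map_smul, MvPolynomial.coeff_smul, smul_eq_mul]
    rfl
  ext i k
  rw [h1, h1]
  congr 1
  have h2 : (⁅(MvPolynomial.pderiv s : Derivation ℚ (MvPolynomial (Fin n) ℚ) (MvPolynomial (Fin n) ℚ)),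
      (MvPolynomial.pderiv s' : Derivation ℚ (MvPolynomial (Fin n) ℚ) (MvPolynomial (Fin n) ℚ))⁆ :
        Derivation ℚ (MvPolynomial (Fin n) ℚ) (MvPolynomial (Fin n) ℚ)) = 0 := by
    refine MvPolynomial.derivation_ext fun j => ?_
    classical
    rw [Derivation.commutator_apply, MvPolynomial.pderiv_X, MvPolynomial.pderiv_X]
    by_cases h3 : j = s <;> by_cases h4 : j = s' <;>
      simp [Pi.single_apply, h3, h4, MvPolynomial.pderiv_one]
    all_goals (split_ifs <;> simp)
  have h3 := DFunLike.congr_fun h2 (mn ε i)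
  rw [Derivation.commutator_apply] at h3
  exact (sub_eq_zero.1 h3).symm

/-- the monomials of the functions `F T s` -/
theorem aeval_mn {T : Polynomial ℤ} (i : Fin N) :
    MvPolynomial.aeval (fun s : Fin n => F T s) (mn ε i) = mo (fun s : Fin n => F T s) Δ (ε i) := by
  rw [mn, MvPolynomial.aeval_monomial, map_one, one_mul, Finsupp.prod_fintype _ _ (fun _ => pow_zero _)]
  rfl

theorem mon_ab {T : Polynomial ℤ} (h0 : T.coeff 0 = 1)
    (hLI : LinearIndependent (Polynomial ℚ) (fun i => mo (fun s : Fin n => F T s) Δ (ε i)))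
    (B : Fin N → Fin N → Polynomial ℚ)
    (hB : ∀ i, ((T.map (Int.castRingHom ℚ) : Polynomial ℚ) : ℚ⟦X⟧) *
      d⁄dX ℚ (mo (fun s : Fin n => F T s) Δ (ε i)) =
        ∑ j, (B i j : ℚ⟦X⟧) * mo (fun s : Fin n => F T s) Δ (ε j)) (i i' : ℕ) :
    cm B i * cm B i' = cm B i' * cm B i := by
  classical
  have h1 : ∀ i j, B i j = ∑ s : Fin n, Polynomial.C (dm ε s i j) * Polynomial.X ^ (s : ℕ) := by
    intro i
    have h2 := hB i
    rw [← aeval_mn, deriv_aeval h0] at h2
    have h3 := Fintype.linearIndependent_iff.1 hLI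
      (fun j => B i j - ∑ s : Fin n, Polynomial.C (dm ε s i j) * Polynomial.X ^ (s : ℕ)) (by
        simp only [smul_eq', sub_smul, Finset.sum_sub_distrib]
        rw [← h2, sub_eq_zero]
        simp only [pderiv_mn, map_sum, map_smul, aeval_mn, Finset.mul_sum]
        rw [Finset.sum_comm]
        refine Finset.sum_congr rfl fun j _ => ?_
        rw [← Polynomial.coeToPowerSeries.ringHom_apply, map_sum, Finset.sum_mul]
        refine Finset.sum_congr rfl fun s _ => ?_
        rw [map_mul, map_pow, Polynomial.coeToPowerSeries.ringHom_apply,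
          Polynomial.coeToPowerSeries.ringHom_apply, Polynomial.coe_C, Polynomial.coe_X,
          PowerSeries.smul_eq_C_mul]
        ring)
    intro j
    exact sub_eq_zero.1 (h3 j)
  have h2 : ∀ l : ℕ, cm B l = if h : l < n then dm ε ⟨l, h⟩ else 0 := by
    intro l
    ext a b
    simp only [cm, Matrix.of_apply, h1, Polynomial.finsetSum_coeff, Polynomial.coeff_C_mul,
      Polynomial.coeff_X_pow]
    by_cases h : l < n
    · rw [dif_pos h, Finset.sum_eq_single ⟨l, h⟩]
      · rw [if_pos rfl, mul_one]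
      · intro s _ hs
        rw [if_neg, mul_zero]
        intro h3
        exact hs (Fin.ext h3.symm)
      · intro h3; exact absurd (Finset.mem_univ _) h3
    · rw [dif_neg h]
      refine Finset.sum_eq_zero fun s _ => ?_
      rw [if_neg, mul_zero]
      intro h3
      exact h (by rw [h3]; exact s.2)
  rw [h2, h2]
  split_ifs
  · exact dm_comm ε _ _
  · rw [mul_zero, zero_mul]
  · rw [mul_zero, zero_mul]
  · rfl

end Mat

end Pool.Agent.R351.GF
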