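import Mathlib
import Pool.Agent.R351.GF.Quant
import Pool.Agent.R351.GF.Mon
import Pool.Agent.Y796.LI.Core

/-!
# Polynomials with integer coefficients in the values of `∫ z^s / T` at `1 / t`: lower bounds
-/

set_option autoImplicit false

open PowerSeries

namespace Pool.Agent.R351.GF

open Pool.Agent.Y113 Pool.Agent.Y916 Pool.Agent.Y535.LG

theorem gsys_comp {ι ι' : Type} [Fintype ι] [Fintype ι'] {q : ℕ} {C : ℝ} {T : Polynomial ℤ}
    {y : ι → ℚ⟦X⟧} (hG : GSys q C T y) (e : ι' ≃ ι) : GSys q C T (fun i => y (e i)) where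
  one_le := hG.one_le
  degT := hG.degT
  sizeT := hG.sizeT
  size := fun i m => hG.size _ m
  den := fun m => by
    obtain ⟨d, hd1, hd2, hd3⟩ := hG.den m
    exact ⟨d, hd1, hd2, fun i => hd3 _⟩
  der := fun k => by
    obtain ⟨g, hg1, hg2, hg3⟩ := hG.der k
    refine ⟨g, hg1, hg2, fun s hs => ?_⟩
    obtain ⟨G, h3, h4, h5⟩ := hg3 s hs
    refine ⟨fun i j => G (e i) (e j), fun i j => h3 _ _, fun i j l => h4 _ _ _, fun i => ?_⟩
    rw [h5, ← Equiv.sum_comp e]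

/-- every exponent of a polynomial of total degree at most `Δ` -/
theorem toF_surjZ {n Δ : ℕ} (P : MvPolynomial (Fin n) ℤ) (hP : P.totalDegree ≤ Δ) (d : Fin n →₀ ℕ)
    (hd : d ∈ P.support) : ∃ e : Mn n Δ, toF e = d := by
  have h1 : (d.sum fun _ k => k) ≤ Δ := (MvPolynomial.le_totalDegree hd).trans hP
  have h2 : ∑ i, d i ≤ Δ := by
    rwa [Finsupp.sum_fintype _ _ (fun _ => rfl)] at h1
  have hi : ∀ i, d i < Δ + 1 := fun i => by
    have := Finset.single_le_sum (f := fun i => d i) (fun _ _ => Nat.zero_le _) (Finset.mem_univ i)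
    omega
  refine ⟨⟨fun i => ⟨d i, hi i⟩, h2⟩, ?_⟩
  ext s
  rfl

theorem aeval_sumZ {n Δ : ℕ} {R : Type*} [CommRing R] [Algebra ℤ R] (P : MvPolynomial (Fin n) ℤ)
    (hP : P.totalDegree ≤ Δ) (x : Fin n → R) :
    MvPolynomial.aeval x P = ∑ e : Mn n Δ, ((P.coeff (toF e) : ℤ) : R) * ∏ s, x s ^ (e.1 s : ℕ) := by
  classical
  rw [MvPolynomial.aeval_def, MvPolynomial.eval₂_eq']
  have h1 : ∑ d ∈ P.support, (algebraMap ℤ R) (P.coeff d) * ∏ i, x i ^ d i =
      ∑ d ∈ Finset.univ.image (toF (n := n) (Δ := Δ)),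
        (algebraMap ℤ R) (P.coeff d) * ∏ i, x i ^ d i := by
    refine Finset.sum_subset ?_ ?_
    · intro d hd
      obtain ⟨e, he⟩ := toF_surjZ P hP d hd
      exact Finset.mem_image.2 ⟨e, Finset.mem_univ _, he⟩
    · intro d _ hd
      rw [MvPolynomial.notMem_support_iff.1 hd]
      simp
  rw [h1, Finset.sum_image (fun a _ b _ h => toF_inj h)]
  refine Finset.sum_congr rfl fun e _ => ?_
  rw [eq_intCast]
  rfl

theorem val_quant (n Δ : ℕ) : ∃ E : ℕ, ∀ (H t : ℕ) (T : Polynomial ℤ), (H + 2) ^ E ≤ t →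
    T.coeff 0 = 1 → T.natDegree = n → Squarefree (T.map (Int.castRingHom ℚ)) →
    (∀ l, |T.coeff l| ≤ H) → ∀ P : MvPolynomial (Fin n) ℤ, P ≠ 0 → P.totalDegree ≤ Δ →
    ∀ A : ℝ, 1 ≤ A → (∀ s, |((P.coeff s : ℤ) : ℝ)| ≤ A) →
      1 ≤ (A * t) ^ E * |MvPolynomial.aeval (fun s : Fin n => ev t (F T s)) P| := by
  classical
  obtain ⟨E₀, hE₀⟩ := Pool.Agent.Y419.LB.base_holds n
  obtain ⟨E₁, hE₁⟩ := t_mon n n Δ
  obtain ⟨E₂, hE₂⟩ := G_quant Pool.Agent.Y141.GF.t_loc (Fintype.card (Mn n Δ)) n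
  refine ⟨((E₀ + 1) * E₁ + 1) * E₂ + (n + 1) + (E₀ + 1) + E₂,
    fun H t T ht h0 hd hsq hH P hP0 hP A hA1 hPA => ?_⟩
  have hB : (1 : ℝ) ≤ (H : ℝ) + 2 := one_le_base H
  have htN : ∀ a, a ≤ ((E₀ + 1) * E₁ + 1) * E₂ + (n + 1) + (E₀ + 1) + E₂ → (H + 2) ^ a ≤ t :=
    fun a ha => (Nat.pow_le_pow_right (by omega) ha).trans ht
  have htR : ∀ a, a ≤ ((E₀ + 1) * E₁ + 1) * E₂ + (n + 1) + (E₀ + 1) + E₂ →
      ((H : ℝ) + 2) ^ a ≤ t := fun a ha => by exact_mod_cast htN a ha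
  have hG := hE₀ H T h0 hd.le hH
  have ht1 : (1 : ℝ) ≤ t := by simpa using htR 0 (by omega)
  have ht0 : (0 : ℝ) < t := by linarith
  have hG2 := (hE₁ _ T (fun s : Fin n => F T s) hG).mono le_rfl (pow_base H _ _)
  let e₀ : Mn n Δ := ⟨fun _ => 0, by simp⟩
  set ε : Fin (Fintype.card (Mn n Δ)) ≃ Mn n Δ := (Fintype.equivFin (Mn n Δ)).symm with hε
  have hLI := Pool.Agent.Y796.LI.t_LI n Δ T h0 hd hsq
  have hLI' : LinearIndependent (Polynomial ℚ) (fun i => mo (fun s : Fin n => F T s) Δ (ε i)) :=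
    hLI.comp ε ε.injective
  set a : Fin (Fintype.card (Mn n Δ)) → ℤ := fun i => P.coeff (toF (ε i)) with ha
  have ha0 : a ≠ 0 := by
    intro h
    apply hP0
    ext d
    rw [MvPolynomial.coeff_zero]
    by_contra hne
    obtain ⟨e, he⟩ := toF_surjZ P hP d (MvPolynomial.mem_support_iff.2 hne)
    rw [← he] at hne
    apply hne
    have := congrFun h (ε.symm e)
    simpa [ha] using this
  have key := hE₂ _ T (fun i => mo (fun s : Fin n => F T s) Δ (ε i)) (ε.symm e₀) t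
    (gsys_comp hG2 ε) (by simp [mo, e₀]) hLI' (by rw [h0]; exact one_ne_zero)
    (fun B hB => mon_ab ε h0 hLI' B hB)
    ((pow_base H _ _).trans (htR _ (by omega)))
    (T_ne h0 hd hH (htN _ (by omega))) a ha0 A hA1 (fun i => hPA _)
  -- evaluation
  have hcv : ∀ s : Fin n, Cv (t : ℝ) (F T s) := by
    intro s
    refine Cv.of_bound ht0 (A := ((H : ℝ) + 2) ^ E₀) (B := ((H : ℝ) + 2) ^ E₀) (by positivity) ?_
      fun m => ?_
    · refine lt_of_lt_of_le ?_ (htR (E₀ + 1) (by omega))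
      exact pow_lt_pow_right₀ (by linarith [show (0 : ℝ) ≤ H by positivity]) (by omega)
    · have := hG.size (some s) m
      rw [pow_succ'] at this
      exact this
  have hmo : ∀ e : Mn n Δ, ev t (mo (fun s : Fin n => F T s) Δ e) =
      ∏ s : Fin n, (ev t (F T s)) ^ (e.1 s : ℕ) := by
    intro e
    unfold mo
    rw [Cv.ev_prod ht0 _ _ fun s _ => (hcv s).pow ht0 _]
    exact Finset.prod_congr rfl fun s _ => (hcv s).ev_pow ht0 _
  have hval : ∑ i, (a i : ℝ) * ev t (mo (fun s : Fin n => F T s) Δ (ε i)) =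
      MvPolynomial.aeval (fun s : Fin n => ev t (F T s)) P := by
    rw [aeval_sumZ P hP, ← Equiv.sum_comp ε]
    refine Finset.sum_congr rfl fun i _ => ?_
    rw [hmo]
  rw [hval] at key
  refine key.trans (mul_le_mul_of_nonneg_right ?_ (abs_nonneg _))
  exact pow_le_pow_right₀ (one_le_mul_of_one_le_of_one_le hA1 ht1) (by omega)

end Pool.Agent.R351.GF
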