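import Mathlib
import Pool.Agent.R351.GF.Val

/-!
# Domination of integer polynomials in several variables; linear substitutions
-/

set_option autoImplicit false

namespace Pool.Agent.R351.GF

open MvPolynomial Pool.Agent.Y916 Pool.Agent.Y535.LG

section Dv

variable {σ : Type} [DecidableEq σ]

/-- `P` is dominated by a polynomial with nonnegative coefficients whose value at `(1, …, 1)` is at
most `B` -/
def Dv (P : MvPolynomial σ ℤ) (B : ℝ) : Prop :=
  ∃ Q : MvPolynomial σ ℝ, (∀ s, |((P.coeff s : ℤ) : ℝ)| ≤ Q.coeff s) ∧ eval 1 Q ≤ B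

theorem eval_one_eq (Q : MvPolynomial σ ℝ) : eval (1 : σ → ℝ) Q = ∑ s ∈ Q.support, Q.coeff s := by
  rw [eval_eq]
  refine Finset.sum_congr rfl fun s _ => ?_
  simp

theorem eval_one_nonneg {Q : MvPolynomial σ ℝ} (h : ∀ s, 0 ≤ Q.coeff s) : 0 ≤ eval (1 : σ → ℝ) Q := by
  rw [eval_one_eq]
  exact Finset.sum_nonneg fun i _ => h i

theorem Dv.coeff {P : MvPolynomial σ ℤ} {B : ℝ} (h : Dv P B) (s : σ →₀ ℕ) :
    |((P.coeff s : ℤ) : ℝ)| ≤ B := by
  obtain ⟨Q, h1, h2⟩ := h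
  have h3 : ∀ s, 0 ≤ Q.coeff s := fun s => (abs_nonneg _).trans (h1 s)
  refine (h1 s).trans (le_trans ?_ h2)
  rw [eval_one_eq]
  by_cases hs : s ∈ Q.support
  · exact Finset.single_le_sum (f := fun s => Q.coeff s) (fun i _ => h3 i) hs
  · rw [MvPolynomial.notMem_support_iff.1 hs]
    exact Finset.sum_nonneg fun i _ => h3 i

theorem Dv.mono {P : MvPolynomial σ ℤ} {A B : ℝ} (h : Dv P A) (hAB : A ≤ B) : Dv P B := by
  obtain ⟨Q, h1, h2⟩ := h
  exact ⟨Q, h1, h2.trans hAB⟩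

theorem Dv.mul {P P' : MvPolynomial σ ℤ} {A B : ℝ} (h : Dv P A) (h' : Dv P' B) :
    Dv (P * P') (A * B) := by
  obtain ⟨Q, h1, h2⟩ := h
  obtain ⟨Q', h1', h2'⟩ := h'
  refine ⟨Q * Q', fun s => ?_, ?_⟩
  · rw [MvPolynomial.coeff_mul, MvPolynomial.coeff_mul]
    push_cast
    refine (Finset.abs_sum_le_sum_abs _ _).trans (Finset.sum_le_sum fun p _ => ?_)
    rw [abs_mul]
    exact mul_le_mul (h1 _) (h1' _) (abs_nonneg _) ((abs_nonneg _).trans (h1 _))
  · rw [map_mul]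
    have e1 := eval_one_nonneg (fun l => (abs_nonneg _).trans (h1 l))
    have e2 := eval_one_nonneg (fun l => (abs_nonneg _).trans (h1' l))
    exact mul_le_mul h2 h2' e2 (e1.trans h2)

theorem Dv.add {P P' : MvPolynomial σ ℤ} {A B : ℝ} (h : Dv P A) (h' : Dv P' B) :
    Dv (P + P') (A + B) := by
  obtain ⟨Q, h1, h2⟩ := h
  obtain ⟨Q', h1', h2'⟩ := h'
  refine ⟨Q + Q', fun s => ?_, ?_⟩
  · rw [MvPolynomial.coeff_add, MvPolynomial.coeff_add]
    push_cast
    exact (abs_add_le _ _).trans (add_le_add (h1 s) (h1' s))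
  · rw [map_add]
    exact add_le_add h2 h2'

theorem Dv.zero : Dv (0 : MvPolynomial σ ℤ) 0 := ⟨0, by simp, by simp⟩

theorem Dv.of_C (c : ℤ) : Dv (C c : MvPolynomial σ ℤ) |(c : ℝ)| := by
  refine ⟨C |(c : ℝ)|, fun s => ?_, by simp⟩
  rw [coeff_C, coeff_C]
  split_ifs <;> simp

theorem Dv.of_X (i : σ) : Dv (X i : MvPolynomial σ ℤ) 1 := by
  refine ⟨X i, fun s => ?_, by simp⟩
  rw [coeff_X, coeff_X]
  split_ifs <;> simp

theorem Dv.one : Dv (1 : MvPolynomial σ ℤ) 1 := by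
  have := Dv.of_C (σ := σ) 1
  simpa using this

theorem Dv.pow {P : MvPolynomial σ ℤ} {A : ℝ} (h : Dv P A) (k : ℕ) : Dv (P ^ k) (A ^ k) := by
  induction k with
  | zero => simpa using Dv.one
  | succ k ih => rw [pow_succ, pow_succ]; exact ih.mul h

theorem Dv.sum {τ : Type} (s : Finset τ) {f : τ → MvPolynomial σ ℤ} {A : τ → ℝ}
    (h : ∀ i ∈ s, Dv (f i) (A i)) : Dv (∑ i ∈ s, f i) (∑ i ∈ s, A i) := by
  classical
  induction s using Finset.induction_on with
  | empty => simpa using Dv.zero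
  | insert a s ha ih =>
    rw [Finset.sum_insert ha, Finset.sum_insert ha]
    exact (h a (Finset.mem_insert_self _ _)).add (ih fun i hi => h i (Finset.mem_insert_of_mem hi))

theorem Dv.prod {τ : Type} (s : Finset τ) {f : τ → MvPolynomial σ ℤ} {A : τ → ℝ}
    (h : ∀ i ∈ s, Dv (f i) (A i)) : Dv (∏ i ∈ s, f i) (∏ i ∈ s, A i) := by
  classical
  induction s using Finset.induction_on with
  | empty => simpa using Dv.one
  | insert a s ha ih =>
    rw [Finset.prod_insert ha, Finset.prod_insert ha]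
    exact (h a (Finset.mem_insert_self _ _)).mul (ih fun i hi => h i (Finset.mem_insert_of_mem hi))

end Dv

section Lin

variable {r : ℕ}

/-- the linear substitution -/
noncomputable def ls (c : Fin r → Fin r → ℤ) : MvPolynomial (Fin r) ℤ →ₐ[ℤ] MvPolynomial (Fin r) ℤ :=
  aeval (fun i => ∑ s, C (c i s) * X s)

theorem ls_eq {Δ : ℕ} (c : Fin r → Fin r → ℤ) (P : MvPolynomial (Fin r) ℤ) (hP : P.totalDegree ≤ Δ) :
    ls c P = ∑ e : Mn r Δ, C (P.coeff (toF e)) * ∏ i, (∑ s, C (c i s) * X s) ^ (e.1 i : ℕ) := by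
  unfold ls
  rw [aeval_sumZ P hP]
  refine Finset.sum_congr rfl fun e _ => ?_
  congr 1

theorem ls_totalDegree {Δ : ℕ} (c : Fin r → Fin r → ℤ) (P : MvPolynomial (Fin r) ℤ)
    (hP : P.totalDegree ≤ Δ) : (ls c P).totalDegree ≤ Δ := by
  rw [ls_eq c P hP]
  refine totalDegree_finsetSum_le fun e _ => ?_
  refine (totalDegree_mul _ _).trans ?_
  rw [totalDegree_C, zero_add]
  refine (totalDegree_finsetProd _ _).trans (le_trans (Finset.sum_le_sum fun i _ => ?_) e.2)
  refine (totalDegree_pow _ _).trans ?_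
  refine (Nat.mul_le_mul_left _ ?_).trans (mul_one _).le
  refine totalDegree_finsetSum_le fun s _ => ?_
  refine (totalDegree_mul _ _).trans ?_
  rw [totalDegree_C, zero_add]
  exact (totalDegree_X s).le

theorem ls_coeff {Δ : ℕ} (c : Fin r → Fin r → ℤ) (P : MvPolynomial (Fin r) ℤ)
    (hP : P.totalDegree ≤ Δ) {A Y : ℝ} (hA : 0 ≤ A) (hY : 1 ≤ Y)
    (hPA : ∀ s, |((P.coeff s : ℤ) : ℝ)| ≤ A) (hc : ∀ i, ∑ s, |(c i s : ℝ)| ≤ Y) (s : Fin r →₀ ℕ) :
    |(((ls c P).coeff s : ℤ) : ℝ)| ≤ Fintype.card (Mn r Δ) * (A * Y ^ Δ) := by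
  apply Dv.coeff
  rw [ls_eq c P hP]
  refine (Dv.sum (A := fun _ => A * Y ^ Δ) Finset.univ fun e _ => ?_).mono ?_
  · refine ((Dv.of_C _).mul (Dv.prod (A := fun i => Y ^ (e.1 i : ℕ)) Finset.univ fun i _ => ?_)).mono ?_
    · refine Dv.pow ?_ _
      refine (Dv.sum (A := fun s => |(c i s : ℝ)|) Finset.univ fun s _ => ?_).mono (hc i)
      have := (Dv.of_C (σ := Fin r) (c i s)).mul (Dv.of_X s)
      rwa [mul_one] at this
    · rw [Finset.prod_pow_eq_pow_sum]
      exact mul_le_mul (hPA _) (pow_le_pow_right₀ hY e.2) (by positivity) hA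
  · rw [Finset.sum_const, Finset.card_univ, nsmul_eq_mul]

theorem ls_ne_zero (c : Fin r → Fin r → ℤ)
    (hc : (Matrix.of fun i s => ((c i s : ℤ) : ℚ) : Matrix (Fin r) (Fin r) ℚ).det ≠ 0)
    {P : MvPolynomial (Fin r) ℤ} (hP : P ≠ 0) : ls c P ≠ 0 := by
  classical
  set M : Matrix (Fin r) (Fin r) ℚ := Matrix.of fun i s => ((c i s : ℤ) : ℚ) with hM
  have hMu : IsUnit M.det := isUnit_iff_ne_zero.2 hc
  have hMM : M * M⁻¹ = 1 := Matrix.mul_nonsing_inv M hMu
  let σ : MvPolynomial (Fin r) ℚ →ₐ[ℚ] MvPolynomial (Fin r) ℚ := aeval (fun i => ∑ s, C (M i s) * X s)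
  let σ' : MvPolynomial (Fin r) ℚ →ₐ[ℚ] MvPolynomial (Fin r) ℚ :=
    aeval (fun s => ∑ j, C (M⁻¹ s j) * X j)
  have h1 : σ'.comp σ = AlgHom.id ℚ _ := by
    apply MvPolynomial.algHom_ext
    intro i
    simp only [AlgHom.comp_apply, σ, σ', aeval_X, map_sum, map_mul, AlgHom.id_apply, algHom_C,
      MvPolynomial.algebraMap_eq, Finset.mul_sum]
    rw [Finset.sum_comm]
    have h2 : ∀ j, ∑ s, C (M i s) * (C (M⁻¹ s j) * X j) = (C ((M * M⁻¹) i j) * X j : MvPolynomial (Fin r) ℚ) := by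
      intro j
      rw [Matrix.mul_apply, map_sum, Finset.sum_mul]
      exact Finset.sum_congr rfl fun s _ => by rw [map_mul, mul_assoc]
    simp only [h2, hMM]
    rw [Finset.sum_eq_single i]
    · rw [Matrix.one_apply_eq, map_one, one_mul]
    · intro j _ hj
      rw [Matrix.one_apply_ne (Ne.symm hj), map_zero, zero_mul]
    · intro h; exact absurd (Finset.mem_univ _) h
  have hinj : Function.Injective σ :=
    Function.LeftInverse.injective (g := σ') (fun p => DFunLike.congr_fun h1 p)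
  have h3 : ∀ P : MvPolynomial (Fin r) ℤ, MvPolynomial.map (Int.castRingHom ℚ) (ls c P) =
      σ (MvPolynomial.map (Int.castRingHom ℚ) P) := by
    intro P
    have h4 : (MvPolynomial.map (Int.castRingHom ℚ)).comp (ls c).toRingHom =
        σ.toRingHom.comp (MvPolynomial.map (Int.castRingHom ℚ)) := by
      apply MvPolynomial.ringHom_ext
      · intro a
        simp [ls, σ]
      · intro i
        simp [ls, σ, hM]
    exact DFunLike.congr_fun h4 P
  intro h0
  apply hP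
  apply MvPolynomial.map_injective (Int.castRingHom ℚ) Int.cast_injective
  apply hinj
  rw [map_zero, map_zero, ← h3, h0, map_zero]

theorem ls_aeval (c : Fin r → Fin r → ℤ) (P : MvPolynomial (Fin r) ℤ) (f : Fin r → ℝ) :
    aeval f (ls c P) = aeval (fun i => ∑ s, (c i s : ℝ) * f s) P := by
  have h1 : (aeval f : MvPolynomial (Fin r) ℤ →ₐ[ℤ] ℝ).comp (ls c) =
      aeval (fun i => ∑ s, (c i s : ℝ) * f s) := by
    apply MvPolynomial.algHom_ext
    intro i
    simp [ls]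
  exact DFunLike.congr_fun h1 P

end Lin

end Pool.Agent.R351.GF
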