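import Mathlib
import Pool.Agent.R351.GF.Dv

/-!
# Polynomials with integer coefficients in the numbers `log (1 + β / t)`: lower bounds
-/

set_option autoImplicit false

open PowerSeries

namespace Pool.Agent.R351.GF

open Pool.Agent.Y113 Pool.Agent.Y916 Pool.Agent.Y535.LG
open Pool.Agent.Y419.LB (Dm Dm.coeff Dm.mul Dm.one coeff_ps)
open Pool.Agent.Y141.GF (smul_eq')

/-- `log (1 + b z)` -/
noncomputable def lgs (b : ℤ) : ℚ⟦X⟧ := PowerSeries.mk fun m => -((-(b : ℚ)) ^ m / m)

theorem lgs_deriv (b : ℤ) : (1 + PowerSeries.C (b : ℚ) * X) * d⁄dX ℚ (lgs b) = PowerSeries.C (b : ℚ) := by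
  have h1 : ∀ m, coeff m (d⁄dX ℚ (lgs b)) = b * (-(b : ℚ)) ^ m := by
    intro m
    rw [PowerSeries.coeff_derivative, lgs, coeff_mk]
    have h2 : ((m : ℚ) + 1) ≠ 0 := by exact_mod_cast Nat.succ_ne_zero m
    push_cast
    field_simp
    ring
  ext m
  rw [add_mul, one_mul, mul_assoc, map_add, h1, PowerSeries.coeff_C_mul]
  rcases m with _ | m
  · simp
  · rw [mul_comm X, PowerSeries.coeff_succ_mul_X, h1, PowerSeries.coeff_C, if_neg (Nat.succ_ne_zero m)]
    ring

theorem ev_lgs {t : ℝ} (ht : 0 < t) {b : ℤ} (hb : |(b : ℝ)| < t) :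
    ev t (lgs b) = Real.log (1 + b / t) := by
  have hx : |(-(b : ℝ) / t)| < 1 := by
    rw [abs_div, abs_neg, abs_of_pos ht, div_lt_one ht]
    exact hb
  have h1 := (Real.hasSum_pow_div_log_of_abs_lt_one hx).neg
  rw [neg_neg] at h1
  have h2 : HasSum (fun m : ℕ => ((coeff m (lgs b) : ℚ) : ℝ) * (1 / t) ^ m) (Real.log (1 + b / t)) := by
    rw [← hasSum_nat_add_iff' 1]
    have h3 : Real.log (1 + b / t) - ∑ i ∈ Finset.range 1, ((coeff i (lgs b) : ℚ) : ℝ) * (1 / t) ^ i =
        Real.log (1 - -(b : ℝ) / t) := by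
      rw [Finset.sum_range_one]
      simp only [lgs, coeff_mk]
      rw [neg_div, sub_neg_eq_add]
      simp
    rw [h3]
    have h4 : (fun m : ℕ => ((coeff (m + 1) (lgs b) : ℚ) : ℝ) * (1 / t) ^ (m + 1)) =
        fun m : ℕ => -((-(b : ℝ) / t) ^ (m + 1) / (m + 1)) := by
      funext m
      simp only [lgs, coeff_mk]
      push_cast
      rw [div_pow, div_pow, one_pow]
      field_simp
    rw [h4]
    exact h1
  exact h2.tsum_eq

section Beta

variable {r : ℕ} (β : Fin r → ℤ)

/-- the polynomial `∏ (1 + β i z)` -/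
noncomputable def Tb : Polynomial ℤ := ∏ i, (1 + Polynomial.C (β i) * Polynomial.X)

/-- the polynomial `β i ∏ (1 + β j z)`, `j ≠ i` -/
noncomputable def cb (i : Fin r) : Polynomial ℤ :=
  Polynomial.C (β i) * ∏ j ∈ Finset.univ.erase i, (1 + Polynomial.C (β j) * Polynomial.X)

theorem cb_mul (i : Fin r) : (1 + Polynomial.C (β i) * Polynomial.X) * cb β i = Polynomial.C (β i) * Tb β := by
  rw [cb, Tb, ← Finset.mul_prod_erase Finset.univ _ (Finset.mem_univ i)]
  ring

theorem natDegree_lin_le (b : ℤ) : (1 + Polynomial.C b * Polynomial.X : Polynomial ℤ).natDegree ≤ 1 := by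
  refine (Polynomial.natDegree_add_le _ _).trans (max_le ?_ ?_)
  · rw [Polynomial.natDegree_one]; exact Nat.zero_le _
  · refine (Polynomial.natDegree_C_mul_le _ _).trans ?_
    rw [Polynomial.natDegree_X]

theorem natDegree_lin_eq {b : ℤ} (hb : b ≠ 0) :
    (1 + Polynomial.C b * Polynomial.X : Polynomial ℤ).natDegree = 1 := by
  rw [add_comm, ← Polynomial.C_1, Polynomial.natDegree_linear hb]

theorem cb_natDegree (i : Fin r) : (cb β i).natDegree < r := by
  have hr : 0 < r := i.pos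
  refine lt_of_le_of_lt (Polynomial.natDegree_C_mul_le _ _) ?_
  refine lt_of_le_of_lt (Polynomial.natDegree_prod_le _ _) ?_
  refine lt_of_le_of_lt (Finset.sum_le_sum fun j _ => natDegree_lin_le (β j)) ?_
  rw [Finset.sum_const, smul_eq_mul, mul_one, Finset.card_erase_of_mem (Finset.mem_univ i),
    Finset.card_univ, Fintype.card_fin]
  omega

theorem Tb_coeff_zero : (Tb β).coeff 0 = 1 := by
  rw [Tb, Polynomial.coeff_zero_eq_eval_zero, Polynomial.eval_prod]
  simp

theorem Tb_natDegree (hβ : ∀ i, β i ≠ 0) : (Tb β).natDegree = r := by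
  rw [Tb, Polynomial.natDegree_prod]
  · rw [Finset.sum_congr rfl fun i _ => natDegree_lin_eq (hβ i)]
    simp
  · intro i _ h
    have := natDegree_lin_eq (hβ i)
    rw [h, Polynomial.natDegree_zero] at this
    exact absurd this (by norm_num)

theorem Tb_squarefree (hinj : Function.Injective β) (hβ : ∀ i, β i ≠ 0) :
    Squarefree ((Tb β).map (Int.castRingHom ℚ)) := by
  apply Polynomial.Separable.squarefree
  rw [Tb, Polynomial.map_prod]
  refine Polynomial.separable_prod ?_ ?_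
  · intro i j hij
    have hne : (β j : ℚ) - β i ≠ 0 := by
      rw [sub_ne_zero]
      intro h
      exact hij (hinj (by exact_mod_cast h.symm))
    show IsCoprime _ _
    refine ⟨Polynomial.C ((β j : ℚ) / (β j - β i)), Polynomial.C (-(β i : ℚ) / (β j - β i)), ?_⟩
    have h1 : Polynomial.C ((β j : ℚ) / (β j - β i)) - Polynomial.C ((β i : ℚ) / (β j - β i)) =
        (1 : Polynomial ℚ) := by
      rw [← Polynomial.C_sub, ← sub_div, div_self hne, Polynomial.C_1]
    have h2 : Polynomial.C ((β j : ℚ) / (β j - β i)) * Polynomial.C (β i : ℚ) =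
        Polynomial.C ((β i : ℚ) / (β j - β i)) * (Polynomial.C (β j : ℚ) : Polynomial ℚ) := by
      rw [← Polynomial.C_mul, ← Polynomial.C_mul]
      congr 1
      ring
    have h3 : (Polynomial.C (-(β i : ℚ) / (β j - β i)) : Polynomial ℚ) =
        - Polynomial.C ((β i : ℚ) / (β j - β i)) := by
      rw [← Polynomial.C_neg, neg_div]
    simp only [Polynomial.map_add, Polynomial.map_one, Polynomial.map_mul, Polynomial.map_C,
      Polynomial.map_X, Int.coe_castRingHom]
    rw [h3]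
    linear_combination h1 + Polynomial.X * h2
  · intro i
    rw [Polynomial.separable_def]
    simp only [Polynomial.map_add, Polynomial.map_one, Polynomial.map_mul, Polynomial.map_C,
      Polynomial.map_X, Int.coe_castRingHom, Polynomial.derivative_add, Polynomial.derivative_one,
      Polynomial.derivative_C_mul, Polynomial.derivative_X, zero_add, mul_one]
    have h4 : (β i : ℚ) ≠ 0 := by exact_mod_cast hβ i
    exact ⟨0, Polynomial.C (β i : ℚ)⁻¹, by
      rw [zero_mul, zero_add, ← Polynomial.C_mul, inv_mul_cancel₀ h4, Polynomial.C_1]⟩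

theorem Dm_lin {b : ℤ} {h : ℕ} (hb : |b| ≤ h) :
    Dm (1 + Polynomial.C b * Polynomial.X) ((h : ℝ) + 1) := by
  refine ⟨1 + Polynomial.C (h : ℝ) * Polynomial.X, fun l => ?_, by simp [add_comm]⟩
  rw [Polynomial.coeff_add, Polynomial.coeff_add, Polynomial.coeff_C_mul, Polynomial.coeff_C_mul]
  push_cast
  refine (abs_add_le _ _).trans (add_le_add ?_ ?_)
  · rw [Polynomial.coeff_one, Polynomial.coeff_one]
    split_ifs <;> simp
  · rw [abs_mul]
    have h1 : |(b : ℝ)| ≤ h := by exact_mod_cast hb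
    rw [Polynomial.coeff_X, Polynomial.coeff_X]
    split_ifs <;> simp [h1]

theorem Dm_prod {h : ℕ} (hb : ∀ i, |β i| ≤ h) (s : Finset (Fin r)) :
    Dm (∏ i ∈ s, (1 + Polynomial.C (β i) * Polynomial.X)) (((h : ℝ) + 1) ^ s.card) := by
  classical
  induction s using Finset.induction_on with
  | empty => simpa using Dm.one
  | insert a s ha ih =>
    rw [Finset.prod_insert ha, Finset.card_insert_of_notMem ha, pow_succ']
    exact (Dm_lin (hb a)).mul ih

theorem Tb_coeff_le {h : ℕ} (hb : ∀ i, |β i| ≤ h) (l : ℕ) : |(Tb β).coeff l| ≤ ((h + 1) ^ r : ℕ) := by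
  have h1 := (Dm_prod β hb Finset.univ).coeff l
  rw [Finset.card_univ, Fintype.card_fin] at h1
  have h2 : |(((Tb β).coeff l : ℤ) : ℝ)| ≤ (((h + 1) ^ r : ℕ) : ℝ) := by
    push_cast
    exact h1
  exact_mod_cast h2

theorem cb_coeff_le {h : ℕ} (hb : ∀ i, |β i| ≤ h) (i : Fin r) (l : ℕ) :
    |(((cb β i).coeff l : ℤ) : ℝ)| ≤ ((h : ℝ) + 1) ^ r := by
  have h1 := (Dm_prod β hb (Finset.univ.erase i)).coeff l
  rw [Finset.card_erase_of_mem (Finset.mem_univ i), Finset.card_univ, Fintype.card_fin] at h1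
  rw [cb, Polynomial.coeff_C_mul]
  push_cast
  rw [abs_mul]
  have h2 : |(β i : ℝ)| ≤ (h : ℝ) + 1 := by
    have : |(β i : ℝ)| ≤ h := by exact_mod_cast hb i
    linarith
  have hr : r - 1 + 1 = r := Nat.sub_add_cancel i.pos
  calc |(β i : ℝ)| * |(((∏ j ∈ Finset.univ.erase i, (1 + Polynomial.C (β j) * Polynomial.X)).coeff l : ℤ) : ℝ)|
      ≤ ((h : ℝ) + 1) * ((h : ℝ) + 1) ^ (r - 1) := mul_le_mul h2 h1 (abs_nonneg _) (by positivity)
    _ = ((h : ℝ) + 1) ^ r := by rw [← pow_succ', hr]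

theorem lgs_eq (i : Fin r) :
    lgs (β i) = ∑ s : Fin r, PowerSeries.C (((cb β i).coeff s : ℤ) : ℚ) * F (Tb β) s := by
  have hT0 := Tb_coeff_zero β
  set Tq : ℚ⟦X⟧ := (((Tb β).map (Int.castRingHom ℚ) : Polynomial ℚ) : ℚ⟦X⟧) with hTq
  have hTne : Tq ≠ 0 := by
    intro h
    have h1 := congrArg (coeff 0) h
    rw [hTq, Polynomial.coeff_coe, Polynomial.coeff_map, hT0] at h1
    simp at h1
  have hlin : ∀ b : ℤ, (((1 + Polynomial.C b * Polynomial.X : Polynomial ℤ).map (Int.castRingHom ℚ) :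
      Polynomial ℚ) : ℚ⟦X⟧) = 1 + PowerSeries.C (b : ℚ) * X := by
    intro b
    rw [Polynomial.map_add, Polynomial.map_one, Polynomial.map_mul, Polynomial.map_C,
      Polynomial.map_X, Polynomial.coe_add, Polynomial.coe_one, Polynomial.coe_mul, Polynomial.coe_C,
      Polynomial.coe_X]
    rfl
  have hlne : (1 + PowerSeries.C (β i : ℚ) * X : ℚ⟦X⟧) ≠ 0 := by
    intro h
    have h1 := congrArg constantCoeff h
    simp at h1
  have hcoe : ∀ p q : Polynomial ℤ, (((p * q).map (Int.castRingHom ℚ) : Polynomial ℚ) : ℚ⟦X⟧) =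
      ((p.map (Int.castRingHom ℚ) : Polynomial ℚ) : ℚ⟦X⟧) * ((q.map (Int.castRingHom ℚ) : Polynomial ℚ) : ℚ⟦X⟧) := by
    intro p q
    rw [Polynomial.map_mul, Polynomial.coe_mul]
  apply PowerSeries.derivative.ext
  · apply mul_left_cancel₀ hTne
    apply mul_left_cancel₀ hlne
    have h1 : (1 + PowerSeries.C (β i : ℚ) * X) * (Tq * d⁄dX ℚ (lgs (β i))) = Tq * PowerSeries.C (β i : ℚ) := by
      have := lgs_deriv (β i)
      linear_combination Tq * this
    rw [h1]
    have h2 : Tq * d⁄dX ℚ (∑ s : Fin r, PowerSeries.C (((cb β i).coeff s : ℤ) : ℚ) * F (Tb β) s) =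
        (((cb β i).map (Int.castRingHom ℚ) : Polynomial ℚ) : ℚ⟦X⟧) := by
      rw [map_sum, Finset.mul_sum]
      have h3 : ∀ s : Fin r, Tq * d⁄dX ℚ (PowerSeries.C (((cb β i).coeff s : ℤ) : ℚ) * F (Tb β) s) =
          PowerSeries.C (((cb β i).coeff s : ℤ) : ℚ) * X ^ (s : ℕ) := by
        intro s
        rw [Derivation.leibniz, PowerSeries.derivative_C, smul_zero, add_zero, smul_eq_mul,
          ← deriv_F hT0 s]
        ring
      rw [Finset.sum_congr rfl fun s _ => h3 s]
      ext l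
      rw [map_sum, Polynomial.coeff_coe, Polynomial.coeff_map]
      simp only [PowerSeries.coeff_C_mul, PowerSeries.coeff_X_pow]
      by_cases hl : l < r
      · rw [Finset.sum_eq_single ⟨l, hl⟩]
        · simp
        · intro s _ hs
          rw [if_neg, mul_zero]
          intro h
          exact hs (Fin.ext h.symm)
        · intro h; exact absurd (Finset.mem_univ _) h
      · rw [Polynomial.coeff_eq_zero_of_natDegree_lt (lt_of_lt_of_le (cb_natDegree β i) (not_lt.1 hl)),
          map_zero]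
        refine Finset.sum_eq_zero fun s _ => ?_
        rw [if_neg, mul_zero]
        intro h
        exact hl (by rw [h]; exact s.2)
    rw [h2, ← hlin, ← hcoe, cb_mul, hcoe, mul_comm]
    congr 1
    rw [Polynomial.map_C, Polynomial.coe_C]
    rfl
  · rw [map_sum]
    have h4 : ∀ s : Fin r, constantCoeff (PowerSeries.C (((cb β i).coeff s : ℤ) : ℚ) * F (Tb β) s) = 0 := by
      intro s
      rw [map_mul, ← PowerSeries.coeff_zero_eq_constantCoeff_apply (F (Tb β) s), F, coeff_mk,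
        if_pos (Nat.zero_le _), mul_zero]
    rw [Finset.sum_congr rfl fun s _ => h4 s, Finset.sum_const_zero,
      ← PowerSeries.coeff_zero_eq_constantCoeff_apply, lgs, coeff_mk]
    simp

theorem cb_det (hinj : Function.Injective β) (hβ : ∀ i, β i ≠ 0) :
    (Matrix.of fun i s : Fin r => (((cb β i).coeff s : ℤ) : ℚ) : Matrix (Fin r) (Fin r) ℚ).det ≠ 0 := by
  intro hdet
  obtain ⟨v, hv0, hv⟩ := Matrix.exists_vecMul_eq_zero_iff.2 hdet
  apply hv0
  set p : Polynomial ℚ := ∑ i, Polynomial.C (v i) * (cb β i).map (Int.castRingHom ℚ) with hp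
  have hp0 : p = 0 := by
    ext l
    rw [hp, Polynomial.finsetSum_coeff, Polynomial.coeff_zero]
    simp only [Polynomial.coeff_C_mul, Polynomial.coeff_map]
    by_cases hl : l < r
    · have := congrFun hv ⟨l, hl⟩
      simpa [Matrix.vecMul, dotProduct] using this
    · refine Finset.sum_eq_zero fun i _ => ?_
      rw [Polynomial.coeff_eq_zero_of_natDegree_lt (lt_of_lt_of_le (cb_natDegree β i) (not_lt.1 hl)),
        map_zero, mul_zero]
  funext k
  have hk : (β k : ℚ) ≠ 0 := by exact_mod_cast hβ k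
  have h1 := congrArg (Polynomial.eval (-1 / (β k : ℚ))) hp0
  rw [hp, Polynomial.eval_finsetSum, Polynomial.eval_zero, Finset.sum_eq_single k] at h1
  · rw [Polynomial.eval_mul, Polynomial.eval_C] at h1
    refine (mul_eq_zero.1 h1).resolve_right ?_
    rw [cb, Polynomial.map_mul, Polynomial.map_prod, Polynomial.eval_mul, Polynomial.eval_prod]
    refine mul_ne_zero ?_ (Finset.prod_ne_zero_iff.2 fun j hj => ?_)
    · simpa using hk
    · simp only [Polynomial.map_add, Polynomial.map_one, Polynomial.map_mul, Polynomial.map_C,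
        Polynomial.map_X, Int.coe_castRingHom, Polynomial.eval_add, Polynomial.eval_one,
        Polynomial.eval_mul, Polynomial.eval_C, Polynomial.eval_X]
      intro h2
      have h3 : (β j : ℚ) = β k := by
        field_simp at h2
        linarith
      exact (Finset.mem_erase.1 hj).1 (hinj (by exact_mod_cast h3))
  · intro i _ hi
    rw [Polynomial.eval_mul, cb, Polynomial.map_mul, Polynomial.map_prod, Polynomial.eval_mul,
      Polynomial.eval_prod, Finset.prod_eq_zero (Finset.mem_erase.2 ⟨Ne.symm hi, Finset.mem_univ k⟩),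
      mul_zero, mul_zero]
    simp only [Polynomial.map_add, Polynomial.map_one, Polynomial.map_mul, Polynomial.map_C,
        Polynomial.map_X, Int.coe_castRingHom, Polynomial.eval_add, Polynomial.eval_one,
        Polynomial.eval_mul, Polynomial.eval_C, Polynomial.eval_X]
    field_simp
    ring
  · intro h; exact absurd (Finset.mem_univ _) h

end Beta

/-- **Lower bounds for polynomials in logarithms near `0`**, uniform in all parameters. -/
theorem log_quant (r Δ : ℕ) : ∃ E : ℕ, ∀ h t : ℕ, (h + 2) ^ E ≤ t → ∀ β : Fin r → ℤ,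
    Function.Injective β → (∀ i, β i ≠ 0 ∧ |β i| ≤ h) → ∀ P : MvPolynomial (Fin r) ℤ, P ≠ 0 →
    P.totalDegree ≤ Δ → ∀ A : ℝ, 1 ≤ A → (∀ s, |((P.coeff s : ℤ) : ℝ)| ≤ A) →
      1 ≤ (A * t) ^ E * |MvPolynomial.aeval (fun i => Real.log (1 + β i / t)) P| := by
  classical
  obtain ⟨E₁, hE₁⟩ := val_quant r Δ
  set K : ℕ := Fintype.card (Mn r Δ) with hK
  obtain ⟨E₀, hE₀⟩ := Pool.Agent.Y419.LB.base_holds r
  refine ⟨(r + 2) * E₁ + (K * (r + 1) ^ Δ + r * Δ) + 2 * E₁ + 1 + (r + 2) * (E₀ + 1),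
    fun h t ht β hinj hβ P hP0 hPd A hA1 hPA => ?_⟩
  set E : ℕ := (r + 2) * E₁ + (K * (r + 1) ^ Δ + r * Δ) + 2 * E₁ + 1 + (r + 2) * (E₀ + 1) with hE
  have htN : ∀ a, a ≤ E → (h + 2) ^ a ≤ t := fun a ha =>
    (Nat.pow_le_pow_right (by omega) ha).trans ht
  have htR : ∀ a, a ≤ E → ((h : ℝ) + 2) ^ a ≤ t := fun a ha => by exact_mod_cast htN a ha
  have ht1 : (1 : ℝ) ≤ t := by simpa using htR 0 (by omega)
  have ht0 : (0 : ℝ) < t := by linarith
  have hH : (h + 1) ^ r + 2 ≤ (h + 2) ^ (r + 2) := by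
    have h1 : (h + 1) ^ r ≤ (h + 2) ^ r := Nat.pow_le_pow_left (by omega) _
    have h2 : 1 ≤ (h + 2) ^ r := Nat.one_le_pow _ _ (by omega)
    have h3 : (h + 2) ^ (r + 2) = (h + 2) ^ r * ((h + 2) * (h + 2)) := by ring
    have h4 : 4 ≤ (h + 2) * (h + 2) := Nat.mul_le_mul (by omega : 2 ≤ h + 2) (by omega : 2 ≤ h + 2)
    have h5 : (h + 2) ^ r * 4 ≤ (h + 2) ^ r * ((h + 2) * (h + 2)) := Nat.mul_le_mul_left _ h4
    omega
  set c : Fin r → Fin r → ℤ := fun i s => (cb β i).coeff s with hc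
  have hQ0 : ls c P ≠ 0 := ls_ne_zero c (cb_det β hinj (fun i => (hβ i).1)) hP0
  have hQd : (ls c P).totalDegree ≤ Δ := ls_totalDegree c P hPd
  have hQA : ∀ s, |(((ls c P).coeff s : ℤ) : ℝ)| ≤ A * t := by
    intro s
    refine (ls_coeff c P hPd (Y := (r + 1) * ((h : ℝ) + 1) ^ r) (zero_le_one.trans hA1) ?_ hPA ?_ s).trans ?_
    · exact one_le_mul_of_one_le_of_one_le (by linarith [show (0 : ℝ) ≤ r from Nat.cast_nonneg r])
        (one_le_pow₀ (by linarith [show (0 : ℝ) ≤ h from Nat.cast_nonneg h]))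
    · intro i
      have h7 : ∀ s : Fin r, |(c i s : ℝ)| ≤ ((h : ℝ) + 1) ^ r := fun s =>
        cb_coeff_le β (fun i => (hβ i).2) i s
      refine (Finset.sum_le_sum fun s _ => h7 s).trans ?_
      rw [Finset.sum_const, Finset.card_univ, Fintype.card_fin, nsmul_eq_mul]
      exact mul_le_mul_of_nonneg_right (by linarith) (by positivity)
    · rw [mul_left_comm]
      refine mul_le_mul_of_nonneg_left ?_ (zero_le_one.trans hA1)
      refine le_trans ?_ (htR (K * (r + 1) ^ Δ + r * Δ) (by omega))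
      rw [mul_pow, ← mul_assoc, ← pow_mul, pow_add]
      refine mul_le_mul ?_ (pow_le_pow_left₀ (by positivity) (by linarith) _) (by positivity)
        (by positivity)
      calc ((K : ℕ) : ℝ) * ((r : ℝ) + 1) ^ Δ = ((K * (r + 1) ^ Δ : ℕ) : ℝ) := by push_cast; ring
        _ ≤ ((2 ^ (K * (r + 1) ^ Δ) : ℕ) : ℝ) := by
            exact_mod_cast (Nat.lt_two_pow_self : K * (r + 1) ^ Δ < 2 ^ (K * (r + 1) ^ Δ)).le
        _ ≤ ((h : ℝ) + 2) ^ (K * (r + 1) ^ Δ) := by
            push_cast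
            exact pow_le_pow_left₀ (by norm_num) (by linarith [show (0 : ℝ) ≤ h from Nat.cast_nonneg h]) _
  have hAt : 1 ≤ A * t := one_le_mul_of_one_le_of_one_le hA1 ht1
  have key := hE₁ ((h + 1) ^ r) t (Tb β) ((Nat.pow_le_pow_left hH E₁).trans (by
      rw [← pow_mul]; exact htN _ (by omega)))
    (Tb_coeff_zero β) (Tb_natDegree β (fun i => (hβ i).1)) (Tb_squarefree β hinj (fun i => (hβ i).1))
    (fun l => Tb_coeff_le β (fun i => (hβ i).2) l) (ls c P) hQ0 hQd (A * t) hAt hQA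
  rw [ls_aeval] at key
  -- evaluation
  have hG := hE₀ ((h + 1) ^ r) (Tb β) (Tb_coeff_zero β) (Tb_natDegree β (fun i => (hβ i).1)).le
    (fun l => Tb_coeff_le β (fun i => (hβ i).2) l)
  have hcv : ∀ s : Fin r, Cv (t : ℝ) (F (Tb β) s) := by
    intro s
    have hb : (((((h + 1) ^ r : ℕ) : ℝ)) + 2) ^ E₀ < t := by
      have h1 : (((((h + 1) ^ r : ℕ) : ℝ)) + 2) ^ (E₀ + 1) ≤ t := by
        refine le_trans ?_ (htR ((r + 2) * (E₀ + 1)) (by omega))
        rw [pow_mul]
        refine pow_le_pow_left₀ (by positivity) ?_ _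
        exact_mod_cast hH
      refine lt_of_lt_of_le ?_ h1
      refine pow_lt_pow_right₀ ?_ (Nat.lt_succ_self _)
      have : (0 : ℝ) ≤ (((h + 1) ^ r : ℕ) : ℝ) := Nat.cast_nonneg _
      linarith
    refine Cv.of_bound ht0 (A := (((((h + 1) ^ r : ℕ) : ℝ)) + 2) ^ E₀)
      (B := (((((h + 1) ^ r : ℕ) : ℝ)) + 2) ^ E₀) (by positivity) hb fun m => ?_
    have := hG.size (some s) m
    rw [pow_succ'] at this
    exact this
  have hval : ∀ i, ∑ s, (c i s : ℝ) * ev t (F (Tb β) s) = Real.log (1 + β i / t) := by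
    intro i
    have hβt : |(β i : ℝ)| < t := by
      have h1 : |(β i : ℝ)| ≤ h := by exact_mod_cast (hβ i).2
      have h2 := htR 1 (by omega)
      rw [pow_one] at h2
      linarith
    rw [← ev_lgs ht0 hβt, lgs_eq β i, Cv.ev_sum ht0 _ _ fun s _ => (Cv.C _).mul ht0 (hcv s)]
    refine Finset.sum_congr rfl fun s _ => ?_
    rw [(Cv.C _).ev_mul ht0 (hcv s), ev_C]
    simp [hc]
  have hval' : (fun i => ∑ s, (c i s : ℝ) * ev t (F (Tb β) s)) = fun i => Real.log (1 + β i / t) :=
    funext hval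
  rw [hval'] at key
  refine key.trans (mul_le_mul_of_nonneg_right ?_ (abs_nonneg _))
  calc (A * t * t) ^ E₁ ≤ ((A * t) ^ 2) ^ E₁ := by
        refine pow_le_pow_left₀ (by positivity) ?_ _
        rw [sq]
        exact mul_le_mul_of_nonneg_left (le_mul_of_one_le_left ht0.le hA1) (by positivity)
    _ = (A * t) ^ (2 * E₁) := by rw [← pow_mul]
    _ ≤ (A * t) ^ E := pow_le_pow_right₀ hAt (by omega)

end Pool.Agent.R351.GF
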