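import Mathlib
import Pool.Agent.R351.GF.Val

/-!
# The residue field of the sequences of polynomial growth modulo the negligible sequences
-/

set_option autoImplicit false

namespace Pool.Agent.R351.GF

open Filter

/-- the scale -/
noncomputable def gr (H : ℕ → ℕ) (j : ℕ) : ℝ := (H j : ℝ) + 2

theorem gr_two (H : ℕ → ℕ) (j : ℕ) : 2 ≤ gr H j := by
  unfold gr
  have : (0 : ℝ) ≤ H j := Nat.cast_nonneg _
  linarith

theorem gr_pos (H : ℕ → ℕ) (j : ℕ) : 0 < gr H j := by linarith [gr_two H j]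

theorem gr_one (H : ℕ → ℕ) (j : ℕ) : 1 ≤ gr H j := by linarith [gr_two H j]

variable (U : Ultrafilter ℕ) (H : ℕ → ℕ)

/-- the sequences of complex numbers of polynomial growth -/
def Os : Subring (ℕ → ℂ) where
  carrier := {z | ∃ C : ℕ, ∀ᶠ j in (U : Filter ℕ), ‖z j‖ ≤ gr H j ^ C}
  mul_mem' := by
    rintro z w ⟨C, hC⟩ ⟨C', hC'⟩
    refine ⟨C + C', ?_⟩
    filter_upwards [hC, hC'] with j h1 h2
    rw [Pi.mul_apply, norm_mul, pow_add]
    exact mul_le_mul h1 h2 (norm_nonneg _) (by have := gr_pos H j; positivity)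
  one_mem' := ⟨0, Eventually.of_forall fun j => by simp⟩
  add_mem' := by
    rintro z w ⟨C, hC⟩ ⟨C', hC'⟩
    refine ⟨C + C' + 1, ?_⟩
    filter_upwards [hC, hC'] with j h1 h2
    rw [Pi.add_apply]
    have h3 := gr_one H j
    have h4 : gr H j ^ C ≤ gr H j ^ (C + C') := pow_le_pow_right₀ h3 (by omega)
    have h5 : gr H j ^ C' ≤ gr H j ^ (C + C') := pow_le_pow_right₀ h3 (by omega)
    have h6 : 0 < gr H j ^ (C + C') := by have := gr_pos H j; positivity
    calc ‖z j + w j‖ ≤ ‖z j‖ + ‖w j‖ := norm_add_le _ _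
      _ ≤ gr H j ^ (C + C') + gr H j ^ (C + C') := add_le_add (h1.trans h4) (h2.trans h5)
      _ = gr H j ^ (C + C') * 2 := by ring
      _ ≤ gr H j ^ (C + C') * gr H j := mul_le_mul_of_nonneg_left (gr_two H j) h6.le
      _ = gr H j ^ (C + C' + 1) := (pow_succ _ _).symm
  zero_mem' := ⟨0, Eventually.of_forall fun j => by simp⟩
  neg_mem' := by
    rintro z ⟨C, hC⟩
    refine ⟨C, ?_⟩
    filter_upwards [hC] with j h1
    rw [Pi.neg_apply, norm_neg]
    exact h1

theorem mem_Os {z : ℕ → ℂ} : z ∈ Os U H ↔ ∃ C : ℕ, ∀ᶠ j in (U : Filter ℕ), ‖z j‖ ≤ gr H j ^ C :=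
  Iff.rfl

/-- the negligible sequences -/
def ms : Ideal (Os U H) where
  carrier := {z | ∀ C : ℕ, ∀ᶠ j in (U : Filter ℕ), ‖(z : ℕ → ℂ) j‖ * gr H j ^ C ≤ 1}
  add_mem' := by
    intro z w hz hw C
    filter_upwards [hz (C + 1), hw (C + 1)] with j h1 h2
    have h3 := gr_two H j
    have h4 : 0 < gr H j ^ C := by have := gr_pos H j; positivity
    have h5 : ‖(z : ℕ → ℂ) j‖ * gr H j ^ C * 2 ≤ 1 := by
      refine le_trans ?_ h1
      rw [pow_succ, ← mul_assoc]
      exact mul_le_mul_of_nonneg_left h3 (by positivity)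
    have h6 : ‖(w : ℕ → ℂ) j‖ * gr H j ^ C * 2 ≤ 1 := by
      refine le_trans ?_ h2
      rw [pow_succ, ← mul_assoc]
      exact mul_le_mul_of_nonneg_left h3 (by positivity)
    have h7 : ‖((z + w : Os U H) : ℕ → ℂ) j‖ ≤ ‖(z : ℕ → ℂ) j‖ + ‖(w : ℕ → ℂ) j‖ := norm_add_le _ _
    nlinarith
  zero_mem' := fun C => Eventually.of_forall fun j => by simp
  smul_mem' := by
    intro z w hw C
    obtain ⟨C', hC'⟩ := z.2
    filter_upwards [hC', hw (C' + C)] with j h1 h2
    have h4 : 0 < gr H j ^ C := by have := gr_pos H j; positivity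
    rw [smul_eq_mul]
    calc ‖((z * w : Os U H) : ℕ → ℂ) j‖ * gr H j ^ C
        = ‖(z : ℕ → ℂ) j‖ * (‖(w : ℕ → ℂ) j‖ * gr H j ^ C) := by
          rw [Subring.coe_mul, Pi.mul_apply, norm_mul, mul_assoc]
      _ ≤ gr H j ^ C' * (‖(w : ℕ → ℂ) j‖ * gr H j ^ C) :=
          mul_le_mul_of_nonneg_right h1 (by positivity)
      _ = ‖(w : ℕ → ℂ) j‖ * gr H j ^ (C' + C) := by rw [pow_add]; ring
      _ ≤ 1 := h2

theorem mem_ms {z : Os U H} : z ∈ ms U H ↔
    ∀ C : ℕ, ∀ᶠ j in (U : Filter ℕ), ‖(z : ℕ → ℂ) j‖ * gr H j ^ C ≤ 1 := Iff.rfl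

instance ms_max : (ms U H).IsMaximal := by
  rw [Ideal.isMaximal_iff]
  constructor
  · intro h
    have h1 := h 1
    obtain ⟨j, hj⟩ := h1.exists
    have h2 := gr_two H j
    rw [pow_one] at hj
    simp only [Subring.coe_one, Pi.one_apply, norm_one, one_mul] at hj
    linarith
  · intro J x hJ hx hxJ
    rw [mem_ms] at hx
    push Not at hx
    obtain ⟨C, hC⟩ := hx
    have h1 : ∀ᶠ j in (U : Filter ℕ), 1 < ‖(x : ℕ → ℂ) j‖ * gr H j ^ C := by
      filter_upwards [hC] with j hj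
      exact hj
    let y : Os U H := ⟨fun j => ((x : ℕ → ℂ) j)⁻¹, ⟨C, by
      filter_upwards [h1] with j hj
      rw [norm_inv]
      have h3 : 0 < ‖(x : ℕ → ℂ) j‖ := by
        rcases (norm_nonneg ((x : ℕ → ℂ) j)).eq_or_lt with h | h
        · rw [← h, zero_mul] at hj; linarith
        · exact h
      rw [inv_le_iff_one_le_mul₀ h3, mul_comm]
      exact hj.le⟩⟩
    have h2 : x * y - 1 ∈ ms U H := by
      intro C'
      filter_upwards [h1] with j hj
      have h3 : (x : ℕ → ℂ) j ≠ 0 := by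
        intro h
        rw [h, norm_zero, zero_mul] at hj
        linarith
      have h4 : ((x * y - 1 : Os U H) : ℕ → ℂ) j = 0 := by
        show (x : ℕ → ℂ) j * ((x : ℕ → ℂ) j)⁻¹ - 1 = 0
        rw [mul_inv_cancel₀ h3, sub_self]
      rw [h4, norm_zero, zero_mul]
      exact zero_le_one
    have h3 : (1 : Os U H) = x * y - (x * y - 1) := by ring
    rw [h3]
    exact J.sub_mem (J.mul_mem_right _ hxJ) (hJ h2)

/-- the residue field -/
abbrev Fl : Type := Os U H ⧸ ms U H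

noncomputable instance : Field (Fl U H) := Ideal.Quotient.field (ms U H)

/-! ### Integers -/

/-- the integer sequences of polynomial growth -/
def IZ : Subring (ℕ → ℤ) := (Os U H).comap ((Int.castRingHom ℂ).compLeft ℕ)

theorem mem_IZ {n : ℕ → ℤ} : n ∈ IZ U H ↔
    ∃ C : ℕ, ∀ᶠ j in (U : Filter ℕ), |(n j : ℝ)| ≤ gr H j ^ C := by
  show (∃ C : ℕ, ∀ᶠ j in (U : Filter ℕ), ‖((n j : ℤ) : ℂ)‖ ≤ gr H j ^ C) ↔ _
  simp only [Complex.norm_intCast]

/-- the inclusion -/
noncomputable def izo : IZ U H →+* Os U H :=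
  (((Int.castRingHom ℂ).compLeft ℕ).comp (IZ U H).subtype).codRestrict (Os U H) (fun n => n.2)

theorem izo_apply (n : IZ U H) (j : ℕ) : (izo U H n : ℕ → ℂ) j = ((n : ℕ → ℤ) j : ℂ) := rfl

/-- the class of an integer sequence -/
noncomputable def psi : IZ U H →+* Fl U H := (Ideal.Quotient.mk (ms U H)).comp (izo U H)

theorem psi_eq_zero {n : IZ U H} : psi U H n = 0 ↔ ∀ᶠ j in (U : Filter ℕ), (n : ℕ → ℤ) j = 0 := by
  rw [psi, RingHom.comp_apply, Ideal.Quotient.eq_zero_iff_mem, mem_ms]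
  constructor
  · intro h
    filter_upwards [h 1] with j hj
    rw [izo_apply, Complex.norm_intCast, pow_one] at hj
    by_contra h0
    have h1 : (1 : ℝ) ≤ |(((n : ℕ → ℤ) j : ℤ) : ℝ)| := by exact_mod_cast Int.one_le_abs h0
    have h2 := gr_two H j
    nlinarith
  · intro h C
    filter_upwards [h] with j hj
    rw [izo_apply, hj]
    simp

/-- the classes of the integer sequences -/
noncomputable def Zs : Subring (Fl U H) := (psi U H).range

/-- the class map onto its image -/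
noncomputable def psr : IZ U H →+* Zs U H := (psi U H).rangeRestrict

/-- evaluation at `j` -/
def evj (j : ℕ) : IZ U H →+* ℤ := (Pi.evalRingHom (fun _ : ℕ => ℤ) j).comp (IZ U H).subtype

theorem evj_apply (j : ℕ) (n : IZ U H) : evj U H j n = (n : ℕ → ℤ) j := rfl

section Poly

variable {σ : Type}

/-- the value of a polynomial at a tuple of sequences -/
noncomputable def vs (x : σ → Os U H) (P : MvPolynomial σ (IZ U H)) : Os U H :=
  MvPolynomial.eval₂ (izo U H) x P

theorem vs_apply (x : σ → Os U H) (P : MvPolynomial σ (IZ U H)) (j : ℕ) :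
    (vs U H x P : ℕ → ℂ) j =
      MvPolynomial.aeval (fun i => (x i : ℕ → ℂ) j) (MvPolynomial.map (evj U H j) P) := by
  have h1 : (((Pi.evalRingHom (fun _ : ℕ => ℂ) j).comp (Os U H).subtype).comp
      (MvPolynomial.eval₂Hom (izo U H) x)) =
      ((MvPolynomial.aeval (fun i => (x i : ℕ → ℂ) j) : MvPolynomial σ ℤ →ₐ[ℤ] ℂ).toRingHom.comp
        (MvPolynomial.map (evj U H j))) := by
    apply MvPolynomial.ringHom_ext
    · intro n
      simp [izo_apply, evj_apply]
    · intro i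
      simp
  exact DFunLike.congr_fun h1 P

theorem mk_vs (x : σ → Os U H) (P : MvPolynomial σ (IZ U H)) :
    Ideal.Quotient.mk (ms U H) (vs U H x P) =
      MvPolynomial.aeval (fun i => Ideal.Quotient.mk (ms U H) (x i))
        (MvPolynomial.map (psr U H) P) := by
  have h1 : (Ideal.Quotient.mk (ms U H)).comp (MvPolynomial.eval₂Hom (izo U H) x) =
      ((MvPolynomial.aeval (fun i => Ideal.Quotient.mk (ms U H) (x i)) :
        MvPolynomial σ (Zs U H) →ₐ[Zs U H] Fl U H).toRingHom.comp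
        (MvPolynomial.map (psr U H))) := by
    apply MvPolynomial.ringHom_ext
    · intro n
      simp only [RingHom.comp_apply, MvPolynomial.coe_eval₂Hom, MvPolynomial.eval₂_C,
        MvPolynomial.map_C, AlgHom.toRingHom_eq_coe, RingHom.coe_coe, MvPolynomial.aeval_C]
      rfl
    · intro i
      simp
  exact DFunLike.congr_fun h1 P

theorem map_ne_zero {P : MvPolynomial σ (IZ U H)} (hP : MvPolynomial.map (psr U H) P ≠ 0) :
    ∀ᶠ j in (U : Filter ℕ), MvPolynomial.map (evj U H j) P ≠ 0 := by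
  obtain ⟨s, hs⟩ := MvPolynomial.ne_zero_iff.1 hP
  rw [MvPolynomial.coeff_map] at hs
  have h1 : psi U H (P.coeff s) ≠ 0 := by
    intro h
    apply hs
    exact Subtype.ext h
  rw [Ne, psi_eq_zero] at h1
  have h2 := Ultrafilter.eventually_not.2 h1
  filter_upwards [h2] with j hj h3
  apply hj
  have h4 := congrArg (MvPolynomial.coeff s) h3
  rw [MvPolynomial.coeff_map, MvPolynomial.coeff_zero, evj_apply] at h4
  exact h4

theorem coeff_bound (P : MvPolynomial σ (IZ U H)) : ∃ C : ℕ, ∀ᶠ j in (U : Filter ℕ),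
    ∀ s, |(((MvPolynomial.map (evj U H j) P).coeff s : ℤ) : ℝ)| ≤ gr H j ^ C := by
  classical
  have h1 : ∀ s, ∃ C : ℕ, ∀ᶠ j in (U : Filter ℕ),
      |((((P.coeff s : IZ U H) : ℕ → ℤ) j : ℤ) : ℝ)| ≤ gr H j ^ C := fun s =>
    (mem_IZ U H).1 (P.coeff s).2
  choose C hC using h1
  refine ⟨∑ s ∈ P.support, C s, ?_⟩
  have h2 : ∀ᶠ j in (U : Filter ℕ), ∀ s ∈ P.support,
      |((((P.coeff s : IZ U H) : ℕ → ℤ) j : ℤ) : ℝ)| ≤ gr H j ^ C s := by
    rw [Filter.eventually_all_finset]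
    exact fun s _ => hC s
  filter_upwards [h2] with j hj s
  rw [MvPolynomial.coeff_map, evj_apply]
  by_cases hs : s ∈ P.support
  · refine (hj s hs).trans (pow_le_pow_right₀ (gr_one H j) ?_)
    exact Finset.single_le_sum (f := C) (fun _ _ => Nat.zero_le _) hs
  · rw [MvPolynomial.notMem_support_iff.1 hs]
    have := gr_pos H j
    simp
    positivity

theorem totalDegree_map_evj (P : MvPolynomial σ (IZ U H)) (j : ℕ) :
    (MvPolynomial.map (evj U H j) P).totalDegree ≤ P.totalDegree := by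
  classical
  exact Finset.sup_mono (MvPolynomial.support_map_subset _ _)

/-- **Algebraic independence** of classes of sequences. -/
theorem indep_of_quant (x : σ → Os U H)
    (h : ∀ Δ : ℕ, ∃ E : ℕ, ∀ᶠ j in (U : Filter ℕ), ∀ P : MvPolynomial σ ℤ, P ≠ 0 →
      P.totalDegree ≤ Δ → ∀ A : ℝ, 1 ≤ A → (∀ s, |((P.coeff s : ℤ) : ℝ)| ≤ A) →
      1 ≤ (A * gr H j) ^ E * ‖MvPolynomial.aeval (fun i => (x i : ℕ → ℂ) j) P‖) :
    AlgebraicIndependent (Zs U H) (fun i => (Ideal.Quotient.mk (ms U H) (x i) : Fl U H)) := by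
  rw [algebraicIndependent_iff]
  intro P hP0
  by_contra hP
  obtain ⟨Q, rfl⟩ := MvPolynomial.map_surjective (psr U H) (psi U H).rangeRestrict_surjective P
  rw [← mk_vs, Ideal.Quotient.eq_zero_iff_mem, mem_ms] at hP0
  obtain ⟨E, hE⟩ := h Q.totalDegree
  obtain ⟨C, hC⟩ := coeff_bound U H Q
  obtain ⟨j, hj1, hj2, hj3, hj4⟩ :=
    (((map_ne_zero U H hP).and hE).and (hC.and (hP0 ((C + 1) * E + 1)))).exists.imp
      (fun j hj => And.intro hj.1.1 (And.intro hj.1.2 hj.2))
  have h1 := gr_two H j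
  have h2 := hj2 _ hj1 (totalDegree_map_evj U H Q j) (gr H j ^ C) (one_le_pow₀ (gr_one H j)) hj3
  rw [← vs_apply] at h2
  rw [pow_succ, ← mul_assoc] at hj4
  have h3 : (gr H j ^ C * gr H j) ^ E = gr H j ^ ((C + 1) * E) := by
    rw [← pow_succ, ← pow_mul]
  rw [h3, mul_comm] at h2
  nlinarith

end Poly

end Pool.Agent.R351.GF
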