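import Mathlib

/-!
# Algebraic closure in a field, with respect to a subring
-/

set_option autoImplicit false

namespace Pool.Agent.R351.GF

open Algebra

section Trd

variable {F : Type} [Field F] (R : Subring F)

/-- the elements which are algebraic over `R[S]` -/
def acl (S : Set F) : Set F := (AlgebraicIndependent.matroid R F).closure S

variable {R} {S T : Set F} {y z : F}

theorem mem_acl : y ∈ acl R S ↔ IsAlgebraic (adjoin R S) y := by
  rw [acl, AlgebraicIndependent.matroid_closure_eq]
  exact Iff.rfl

theorem subset_acl : S ⊆ acl R S :=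
  (AlgebraicIndependent.matroid R F).subset_closure S (Set.subset_univ _)

theorem acl_of (h : T ⊆ acl R S) : acl R T ⊆ acl R S :=
  Matroid.closure_subset_closure_of_subset_closure h

theorem acl_mono (h : T ⊆ S) : acl R T ⊆ acl R S := acl_of (h.trans subset_acl)

theorem acl_add (hy : y ∈ acl R S) (hz : z ∈ acl R S) : y + z ∈ acl R S := by
  rw [mem_acl] at *
  exact hy.add hz

theorem acl_sub (hy : y ∈ acl R S) (hz : z ∈ acl R S) : y - z ∈ acl R S := by
  rw [mem_acl] at *
  exact hy.sub hz

theorem acl_mul (hy : y ∈ acl R S) (hz : z ∈ acl R S) : y * z ∈ acl R S := by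
  rw [mem_acl] at *
  exact hy.mul hz

theorem acl_R (hy : y ∈ R) : y ∈ acl R S := by
  rw [mem_acl]
  have h1 : y ∈ adjoin R S := (adjoin R S).algebraMap_mem ⟨y, hy⟩
  exact isAlgebraic_algebraMap (⟨y, h1⟩ : adjoin R S)

theorem exists_notMem_acl {r : ℕ} {x : Fin r → F} (hx : AlgebraicIndependent R x)
    (hS : S.encard < r) : ∃ i, x i ∉ acl R S := by
  by_contra hcon
  push Not at hcon
  have h1 : (AlgebraicIndependent.matroid R F).Indep (Set.range x) := by
    rw [AlgebraicIndependent.matroid_indep_iff]
    exact AlgebraicIndependent.to_subtype_range hx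
  have h2 : Set.range x ⊆ (AlgebraicIndependent.matroid R F).closure S := by
    rintro _ ⟨i, rfl⟩
    exact hcon i
  have h3 := h1.encard_le_eRk_of_subset h2
  rw [Matroid.eRk_closure_eq] at h3
  have h4 := h3.trans (Matroid.eRk_le_encard _ _)
  have h5 : (Set.range x).encard = r := by
    rw [← Set.image_univ, hx.injective.injOn.encard_image, Set.encard_univ]
    simp
  rw [h5] at h4
  exact absurd hS (not_lt.2 h4)

theorem indep_of_chain {k : ℕ} : ∀ {z : Fin k → F}, (∀ i, z i ∉ acl R (z '' {i' | i' < i})) →
    AlgebraicIndependent R z := by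
  induction k with
  | zero =>
    intro z _
    exact algebraicIndependent_empty_type_iff.2 (FaithfulSMul.algebraMap_injective R F)
  | succ k ih =>
    intro z hz
    have h1 : AlgebraicIndependent R (fun i : Fin k => z i.castSucc) := by
      apply ih
      intro i hi
      refine hz i.castSucc (acl_mono ?_ hi)
      rintro _ ⟨i', hi', rfl⟩
      exact ⟨i'.castSucc, Fin.castSucc_lt_castSucc_iff.2 hi', rfl⟩
    have h2 : Transcendental (adjoin R (Set.range fun i : Fin k => z i.castSucc)) (z (Fin.last k)) := by
      intro h3
      apply hz (Fin.last k)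
      rw [mem_acl]
      have h4 : z '' {i' | i' < Fin.last k} = Set.range fun i : Fin k => z i.castSucc := by
        ext y
        constructor
        · rintro ⟨i', hi', rfl⟩
          have h5 : i' ≠ Fin.last k := ne_of_lt hi'
          exact ⟨i'.castPred h5, by simp⟩
        · rintro ⟨i, rfl⟩
          exact ⟨i.castSucc, Fin.castSucc_lt_last i, rfl⟩
      rw [h4]
      exact h3
    have h3 := (h1.option_iff_transcendental (z (Fin.last k))).2 h2
    have h4 := (algebraicIndependent_equiv (R := R) finSuccEquivLast (f := fun o : Option (Fin k) =>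
      o.elim (z (Fin.last k)) (fun i : Fin k => z i.castSucc))).2 h3
    have h5 : ((fun o : Option (Fin k) => o.elim (z (Fin.last k)) (fun i : Fin k => z i.castSucc)) ∘
        (finSuccEquivLast : Fin (k + 1) ≃ Option (Fin k))) = z := by
      funext i
      refine Fin.lastCases ?_ (fun i => ?_) i
      · simp
      · simp
    rw [h5] at h4
    exact h4

end Trd

end Pool.Agent.R351.GF
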