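import Mathlib
import Pool.Agent.R351.GF.Res
import Pool.Agent.R351.GF.Trd
import Pool.Agent.R351.GF.LogQ

/-!
# Windows: a sequence of elements of large sets whose logarithms are transcendental
-/

set_option autoImplicit false

namespace Pool.Agent.R351.GF

open Filter Finset

section Lo

variable (U : Ultrafilter ℕ) (H : ℕ → ℕ)

/-- the logarithms of a sequence of integers -/
noncomputable def lo (a : ℕ → ℕ) : Os U H :=
  ⟨fun j => if a j ≤ H j then (Real.log (a j) : ℂ) else 0, 1, Eventually.of_forall fun j => by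
    dsimp only
    rw [pow_one]
    have h0 : (0 : ℝ) ≤ H j := Nat.cast_nonneg _
    split_ifs with h
    · rw [Complex.norm_real, Real.norm_eq_abs]
      rcases Nat.eq_zero_or_pos (a j) with h1 | h1
      · rw [h1]
        simp only [Nat.cast_zero, Real.log_zero, abs_zero]
        unfold gr; linarith
      · have h2 : (0 : ℝ) < a j := by exact_mod_cast h1
        have h3 : (1 : ℝ) ≤ a j := by exact_mod_cast h1
        have h4 : (a j : ℝ) ≤ H j := by exact_mod_cast h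
        rw [abs_of_nonneg (Real.log_nonneg h3)]
        have h5 := Real.log_le_sub_one_of_pos h2
        unfold gr; linarith
    · rw [norm_zero]
      unfold gr; linarith⟩

theorem lo_apply {a : ℕ → ℕ} {j : ℕ} (h : a j ≤ H j) : (lo U H a : ℕ → ℂ) j = (Real.log (a j) : ℂ) :=
  if_pos h

/-- the class of the sequence of the logarithms -/
noncomputable def lc (a : ℕ → ℕ) : Fl U H := Ideal.Quotient.mk (ms U H) (lo U H a)

theorem win_indep {r : ℕ} (a : Fin r → ℕ → ℕ) (N h : ℕ → ℕ) (β : ℕ → Fin r → ℕ)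
    (hN : ∀ᶠ j in (U : Filter ℕ), N j ≤ H j)
    (hinj : ∀ᶠ j in (U : Filter ℕ), Function.Injective (β j))
    (hβ : ∀ᶠ j in (U : Filter ℕ), ∀ i, 0 < β j i ∧ β j i ≤ h j)
    (ha : ∀ᶠ j in (U : Filter ℕ), ∀ i, a i j = N j + β j i ∧ a i j ≤ H j)
    (hE : ∀ E : ℕ, ∀ᶠ j in (U : Filter ℕ), (h j + 2) ^ E ≤ N j) :
    AlgebraicIndependent (Zs U H) (fun i => lc U H (a i) - lc U H N) := by
  have h1 : (fun i => lc U H (a i) - lc U H N) =
      fun i => (Ideal.Quotient.mk (ms U H) (lo U H (a i) - lo U H N) : Fl U H) := by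
    funext i
    rw [map_sub]
    rfl
  rw [h1]
  apply indep_of_quant
  intro Δ
  obtain ⟨E, hEE⟩ := log_quant r Δ
  refine ⟨E, ?_⟩
  filter_upwards [hN, hinj, hβ, ha, hE E, hE 1] with j hN hinj hβ ha hE hE1 P hP0 hPd A hA1 hPA
  have hN0 : 0 < N j := by
    rw [pow_one] at hE1
    omega
  have hNr : (0 : ℝ) < N j := by exact_mod_cast hN0
  have h2 := hEE (h j) (N j) hE (fun i => (β j i : ℤ)) (fun i i' h => hinj (by
      have h' : ((β j i : ℕ) : ℤ) = ((β j i' : ℕ) : ℤ) := h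
      exact_mod_cast h'))
    (fun i => ⟨by have := (hβ i).1; omega, by
      have := (hβ i).2
      rw [Nat.abs_cast]
      exact_mod_cast this⟩) P hP0 hPd A hA1 hPA
  have h3 : (fun i => ((lo U H (a i) - lo U H N : Os U H) : ℕ → ℂ) j) =
      fun i => algebraMap ℝ ℂ (Real.log (1 + ((β j i : ℕ) : ℤ) / (N j : ℝ))) := by
    funext i
    show (lo U H (a i) : ℕ → ℂ) j - (lo U H N : ℕ → ℂ) j = _
    rw [lo_apply U H (ha i).2, lo_apply U H hN, (ha i).1]
    have h4 : (0 : ℝ) < ((N j + β j i : ℕ) : ℝ) := by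
      have : 0 < N j + β j i := by omega
      exact_mod_cast this
    rw [← Complex.ofReal_sub, ← Real.log_div h4.ne' hNr.ne']
    show ((_ : ℝ) : ℂ) = ((_ : ℝ) : ℂ)
    congr 2
    push_cast
    field_simp
  have h6 : MvPolynomial.aeval (fun i => algebraMap ℝ ℂ (Real.log (1 + ((β j i : ℕ) : ℤ) / (N j : ℝ)))) P =
      algebraMap ℝ ℂ (MvPolynomial.aeval
        (fun i => Real.log (1 + ((β j i : ℕ) : ℤ) / (N j : ℝ))) P) :=
    MvPolynomial.aeval_algebraMap_apply ℂ _ P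
  rw [h3, h6]
  have h5 : ‖algebraMap ℝ ℂ (MvPolynomial.aeval
      (fun i => Real.log (1 + ((β j i : ℕ) : ℤ) / (N j : ℝ))) P)‖ =
      |MvPolynomial.aeval (fun i => Real.log (1 + ((β j i : ℕ) : ℤ) / (N j : ℝ))) P| := by
    rw [← Real.norm_eq_abs]
    exact Complex.norm_real _
  rw [h5]
  refine h2.trans (mul_le_mul_of_nonneg_right ?_ (abs_nonneg _))
  refine pow_le_pow_left₀ (by positivity) ?_ _
  refine mul_le_mul_of_nonneg_left ?_ (zero_le_one.trans hA1)
  unfold gr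
  have : (N j : ℝ) ≤ H j := by exact_mod_cast hN
  linarith

end Lo

/-- Many elements in a short interval. -/
theorem pigeon (r T w s : ℕ) (hw : 0 < w) (A : Finset ℕ) (hA : A ⊆ Ioc 0 T)
    (hcard : s + (T / w + 1) * r < A.card) :
    ∃ N ∈ A, s < N ∧ ∃ β : Fin r → ℕ, Function.Injective β ∧
      ∀ i, 0 < β i ∧ β i ≤ w ∧ N + β i ∈ A := by
  classical
  set A' := A.filter (fun a => s < a) with hA'
  have h1 : A.card ≤ s + A'.card := by
    have h2 : A'.card + (A.filter (fun a => ¬ s < a)).card = A.card :=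
      Finset.card_filter_add_card_filter_not _
    have h3 : (A.filter (fun a => ¬ s < a)).card ≤ s := by
      have h4 : A.filter (fun a => ¬ s < a) ⊆ Ioc 0 s := by
        intro a ha
        rw [Finset.mem_filter] at ha
        have := Finset.mem_Ioc.1 (hA ha.1)
        rw [Finset.mem_Ioc]
        omega
      have := Finset.card_le_card h4
      simpa using this
    omega
  obtain ⟨y, _, hy⟩ := Finset.exists_lt_card_fiber_of_mul_lt_card_of_maps_to
    (s := A') (t := range (T / w + 1)) (f := fun a => a / w) (n := r)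
    (fun a ha => by
      rw [Finset.mem_range]
      have h2 := (Finset.mem_Ioc.1 (hA (Finset.mem_filter.1 ha).1)).2
      exact Nat.lt_succ_of_le (Nat.div_le_div_right h2))
    (by rw [Finset.card_range]; omega)
  set Φ := A'.filter (fun a => a / w = y) with hΦ
  have hne : Φ.Nonempty := Finset.card_pos.1 (by omega)
  obtain ⟨N, hNΦ, hNmin⟩ : ∃ N ∈ Φ, ∀ a ∈ Φ, N ≤ a :=
    ⟨Φ.min' hne, Finset.min'_mem _ _, fun a ha => Finset.min'_le _ _ ha⟩
  have hcard2 : r ≤ (Φ.erase N).card := by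
    rw [Finset.card_erase_of_mem hNΦ]
    omega
  obtain ⟨Φ', hΦ', hΦc⟩ := Finset.exists_subset_card_eq hcard2
  obtain ⟨e, hinj, he⟩ : ∃ e : Fin r → ℕ, Function.Injective e ∧ ∀ i, e i ∈ Φ.erase N :=
    ⟨fun i => Φ'.orderEmbOfFin hΦc i, (Φ'.orderEmbOfFin hΦc).injective,
      fun i => hΦ' (Finset.orderEmbOfFin_mem _ _ i)⟩
  have hlt : ∀ i, N < e i := fun i => by
    have h2 := Finset.mem_erase.1 (he i)
    exact lt_of_le_of_ne (hNmin _ h2.2) (Ne.symm h2.1)
  have hA2 : ∀ a ∈ Φ, a ∈ A ∧ s < a ∧ a / w = y := by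
    intro a ha
    rw [hΦ, Finset.mem_filter, hA', Finset.mem_filter] at ha
    exact ⟨ha.1.1, ha.1.2, ha.2⟩
  refine ⟨N, (hA2 N hNΦ).1, (hA2 N hNΦ).2.1, fun i => e i - N, ?_, fun i => ⟨?_, ?_, ?_⟩⟩
  · intro i i' h
    have h2 := hlt i
    have h3 := hlt i'
    have h4 : e i - N = e i' - N := h
    exact hinj (by omega)
  · have := hlt i
    show 0 < e i - N
    omega
  · show e i - N ≤ w
    have h2 := (hA2 _ (Finset.mem_erase.1 (he i)).2).2.2
    have h3 := (hA2 N hNΦ).2.2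
    have h4 := Nat.div_add_mod (e i) w
    have h5 := Nat.div_add_mod N w
    have h6 := Nat.mod_lt (e i) hw
    rw [h2] at h4
    rw [h3] at h5
    omega
  · have h2 := (hA2 _ (Finset.mem_erase.1 (he i)).2).1
    have h3 : N + (e i - N) = e i := by have := hlt i; omega
    show N + (e i - N) ∈ A
    rw [h3]
    exact h2

section Asymp

theorem large_arith (r : ℕ) {t A : ℝ} (ht : 256 ≤ t) (htr : ((r : ℝ) + 1) ^ 2 ≤ t)
    (hA : t ^ ((1 : ℝ) - 1 / 4) < A) : 4 * Real.sqrt t < A ∧ 4 * (r : ℝ) < A := by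
  have ht0 : 0 < t := by linarith
  have h1 : 4 * Real.sqrt t ≤ t ^ ((1 : ℝ) - 1 / 4) := by
    have h2 : t ^ ((1 : ℝ) - 1 / 4) = t ^ (1 / 4 : ℝ) * Real.sqrt t := by
      rw [Real.sqrt_eq_rpow, ← Real.rpow_add ht0]
      norm_num
    rw [h2]
    refine mul_le_mul_of_nonneg_right ?_ (Real.sqrt_nonneg _)
    calc (4 : ℝ) = (256 : ℝ) ^ (1 / 4 : ℝ) := by
          rw [show (256 : ℝ) = 4 ^ (4 : ℕ) by norm_num, ← Real.rpow_natCast, ← Real.rpow_mul (by norm_num)]
          norm_num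
      _ ≤ t ^ (1 / 4 : ℝ) := Real.rpow_le_rpow (by norm_num) ht (by norm_num)
  refine ⟨lt_of_le_of_lt h1 hA, lt_of_le_of_lt (le_trans ?_ h1) hA⟩
  have h3 : (r : ℝ) ≤ Real.sqrt t := by
    apply Real.le_sqrt_of_sq_le
    refine le_trans ?_ htr
    exact pow_le_pow_left₀ (Nat.cast_nonneg _) (by linarith) _
  linarith

theorem window_arith (r E : ℕ) {t A w : ℝ} (ht : 1 ≤ t) (htr : (4 * (r : ℝ) + 7) ^ (4 * E) ≤ t)
    (hA : t ^ ((1 : ℝ) - 1 / (4 * ((E : ℝ) + 1))) < A) (hw : w ≤ 4 * ((r : ℝ) + 1) * (t / A) + 1)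
    (hw0 : 0 ≤ w) : (w + 2) ^ E ≤ Real.sqrt t := by
  have ht0 : 0 < t := by linarith
  set c : ℝ := 1 / (4 * ((E : ℝ) + 1)) with hc
  have hc0 : 0 ≤ c := by positivity
  have hA0 : 0 < A := lt_trans (Real.rpow_pos_of_pos ht0 _) hA
  have h1 : t / A ≤ t ^ c := by
    rw [div_le_iff₀ hA0]
    calc t = t ^ c * t ^ (1 - c) := by rw [← Real.rpow_add ht0]; simp
      _ ≤ t ^ c * A := mul_le_mul_of_nonneg_left hA.le (Real.rpow_nonneg ht0.le _)
  have h2 : 1 ≤ t ^ c := Real.one_le_rpow ht hc0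
  have h3 : w + 2 ≤ (4 * (r : ℝ) + 7) * t ^ c := by
    have h4 : 4 * ((r : ℝ) + 1) * (t / A) ≤ 4 * ((r : ℝ) + 1) * t ^ c :=
      mul_le_mul_of_nonneg_left h1 (by positivity)
    nlinarith
  have h5 : (4 * (r : ℝ) + 7) ^ E ≤ t ^ (1 / 4 : ℝ) := by
    have h6 : (4 * (r : ℝ) + 7) ^ E = ((4 * (r : ℝ) + 7) ^ (4 * E)) ^ (1 / 4 : ℝ) := by
      rw [← Real.rpow_natCast _ (4 * E), ← Real.rpow_mul (by positivity), ← Real.rpow_natCast]
      congr 1
      push_cast
      ring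
    rw [h6]
    exact Real.rpow_le_rpow (by positivity) htr (by norm_num)
  have h7 : (t ^ c) ^ E ≤ t ^ (1 / 4 : ℝ) := by
    rw [← Real.rpow_natCast, ← Real.rpow_mul ht0.le]
    apply Real.rpow_le_rpow_of_exponent_le ht
    rw [hc, div_mul_eq_mul_div, one_mul, div_le_div_iff₀ (by positivity) (by norm_num)]
    linarith
  calc (w + 2) ^ E ≤ ((4 * (r : ℝ) + 7) * t ^ c) ^ E := pow_le_pow_left₀ (by positivity) h3 _
    _ = (4 * (r : ℝ) + 7) ^ E * (t ^ c) ^ E := mul_pow _ _ _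
    _ ≤ t ^ (1 / 4 : ℝ) * t ^ (1 / 4 : ℝ) := mul_le_mul h5 h7 (by positivity) (by positivity)
    _ = Real.sqrt t := by
        rw [Real.sqrt_eq_rpow, ← Real.rpow_add ht0]
        norm_num

end Asymp

section Choice

variable (U : Ultrafilter ℕ) (H T : ℕ → ℕ)

/-- **Transcendental logarithms in large sets.** -/
theorem exists_transc (hT : Tendsto T U atTop) (hTH : ∀ᶠ j in (U : Filter ℕ), T j ≤ H j)
    (A : ℕ → Finset ℕ) (hA : ∀ j, A j ⊆ Ioc 0 (T j))
    (hL : ∀ c : ℝ, 0 < c → ∀ᶠ j in (U : Filter ℕ), (T j : ℝ) ^ (1 - c) < (A j).card)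
    (S : Set (Fl U H)) (hS : S.Finite) :
    ∃ a : ℕ → ℕ, (∀ᶠ j in (U : Filter ℕ), a j ∈ A j) ∧ lc U H a ∉ acl (Zs U H) S := by
  classical
  set r := S.ncard + 2 with hr
  set w : ℕ → ℕ := fun j => ⌊4 * ((r : ℝ) + 1) * ((T j : ℝ) / (A j).card)⌋₊ + 1 with hw
  have hTr : Tendsto (fun j => (T j : ℝ)) U atTop := tendsto_natCast_atTop_atTop.comp hT
  have hwle : ∀ j, (w j : ℝ) ≤ 4 * ((r : ℝ) + 1) * ((T j : ℝ) / (A j).card) + 1 := by
    intro j
    rw [hw]
    push_cast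
    have := Nat.floor_le (show 0 ≤ 4 * ((r : ℝ) + 1) * ((T j : ℝ) / (A j).card) by positivity)
    linarith
  -- the choice
  have hex : ∀ᶠ j in (U : Filter ℕ), ∃ N ∈ A j, Nat.sqrt (T j) < N ∧ ∃ β : Fin r → ℕ,
      Function.Injective β ∧ ∀ i, 0 < β i ∧ β i ≤ w j ∧ N + β i ∈ A j := by
    filter_upwards [hL (1 / 4) (by norm_num), hTr.eventually_ge_atTop 256,
      hTr.eventually_ge_atTop (((r : ℝ) + 1) ^ 2)] with j h1 h2 h3
    obtain ⟨h4, h5⟩ := large_arith r h2 h3 h1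
    refine pigeon r (T j) (w j) _ (Nat.succ_pos _) (A j) (hA j) ?_
    have ht0 : (0 : ℝ) < T j := by linarith
    have hA0 : (0 : ℝ) < (A j).card := lt_trans (Real.rpow_pos_of_pos ht0 _) h1
    have h6 : ((Nat.sqrt (T j) : ℕ) : ℝ) ≤ Real.sqrt (T j) := Real.nat_sqrt_le_real_sqrt
    have h7 : (((T j) / (w j) : ℕ) : ℝ) ≤ (A j).card / (4 * ((r : ℝ) + 1)) := by
      refine (Nat.cast_div_le).trans ?_
      have h8 : 4 * ((r : ℝ) + 1) * ((T j : ℝ) / (A j).card) < w j := by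
        rw [hw]
        push_cast
        exact Nat.lt_floor_add_one _
      have h9 : (0 : ℝ) < w j := by
        have : 0 < w j := Nat.succ_pos _
        exact_mod_cast this
      rw [div_le_div_iff₀ h9 (by positivity)]
      have h10 := h8.le
      rw [mul_div_assoc', div_le_iff₀ hA0] at h10
      linarith
    have h11 : ((((T j) / (w j) : ℕ) : ℝ) + 1) * r ≤ (A j).card / 4 + r := by
      have h12 : (A j).card / (4 * ((r : ℝ) + 1)) * r ≤ (A j).card / 4 := by
        rw [div_mul_eq_mul_div, div_le_div_iff₀ (by positivity) (by norm_num)]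
        nlinarith
      have hr0 : (0 : ℝ) ≤ r := Nat.cast_nonneg _
      nlinarith
    have h13 : ((Nat.sqrt (T j) + (T j / w j + 1) * r : ℕ) : ℝ) < (A j).card := by
      push_cast
      push_cast at h11
      linarith
    exact_mod_cast h13
  have hex' : ∀ j, ∃ (N : ℕ) (β : Fin r → ℕ), (∃ N ∈ A j, Nat.sqrt (T j) < N ∧ ∃ β : Fin r → ℕ,
      Function.Injective β ∧ ∀ i, 0 < β i ∧ β i ≤ w j ∧ N + β i ∈ A j) → (N ∈ A j ∧
      Nat.sqrt (T j) < N ∧ Function.Injective β ∧ ∀ i, 0 < β i ∧ β i ≤ w j ∧ N + β i ∈ A j) := by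
    intro j
    by_cases h : ∃ N ∈ A j, Nat.sqrt (T j) < N ∧ ∃ β : Fin r → ℕ,
      Function.Injective β ∧ ∀ i, 0 < β i ∧ β i ≤ w j ∧ N + β i ∈ A j
    · obtain ⟨N, h1, h2, β, h3, h4⟩ := h
      exact ⟨N, β, fun _ => ⟨h1, h2, h3, h4⟩⟩
    · exact ⟨0, fun _ => 0, fun h' => absurd h' h⟩
  choose N β hNβ using hex'
  have hN : ∀ᶠ j in (U : Filter ℕ), N j ∈ A j ∧
      Nat.sqrt (T j) < N j ∧ Function.Injective (β j) ∧
      ∀ i, 0 < β j i ∧ β j i ≤ w j ∧ N j + β j i ∈ A j := by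
    filter_upwards [hex] with j hj
    exact hNβ j hj
  have hxi : AlgebraicIndependent (Zs U H)
      (fun i : Fin r => lc U H (fun j => N j + β j i) - lc U H N) := by
    refine win_indep U H (fun i j => N j + β j i) N w β ?_ ?_ ?_ ?_ ?_
    · filter_upwards [hN, hTH] with j hj hj2
      exact ((Finset.mem_Ioc.1 (hA j hj.1)).2).trans hj2
    · filter_upwards [hN] with j hj
      exact hj.2.2.1
    · filter_upwards [hN] with j hj i
      exact ⟨(hj.2.2.2 i).1, (hj.2.2.2 i).2.1⟩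
    · filter_upwards [hN, hTH] with j hj hj2 i
      exact ⟨rfl, ((Finset.mem_Ioc.1 (hA j (hj.2.2.2 i).2.2)).2).trans hj2⟩
    · intro E
      filter_upwards [hN, hL (1 / (4 * ((E : ℝ) + 1))) (by positivity),
        hTr.eventually_ge_atTop 1, hTr.eventually_ge_atTop ((4 * (r : ℝ) + 7) ^ (4 * E))]
        with j hj h1 h2 h3
      have h4 := window_arith r E h2 h3 h1 (hwle j) (Nat.cast_nonneg _)
      have h5 : Real.sqrt (T j) < (Nat.sqrt (T j) : ℝ) + 1 := Real.real_sqrt_lt_nat_sqrt_succ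
      have h6 : (((w j + 2) ^ E : ℕ) : ℝ) < ((Nat.sqrt (T j) + 1 : ℕ) : ℝ) := by
        push_cast
        linarith
      have h7 : (w j + 2) ^ E < Nat.sqrt (T j) + 1 := by exact_mod_cast h6
      have := hj.2.1
      omega
  set ℓ := lc U H N with hℓ
  have hScard : (insert ℓ S).encard < (r : ℕ∞) := by
    have h1 := Set.encard_insert_le S ℓ
    rw [← hS.cast_ncard_eq] at h1
    refine lt_of_le_of_lt h1 ?_
    rw [hr]
    have h2 : S.ncard + 1 < S.ncard + 2 := by omega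
    exact_mod_cast h2
  obtain ⟨i, hi⟩ := exists_notMem_acl hxi hScard
  refine ⟨fun j => N j + β j i, ?_, fun hcon => hi ?_⟩
  · filter_upwards [hN] with j hj
    exact (hj.2.2.2 i).2.2
  · exact acl_sub (acl_mono (Set.subset_insert _ _) hcon) (subset_acl (Set.mem_insert _ _))

end Choice

end Pool.Agent.R351.GF
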