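import Mathlib
import Pool.Agent.R351.GF.Wnd

/-!
# Tuples: sequences of elements of large sets of tuples with algebraically independent logarithms
-/

set_option autoImplicit false

namespace Pool.Agent.R351.GF

open Filter Finset

section Fib

variable {k : ℕ}

open Classical in
/-- the fibre over the first coordinate -/
noncomputable def fib (T : ℕ) (B : Finset (Fin (k + 1) → ℕ)) (a : ℕ) : Finset (Fin k → ℕ) :=
  (Fintype.piFinset fun _ : Fin k => Ioc 0 T).filter (fun m => (Fin.cons a m : Fin (k + 1) → ℕ) ∈ B)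

theorem card_fib_le (T : ℕ) (B : Finset (Fin (k + 1) → ℕ)) (a : ℕ) :
    (fib T B a).card ≤ T ^ k := by
  classical
  refine (Finset.card_filter_le _ _).trans ?_
  rw [Fintype.card_piFinset_const, Nat.card_Ioc, Nat.sub_zero]

theorem card_le_sum_fib {T : ℕ} {B : Finset (Fin (k + 1) → ℕ)}
    (hB : B ⊆ Fintype.piFinset fun _ => Ioc 0 T) : B.card ≤ ∑ a ∈ Ioc 0 T, (fib T B a).card := by
  classical
  rw [Finset.card_eq_sum_card_fiberwise (f := fun n : Fin (k + 1) → ℕ => n 0) (t := Ioc 0 T)
    (fun n hn => (Fintype.mem_piFinset.1 (hB hn)) 0)]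
  refine Finset.sum_le_sum fun a _ => ?_
  apply Finset.card_le_card_of_injOn (fun f => Fin.tail f)
  · intro f hf
    have hf' : f ∈ B.filter (fun f => f 0 = a) := hf
    rw [Finset.mem_filter] at hf'
    have hcons : (Fin.cons a (Fin.tail f) : Fin (k + 1) → ℕ) = f := by
      rw [← hf'.2]; exact Fin.cons_self_tail f
    show Fin.tail f ∈ _
    rw [Finset.mem_coe, fib, Finset.mem_filter, Fintype.mem_piFinset]
    refine ⟨fun i => (Fintype.mem_piFinset.1 (hB hf'.1)) i.succ, ?_⟩
    rw [hcons]
    exact hf'.1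
  · intro n hn m hm h
    have hn' : n ∈ B.filter (fun f => f 0 = a) := hn
    have hm' : m ∈ B.filter (fun f => f 0 = a) := hm
    rw [Finset.mem_filter] at hn' hm'
    rw [← Fin.cons_self_tail n, ← Fin.cons_self_tail m, hn'.2, hm'.2]
    have : Fin.tail n = Fin.tail m := h
    rw [this]

open Classical in
/-- the first coordinates with a large fibre -/
noncomputable def big (T : ℕ) (B : Finset (Fin (k + 1) → ℕ)) : Finset ℕ :=
  (Ioc 0 T).filter (fun a => B.card ≤ 2 * T * (fib T B a).card)

theorem card_le_big {T : ℕ} {B : Finset (Fin (k + 1) → ℕ)}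
    (hB : B ⊆ Fintype.piFinset fun _ => Ioc 0 T) : B.card ≤ 2 * (big T B).card * T ^ k := by
  classical
  rcases Nat.eq_zero_or_pos T with hT | hT
  · subst hT
    have : B = ∅ := by
      rw [Finset.eq_empty_iff_forall_notMem]
      intro n hn
      have := Fintype.mem_piFinset.1 (hB hn) 0
      simp at this
    rw [this]
    simp
  have h1 := card_le_sum_fib hB
  rw [← Finset.sum_filter_add_sum_filter_not (Ioc 0 T)
    (fun a => B.card ≤ 2 * T * (fib T B a).card)] at h1
  have h2 : ∑ a ∈ (Ioc 0 T).filter (fun a => B.card ≤ 2 * T * (fib T B a).card), (fib T B a).card ≤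
      (big T B).card * T ^ k := by
    refine (Finset.sum_le_sum fun a _ => card_fib_le T B a).trans ?_
    rw [Finset.sum_const, smul_eq_mul]
    rfl
  have h3 : 2 * T * ∑ a ∈ (Ioc 0 T).filter (fun a => ¬ B.card ≤ 2 * T * (fib T B a).card),
      (fib T B a).card ≤ T * B.card := by
    rw [Finset.mul_sum]
    refine (Finset.sum_le_sum fun a ha => (not_le.1 (Finset.mem_filter.1 ha).2).le).trans ?_
    rw [Finset.sum_const, smul_eq_mul]
    refine Nat.mul_le_mul_right _ ((Finset.card_filter_le _ _).trans ?_)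
    rw [Nat.card_Ioc, Nat.sub_zero]
  have h4 : 2 * ∑ a ∈ (Ioc 0 T).filter (fun a => ¬ B.card ≤ 2 * T * (fib T B a).card),
      (fib T B a).card ≤ B.card := by
    apply Nat.le_of_mul_le_mul_left _ hT
    linarith
  have h5 : 2 * (big T B).card * T ^ k = 2 * ((big T B).card * T ^ k) := by ring
  omega

end Fib

variable (U : Ultrafilter ℕ) (H T : ℕ → ℕ)

/-- **Chains of transcendental logarithms in large sets of tuples.** -/
theorem exists_chain (hT : Tendsto T U atTop) (hTH : ∀ᶠ j in (U : Filter ℕ), T j ≤ H j) (k : ℕ) :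
    ∀ B : ℕ → Finset (Fin k → ℕ), (∀ j, B j ⊆ Fintype.piFinset fun _ => Ioc 0 (T j)) →
    (∀ c : ℝ, 0 < c → ∀ᶠ j in (U : Filter ℕ), (T j : ℝ) ^ ((k : ℝ) - c) < (B j).card) →
    ∀ S : Set (Fl U H), S.Finite →
    ∃ n : ℕ → Fin k → ℕ, (∀ᶠ j in (U : Filter ℕ), n j ∈ B j) ∧
      ∀ i, lc U H (fun j => n j i) ∉
        acl (Zs U H) (S ∪ (fun i' => lc U H (fun j => n j i')) '' {i' | i' < i}) := by
  classical
  have hTr : Tendsto (fun j => (T j : ℝ)) U atTop := tendsto_natCast_atTop_atTop.comp hT
  induction k with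
  | zero =>
    intro B hB hL S hS
    have h1 : ∀ᶠ j in (U : Filter ℕ), (fun i : Fin 0 => i.elim0 : Fin 0 → ℕ) ∈ B j := by
      filter_upwards [hL 1 one_pos, hTr.eventually_ge_atTop 1] with j hj hj2
      have h2 : (0 : ℝ) < (B j).card := lt_trans (Real.rpow_pos_of_pos (by linarith) _) hj
      have h3 : 0 < (B j).card := by exact_mod_cast h2
      obtain ⟨n, hn⟩ := Finset.card_pos.1 h3
      have : n = (fun i : Fin 0 => i.elim0 : Fin 0 → ℕ) := funext fun i => i.elim0
      rwa [← this]
    exact ⟨fun _ => fun i => i.elim0, h1, fun i => i.elim0⟩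
  | succ k ih =>
    intro B hB hL S hS
    have hhalf : ∀ c : ℝ, 0 < c → ∀ᶠ j in (U : Filter ℕ), 2 ≤ (T j : ℝ) ^ c := fun c hc =>
      ((tendsto_rpow_atTop hc).comp hTr).eventually_ge_atTop 2
    -- the first coordinate
    obtain ⟨a, ha, hat⟩ := exists_transc U H T hT hTH (fun j => big (T j) (B j))
      (fun j => Finset.filter_subset _ _) (by
        intro c hc
        filter_upwards [hL (c / 2) (by positivity), hhalf (c / 2) (by positivity),
          hTr.eventually_ge_atTop 1] with j h1 h2 h3
        have ht0 : (0 : ℝ) < T j := by linarith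
        have h4 : ((B j).card : ℝ) ≤ 2 * (big (T j) (B j)).card * (T j : ℝ) ^ k := by
          exact_mod_cast card_le_big (hB j)
        have h5 : (0 : ℝ) < (T j : ℝ) ^ k := by positivity
        have h6 : (T j : ℝ) ^ (((k + 1 : ℕ) : ℝ) - c / 2) =
            (T j : ℝ) ^ (c / 2) * (T j : ℝ) ^ (1 - c) * (T j : ℝ) ^ k := by
          rw [← Real.rpow_natCast (T j : ℝ) k, ← Real.rpow_add ht0, ← Real.rpow_add ht0]
          congr 1
          push_cast
          ring
        rw [h6] at h1
        have h7 : (T j : ℝ) ^ (c / 2) * (T j : ℝ) ^ (1 - c) < 2 * (big (T j) (B j)).card :=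
          lt_of_mul_lt_mul_right (lt_of_lt_of_le h1 h4) h5.le
        have h8 : 0 < (T j : ℝ) ^ (1 - c) := Real.rpow_pos_of_pos ht0 _
        nlinarith) S hS
    -- the fibre
    obtain ⟨m, hm, hmt⟩ := ih (fun j => fib (T j) (B j) (a j)) (fun j => Finset.filter_subset _ _) (by
        intro c hc
        filter_upwards [hL (c / 2) (by positivity), hhalf (c / 2) (by positivity),
          hTr.eventually_ge_atTop 1, ha] with j h1 h2 h3 ha
        have ht0 : (0 : ℝ) < T j := by linarith
        have h4 : ((B j).card : ℝ) ≤ 2 * T j * (fib (T j) (B j) (a j)).card := by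
          exact_mod_cast (Finset.mem_filter.1 ha).2
        have h6 : (T j : ℝ) ^ (((k + 1 : ℕ) : ℝ) - c / 2) =
            (T j : ℝ) * ((T j : ℝ) ^ (c / 2) * (T j : ℝ) ^ ((k : ℝ) - c)) := by
          rw [← Real.rpow_add ht0]
          nth_rewrite 2 [← Real.rpow_one (T j : ℝ)]
          rw [← Real.rpow_add ht0]
          congr 1
          push_cast
          ring
        rw [h6] at h1
        have h7 : (T j : ℝ) ^ (c / 2) * (T j : ℝ) ^ ((k : ℝ) - c) < 2 * (fib (T j) (B j) (a j)).card := by
          have h9 : (T j : ℝ) * ((T j : ℝ) ^ (c / 2) * (T j : ℝ) ^ ((k : ℝ) - c)) <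
              (T j : ℝ) * (2 * (fib (T j) (B j) (a j)).card) := by
            refine lt_of_lt_of_le h1 (h4.trans (le_of_eq ?_))
            ring
          exact lt_of_mul_lt_mul_left h9 ht0.le
        have h8 : 0 < (T j : ℝ) ^ ((k : ℝ) - c) := Real.rpow_pos_of_pos ht0 _
        nlinarith) (insert (lc U H a) S) (hS.insert _)
    refine ⟨fun j => Fin.cons (a j) (m j), ?_, ?_⟩
    · filter_upwards [hm] with j hj
      exact (Finset.mem_filter.1 hj).2
    · intro i
      refine Fin.cases ?_ (fun i => ?_) i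
      · intro hcon
        apply hat
        refine acl_mono ?_ hcon
        rintro x (hx | ⟨i', hi', _⟩)
        · exact hx
        · exact absurd hi' (Fin.not_lt_zero i')
      · intro hcon
        apply hmt i
        refine acl_mono ?_ hcon
        rintro x (hx | ⟨i', hi', rfl⟩)
        · exact Or.inl (Set.mem_insert_of_mem _ hx)
        · revert hi'
          refine Fin.cases ?_ (fun i' => ?_) i'
          · intro _
            exact Or.inl (Set.mem_insert _ _)
          · intro hi'
            exact Or.inr ⟨i', Fin.succ_lt_succ_iff.1 hi', rfl⟩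

end Pool.Agent.R351.GF
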