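import Mathlib
import Pool.Agent.R351.GF.Tup

/-!
# Small values of polynomials at the logarithms of tuples of integers: the count at one scale
-/

set_option autoImplicit false

namespace Pool.Agent.R351.GF

open Filter Finset Pool.Agent.Y916 Pool.Agent.Y535.LG

/-- There are logarithms `l i` of the numbers `n i` of absolute value at most `H`, and a nonzero
polynomial with integer coefficients, of degree at most `δ` and height at most `H`, whose value at `l`
is smaller than `(H + 2) ^ (- C)`. -/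
def Bad {k : ℕ} (δ C H : ℕ) (n : Fin k → ℕ) : Prop :=
  ∃ l : Fin k → ℂ, (∀ i, Complex.exp (l i) = n i) ∧ (∀ i, ‖l i‖ ≤ H) ∧
    ∃ P : MvPolynomial (Fin k) ℤ, P ≠ 0 ∧ P.totalDegree ≤ δ ∧ (∀ s, |P.coeff s| ≤ H) ∧
      ‖MvPolynomial.aeval l P‖ * ((H : ℝ) + 2) ^ C < 1

open Classical in
/-- the exceptional tuples -/
noncomputable def badSet (k δ C H T : ℕ) : Finset (Fin k → ℕ) :=
  (Fintype.piFinset fun _ : Fin k => Ioc 0 T).filter (Bad δ C H)

section Seq

variable {k δ : ℕ} (U : Ultrafilter ℕ) (H T : ℕ → ℕ)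

/-- `2 π i` -/
noncomputable def tpi : Os U H := ⟨fun _ => 2 * Real.pi * Complex.I, 3, Eventually.of_forall fun j => by
  have h1 : ‖(2 * Real.pi * Complex.I : ℂ)‖ = 2 * Real.pi := by
    rw [norm_mul, norm_mul, Complex.norm_I, mul_one, Complex.norm_real, Real.norm_eq_abs,
      abs_of_pos Real.pi_pos]
    norm_num
  rw [h1]
  have h2 : (2 : ℝ) ^ 3 ≤ gr H j ^ 3 := pow_le_pow_left₀ (by norm_num) (gr_two H j) _
  have h3 := Real.pi_lt_d2
  norm_num at h2
  linarith⟩

theorem no_bad_chain (n : ℕ → Fin k → ℕ) (C : ℕ → ℕ) (hC : Tendsto C U atTop)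
    (hn : ∀ᶠ j in (U : Filter ℕ), ∀ i, 0 < n j i ∧ n j i ≤ H j)
    (hbad : ∀ᶠ j in (U : Filter ℕ), Bad δ (C j) (H j) (n j))
    (hch : ∀ i, lc U H (fun j => n j i) ∉
      acl (Zs U H) ({Ideal.Quotient.mk (ms U H) (tpi U H)} ∪
        (fun i' => lc U H (fun j => n j i')) '' {i' | i' < i})) : False := by
  classical
  -- the data
  have hdata : ∀ j, ∃ (l : Fin k → ℂ) (P : MvPolynomial (Fin k) ℤ) (b : Fin k → ℤ),
      (∀ s, |P.coeff s| ≤ H j) ∧ (∀ i, |(b i : ℝ)| ≤ gr H j) ∧
      ((∀ i, 0 < n j i ∧ n j i ≤ H j) → Bad δ (C j) (H j) (n j) →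
        P ≠ 0 ∧ P.totalDegree ≤ δ ∧ ‖MvPolynomial.aeval l P‖ * gr H j ^ C j < 1 ∧
        ∀ i, l i = (Real.log (n j i) : ℂ) + b i * (2 * Real.pi * Complex.I)) := by
    intro j
    by_cases h : (∀ i, 0 < n j i ∧ n j i ≤ H j) ∧ Bad δ (C j) (H j) (n j)
    · obtain ⟨hn, l, hl, hlH, P, hP0, hPd, hPH, hPv⟩ := h
      have hb : ∀ i, ∃ b : ℤ, l i = (Real.log (n j i) : ℂ) + b * (2 * Real.pi * Complex.I) := by
        intro i
        have h3 : Complex.exp (l i) = Complex.exp (Real.log (n j i) : ℂ) := by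
          rw [hl i, ← Complex.ofReal_exp, Real.exp_log (by exact_mod_cast (hn i).1)]
          push_cast
          rfl
        exact Complex.exp_eq_exp_iff_exists_int.1 h3
      choose b hb using hb
      refine ⟨l, P, b, hPH, fun i => ?_, fun _ _ => ⟨hP0, hPd, hPv, hb⟩⟩
      have h4 : ‖(b i : ℂ) * (2 * Real.pi * Complex.I)‖ ≤ 2 * H j := by
        have h5 : (b i : ℂ) * (2 * Real.pi * Complex.I) = l i - (Real.log (n j i) : ℂ) := by
          rw [hb i]; ring
        rw [h5]
        refine (norm_sub_le _ _).trans ?_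
        have h6 : ‖(Real.log (n j i) : ℂ)‖ ≤ H j := by
          rw [Complex.norm_real, Real.norm_eq_abs, abs_of_nonneg (Real.log_natCast_nonneg _)]
          have h7 : (0 : ℝ) < n j i := by exact_mod_cast (hn i).1
          have h8 := Real.log_le_sub_one_of_pos h7
          have h9 : (n j i : ℝ) ≤ H j := by exact_mod_cast (hn i).2
          linarith
        have h7 := hlH i
        linarith
      rw [norm_mul, Complex.norm_intCast] at h4
      have h1 : ‖(2 * Real.pi * Complex.I : ℂ)‖ = 2 * Real.pi := by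
        rw [norm_mul, norm_mul, Complex.norm_I, mul_one, Complex.norm_real, Real.norm_eq_abs,
          abs_of_pos Real.pi_pos]
        norm_num
      rw [h1] at h4
      have h2 := Real.pi_gt_three
      have h10 : (0 : ℝ) ≤ |(b i : ℝ)| := abs_nonneg _
      have h11 : (0 : ℝ) ≤ H j := Nat.cast_nonneg _
      unfold gr
      nlinarith
    · refine ⟨0, 0, 0, fun s => ?_, fun i => ?_, fun h1 h2 => absurd ⟨h1, h2⟩ h⟩
      · rw [MvPolynomial.coeff_zero, abs_zero]; exact Int.natCast_nonneg _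
      · simp only [Pi.zero_apply, Int.cast_zero, abs_zero]
        exact (gr_pos H j).le
  choose l P b hPH hbH hprop using hdata
  have hp : ∀ᶠ j in (U : Filter ℕ), P j ≠ 0 ∧ (P j).totalDegree ≤ δ ∧
      ‖MvPolynomial.aeval (l j) (P j)‖ * gr H j ^ C j < 1 ∧
        ∀ i, l j i = (Real.log (n j i) : ℂ) + b j i * (2 * Real.pi * Complex.I) := by
    filter_upwards [hn, hbad] with j h1 h2
    exact hprop j h1 h2
  -- the classes
  have hbIZ : ∀ i, (fun j => b j i) ∈ IZ U H := fun i => (mem_IZ U H).2 ⟨1, Eventually.of_forall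
    fun j => by rw [pow_one]; exact hbH j i⟩
  have hPIZ : ∀ e : Mn k δ, (fun j => (P j).coeff (toF e)) ∈ IZ U H := fun e => (mem_IZ U H).2
    ⟨1, Eventually.of_forall fun j => by
      rw [pow_one]
      have h1 : |(((P j).coeff (toF e) : ℤ) : ℝ)| ≤ H j := by exact_mod_cast hPH j (toF e)
      unfold gr
      linarith⟩
  set Q : MvPolynomial (Fin k) (IZ U H) :=
    ∑ e : Mn k δ, MvPolynomial.monomial (toF e) (⟨_, hPIZ e⟩ : IZ U H) with hQ
  have hQj : ∀ᶠ j in (U : Filter ℕ), MvPolynomial.map (evj U H j) Q = P j := by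
    filter_upwards [hp] with j hj
    rw [hQ, map_sum]
    simp only [MvPolynomial.map_monomial, evj_apply]
    ext s
    rw [MvPolynomial.coeff_sum]
    simp only [MvPolynomial.coeff_monomial]
    by_cases hs : ∃ e : Mn k δ, toF e = s
    · obtain ⟨e, rfl⟩ := hs
      rw [Finset.sum_eq_single e]
      · rw [if_pos rfl]
      · intro e' _ he'
        rw [if_neg]
        exact fun h => he' (toF_inj h)
      · intro h; exact absurd (Finset.mem_univ _) h
    · rw [Finset.sum_eq_zero]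
      · by_contra h
        exact hs (toF_surjZ (P j) hj.2.1 s (MvPolynomial.mem_support_iff.2 (Ne.symm h)))
      · intro e _
        rw [if_neg]
        exact fun h => hs ⟨e, h⟩
  set z : Fin k → Os U H := fun i => lo U H (fun j => n j i) +
    izo U H ⟨_, hbIZ i⟩ * tpi U H with hz
  set ϖ : Fl U H := Ideal.Quotient.mk (ms U H) (tpi U H) with hϖ
  have hz1 : ∀ i, (Ideal.Quotient.mk (ms U H) (z i) : Fl U H) =
      lc U H (fun j => n j i) + psi U H ⟨_, hbIZ i⟩ * ϖ := by
    intro i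
    rw [hz, map_add, map_mul]
    rfl
  have hzj : ∀ᶠ j in (U : Filter ℕ), (fun i => (z i : ℕ → ℂ) j) = l j := by
    filter_upwards [hp, hn] with j hj hnj
    funext i
    rw [hj.2.2.2 i]
    show (lo U H (fun j => n j i) : ℕ → ℂ) j + ((b j i : ℤ) : ℂ) * (2 * Real.pi * Complex.I) = _
    rw [lo_apply U H (hnj i).2]
  -- independence
  have hbz : ∀ (i : Fin k) (S : Set (Fl U H)), ϖ ∈ S → psi U H ⟨_, hbIZ i⟩ * ϖ ∈ acl (Zs U H) S :=
    fun i S hS => acl_mul (acl_R ⟨_, rfl⟩) (subset_acl hS)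
  have hind : AlgebraicIndependent (Zs U H)
      (fun i => (Ideal.Quotient.mk (ms U H) (z i) : Fl U H)) := by
    apply indep_of_chain
    intro i hcon
    apply hch i
    set S := ({ϖ} ∪ (fun i' => lc U H (fun j => n j i')) '' {i' | i' < i} : Set (Fl U H)) with hS
    have hϖS : ϖ ∈ S := Or.inl rfl
    have h1 : (Ideal.Quotient.mk (ms U H) (z i) : Fl U H) ∈ acl (Zs U H) S := by
      refine acl_of ?_ hcon
      rintro _ ⟨i', hi', rfl⟩
      simp only [hz1]
      exact acl_add (subset_acl (Or.inr ⟨i', hi', rfl⟩)) (hbz i' S hϖS)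
    rw [hz1] at h1
    have h2 := acl_sub h1 (hbz i S hϖS)
    rwa [add_sub_cancel_right] at h2
  rw [algebraicIndependent_iff] at hind
  have h0 := hind (MvPolynomial.map (psr U H) Q) (by
    rw [← mk_vs, Ideal.Quotient.eq_zero_iff_mem, mem_ms]
    intro D
    filter_upwards [hp, hQj, hzj, hC.eventually_ge_atTop D] with j h1 h2 h3 h4
    rw [vs_apply, h2, h3]
    refine le_trans ?_ h1.2.2.1.le
    exact mul_le_mul_of_nonneg_left (pow_le_pow_right₀ (gr_one H j) h4) (norm_nonneg _))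
  -- the polynomial is not zero
  have h1 : ∀ᶠ j in (U : Filter ℕ), ∀ e : Mn k δ, (P j).coeff (toF e) = 0 := by
    rw [Filter.eventually_all]
    intro e
    have h2 : psi U H (Q.coeff (toF e)) = 0 := by
      have h3 := congrArg (MvPolynomial.coeff (toF e)) h0
      rw [MvPolynomial.coeff_map, MvPolynomial.coeff_zero] at h3
      exact congrArg Subtype.val h3
    rw [psi_eq_zero] at h2
    filter_upwards [h2, hQj] with j h3 h4
    rw [← h4, MvPolynomial.coeff_map, evj_apply]
    exact h3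
  obtain ⟨j, hj1, hj2⟩ := (h1.and hp).exists
  apply hj2.1
  ext s
  rw [MvPolynomial.coeff_zero]
  by_contra h
  obtain ⟨e, he⟩ := toF_surjZ (P j) hj2.2.1 s (MvPolynomial.mem_support_iff.2 h)
  rw [← he] at h
  exact h (hj1 e)

end Seq

/-- **The count at one scale.** -/
theorem scale_count (k δ : ℕ) : ∃ C : ℕ, 0 < C ∧ ∀ T H : ℕ, 1 ≤ T → T ≤ H →
    ((badSet k δ C H T).card : ℝ) ≤ C * (T : ℝ) ^ ((k : ℝ) - 1 / C) := by
  classical
  by_contra hcon
  push Not at hcon
  choose T H hT hTH hcard using fun j : ℕ => hcon (j + 1) (Nat.succ_pos j)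
  set U : Ultrafilter ℕ := hyperfilter ℕ with hU
  have hUa : (U : Filter ℕ) ≤ atTop := Nat.hyperfilter_le_atTop
  have htriv : ∀ j, ((badSet k δ (j + 1) (H j) (T j)).card : ℝ) ≤ (T j : ℝ) ^ k := by
    intro j
    have h1 : (badSet k δ (j + 1) (H j) (T j)).card ≤ T j ^ k := by
      refine (Finset.card_filter_le _ _).trans ?_
      rw [Fintype.card_piFinset_const, Nat.card_Ioc, Nat.sub_zero]
    exact_mod_cast h1
  have hTj : ∀ j, j ≤ T j := by
    intro j
    have h1 := (hcard j).trans_le (htriv j)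
    have ht1 : (1 : ℝ) ≤ T j := by exact_mod_cast hT j
    have ht0 : (0 : ℝ) < T j := by linarith
    have h2 : (T j : ℝ) ^ k = (T j : ℝ) ^ (1 / ((j + 1 : ℕ) : ℝ)) *
        (T j : ℝ) ^ ((k : ℝ) - 1 / ((j + 1 : ℕ) : ℝ)) := by
      rw [← Real.rpow_add ht0, ← Real.rpow_natCast]
      congr 1
      ring
    rw [h2] at h1
    have h3 := lt_of_mul_lt_mul_right h1 (Real.rpow_nonneg ht0.le _)
    have h4 : (T j : ℝ) ^ (1 / ((j + 1 : ℕ) : ℝ)) ≤ (T j : ℝ) ^ (1 : ℝ) := by
      apply Real.rpow_le_rpow_of_exponent_le ht1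
      rw [div_le_one (by positivity)]
      push_cast
      linarith [show (0 : ℝ) ≤ j from Nat.cast_nonneg j]
    rw [Real.rpow_one] at h4
    have h5 : ((j + 1 : ℕ) : ℝ) < T j := lt_of_lt_of_le h3 h4
    have h6 : j + 1 < T j := by exact_mod_cast h5
    omega
  have hTt : Tendsto T U atTop := (tendsto_atTop_mono hTj tendsto_id).mono_left hUa
  obtain ⟨n, hn, hch⟩ := exists_chain U H T hTt (Eventually.of_forall hTH) k
    (fun j => badSet k δ (j + 1) (H j) (T j)) (fun j => Finset.filter_subset _ _) (by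
      intro c hc
      have h1 : ∀ᶠ j : ℕ in (U : Filter ℕ), 1 / c ≤ (j : ℝ) :=
        (tendsto_natCast_atTop_atTop.mono_left hUa).eventually_ge_atTop (1 / c)
      filter_upwards [h1] with j hj
      refine lt_of_le_of_lt ?_ (hcard j)
      have ht1 : (1 : ℝ) ≤ T j := by exact_mod_cast hT j
      have h2 : (T j : ℝ) ^ ((k : ℝ) - c) ≤ (T j : ℝ) ^ ((k : ℝ) - 1 / ((j + 1 : ℕ) : ℝ)) := by
        apply Real.rpow_le_rpow_of_exponent_le ht1
        have h3 : 1 / ((j + 1 : ℕ) : ℝ) ≤ c := by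
          rw [div_le_iff₀ (by positivity)]
          rw [div_le_iff₀ hc] at hj
          push_cast
          nlinarith
        linarith
      refine h2.trans (le_mul_of_one_le_left (Real.rpow_nonneg (by linarith) _) ?_)
      push_cast
      linarith [show (0 : ℝ) ≤ j from Nat.cast_nonneg j])
    {Ideal.Quotient.mk (ms U H) (tpi U H)} (Set.finite_singleton _)
  refine no_bad_chain (δ := δ) U H n (fun j => j + 1) ?_ ?_ ?_ hch
  · exact (tendsto_add_atTop_nat 1).mono_left hUa
  · filter_upwards [hn] with j hj i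
    have h1 := Finset.mem_Ioc.1 ((Fintype.mem_piFinset.1 (Finset.mem_filter.1 hj).1) i)
    exact ⟨h1.1, h1.2.trans (hTH j)⟩
  · filter_upwards [hn] with j hj
    exact (Finset.mem_filter.1 hj).2

end Pool.Agent.R351.GF
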