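import Mathlib
import Pool.Agent.R351.GF.Scale

/-!
# Small values of a polynomial at the logarithms of tuples of integers: small heights

The set of the tuples `n ≤ T` at which a given nonzero polynomial with integer coefficients, shifted by
any complex vector, takes a value smaller than `η` at `log n` has at most `C (η ^ (1 / C) T + 1) T ^ (k - 1)`
elements.
-/

set_option autoImplicit false

namespace Pool.Agent.R351.GF

open Finset

/-- the integers whose logarithm lies in a given short interval -/
theorem card_log_near (r s : ℝ) (hs : 0 < s) (T : ℕ) :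
    (((Ioc 0 T).filter fun n : ℕ => |Real.log n - r| < s).card : ℝ) ≤ 2 * s * T + 1 := by
  set A := (Ioc 0 T).filter fun n : ℕ => |Real.log n - r| < s with hA
  rcases A.eq_empty_or_nonempty with h0 | hne
  · rw [h0, card_empty]
    push_cast
    positivity
  · set m := A.min' hne with hm
    set M := A.max' hne with hM
    have hmA : m ∈ A := min'_mem _ _
    have hMA : M ∈ A := max'_mem _ _
    have hsub : A ⊆ Icc m M := fun x hx => mem_Icc.2 ⟨min'_le _ _ hx, le_max' _ _ hx⟩
    have hmM : m ≤ M := min'_le _ _ hMA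
    have hcard : A.card ≤ M - m + 1 := by
      refine (card_le_card hsub).trans ?_
      rw [Nat.card_Icc]
      omega
    have h1 := (mem_filter.1 hmA)
    have h2 := (mem_filter.1 hMA)
    have hm0 : (0 : ℝ) < m := by exact_mod_cast (mem_Ioc.1 h1.1).1
    have hM0 : (0 : ℝ) < M := by exact_mod_cast (mem_Ioc.1 h2.1).1
    have hMT : (M : ℝ) ≤ T := by exact_mod_cast (mem_Ioc.1 h2.1).2
    have h3 : Real.log M - Real.log m < 2 * s := by
      have := abs_lt.1 h1.2
      have := abs_lt.1 h2.2
      linarith
    have h4 : (1 : ℝ) - m / M < 2 * s := by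
      have h5 : Real.log (m / M) ≤ m / M - 1 := Real.log_le_sub_one_of_pos (div_pos hm0 hM0)
      rw [Real.log_div hm0.ne' hM0.ne'] at h5
      linarith
    have h6 : (M : ℝ) - m ≤ 2 * s * M := by
      have h7 : (M : ℝ) - m = (1 - m / M) * M := by field_simp
      rw [h7]
      exact mul_le_mul_of_nonneg_right h4.le hM0.le
    have h8 : ((M - m + 1 : ℕ) : ℝ) = M - m + 1 := by
      push_cast [Nat.cast_sub hmM]
      ring
    have h9 : (A.card : ℝ) ≤ ((M - m + 1 : ℕ) : ℝ) := by exact_mod_cast hcard
    rw [h8] at h9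
    have h10 : 2 * s * M ≤ 2 * s * T := mul_le_mul_of_nonneg_left hMT (by positivity)
    linarith

theorem pow_le_prod (m : Multiset ℂ) (x : ℂ) (s : ℝ) (hs : 0 < s) (h : ∀ a ∈ m, s ≤ ‖x - a‖) :
    s ^ Multiset.card m ≤ ‖((m.map fun a => Polynomial.X - Polynomial.C a).prod).eval x‖ := by
  induction m using Multiset.induction with
  | empty => simp
  | cons a m ih =>
    rw [Multiset.map_cons, Multiset.prod_cons, Multiset.card_cons, Polynomial.eval_mul, norm_mul,
      pow_succ, mul_comm]
    refine mul_le_mul ?_ (ih fun b hb => h b (Multiset.mem_cons_of_mem hb)) (by positivity)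
      (norm_nonneg _)
    simpa using h a (Multiset.mem_cons_self a m)

/-- **One variable.** -/
theorem card_poly_small (q : Polynomial ℂ) (β : ℂ) (s : ℝ) (hs : 0 < s) (T : ℕ) :
    (((Ioc 0 T).filter fun n : ℕ =>
      ‖q.eval ((Real.log n : ℂ) + β)‖ < ‖q.leadingCoeff‖ * s ^ q.natDegree).card : ℝ) ≤
      q.natDegree * (2 * s * T + 1) := by
  classical
  have hsplit : q = Polynomial.C q.leadingCoeff *
      (q.roots.map fun a => Polynomial.X - Polynomial.C a).prod :=
    (IsAlgClosed.splits q).eq_prod_roots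
  have hcard : Multiset.card q.roots = q.natDegree :=
    (IsAlgClosed.splits q).natDegree_eq_card_roots.symm
  have hsub : ((Ioc 0 T).filter fun n : ℕ =>
      ‖q.eval ((Real.log n : ℂ) + β)‖ < ‖q.leadingCoeff‖ * s ^ q.natDegree) ⊆
      q.roots.toFinset.biUnion fun a => (Ioc 0 T).filter fun n : ℕ => |Real.log n - (a - β).re| < s := by
    intro n hn
    rw [mem_filter] at hn
    rw [mem_biUnion]
    by_contra hcon
    push Not at hcon
    have h1 : ∀ a ∈ q.roots, s ≤ ‖(Real.log n : ℂ) + β - a‖ := by
      intro a ha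
      have h2 := hcon a (Multiset.mem_toFinset.2 ha)
      rw [mem_filter] at h2
      have h3 : s ≤ |Real.log n - (a - β).re| := by
        by_contra h4
        exact h2 ⟨hn.1, not_le.1 h4⟩
      refine h3.trans ?_
      have h5 := Complex.abs_re_le_norm ((Real.log n : ℂ) + β - a)
      have h6 : ((Real.log n : ℂ) + β - a).re = Real.log n - (a - β).re := by
        simp only [Complex.sub_re, Complex.add_re, Complex.ofReal_re]
        ring
      rwa [h6] at h5
    have h7 := pow_le_prod q.roots _ s hs h1
    rw [hcard] at h7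
    have h8 : ‖q.eval ((Real.log n : ℂ) + β)‖ = ‖q.leadingCoeff‖ *
        ‖((q.roots.map fun a => Polynomial.X - Polynomial.C a).prod).eval ((Real.log n : ℂ) + β)‖ := by
      conv_lhs => rw [hsplit]
      rw [Polynomial.eval_mul, Polynomial.eval_C, norm_mul]
    have h9 := hn.2
    rw [h8] at h9
    exact absurd h9 (not_lt.2 (mul_le_mul_of_nonneg_left h7 (norm_nonneg _)))
  have h1 : (((Ioc 0 T).filter fun n : ℕ =>
      ‖q.eval ((Real.log n : ℂ) + β)‖ < ‖q.leadingCoeff‖ * s ^ q.natDegree).card : ℝ) ≤
      ∑ a ∈ q.roots.toFinset,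
        (((Ioc 0 T).filter fun n : ℕ => |Real.log n - (a - β).re| < s).card : ℝ) := by
    have := (card_le_card hsub).trans card_biUnion_le
    exact_mod_cast this
  refine h1.trans ((Finset.sum_le_sum fun a _ => card_log_near _ s hs T).trans ?_)
  rw [Finset.sum_const, nsmul_eq_mul]
  refine mul_le_mul_of_nonneg_right ?_ (by positivity)
  have h2 : q.roots.toFinset.card ≤ q.natDegree := (Multiset.toFinset_card_le _).trans hcard.le
  exact_mod_cast h2

/-- evaluation through `finSuccEquiv` -/
theorem aeval_cons {k : ℕ} (P : MvPolynomial (Fin (k + 1)) ℤ) (y : ℂ) (s : Fin k → ℂ) :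
    MvPolynomial.aeval (Fin.cons y s : Fin (k + 1) → ℂ) P =
      ((MvPolynomial.finSuccEquiv ℤ k P).map
        (MvPolynomial.aeval s : MvPolynomial (Fin k) ℤ →ₐ[ℤ] ℂ).toRingHom).eval y := by
  have h : (MvPolynomial.aeval (Fin.cons y s : Fin (k + 1) → ℂ) :
      MvPolynomial (Fin (k + 1)) ℤ →ₐ[ℤ] ℂ).toRingHom =
      ((Polynomial.evalRingHom y).comp (Polynomial.mapRingHom
        (MvPolynomial.aeval s : MvPolynomial (Fin k) ℤ →ₐ[ℤ] ℂ).toRingHom)).comp
        (MvPolynomial.finSuccEquiv ℤ k).toAlgHom.toRingHom := by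
    apply MvPolynomial.ringHom_ext
    · intro n
      simp
    · intro i
      refine Fin.cases ?_ (fun i => ?_) i
      · simp [MvPolynomial.finSuccEquiv_X_zero]
      · simp [MvPolynomial.finSuccEquiv_X_succ]
  exact congrArg (fun f : MvPolynomial (Fin (k + 1)) ℤ →+* ℂ => f P) h

/-- the tuples at whose logarithms a polynomial is small -/
noncomputable def smallSet (k T : ℕ) (β : Fin k → ℂ) (P : MvPolynomial (Fin k) ℤ) (η : ℝ) :
    Finset (Fin k → ℕ) :=
  (Fintype.piFinset fun _ : Fin k => Ioc 0 T).filter fun n =>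
    ‖MvPolynomial.aeval (fun i => (Real.log (n i) : ℂ) + β i) P‖ < η

theorem small_count (k : ℕ) : ∀ δ : ℕ, ∃ C : ℕ, 0 < C ∧ ∀ (β : Fin k → ℂ)
    (P : MvPolynomial (Fin k) ℤ), P ≠ 0 → P.totalDegree ≤ δ → ∀ η : ℝ, 0 < η → η ≤ 1 →
    ∀ T : ℕ, 1 ≤ T →
      ((smallSet k T β P η).card : ℝ) * T ≤ C * (η ^ (1 / (C : ℝ)) * T + 1) * (T : ℝ) ^ k := by
  classical
  induction k with
  | zero =>
    intro δ
    refine ⟨1, one_pos, fun β P hP _ η hη hη1 T hT => ?_⟩
    have h0 : smallSet 0 T β P η = ∅ := by
      rw [smallSet, filter_eq_empty_iff]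
      intro n _
      rw [not_lt]
      obtain ⟨c, rfl⟩ : ∃ c : ℤ, P = MvPolynomial.C c :=
        ⟨P.coeff 0, by
          ext s
          rw [Subsingleton.elim s 0, MvPolynomial.coeff_C, if_pos rfl]⟩
      have hc : c ≠ 0 := fun h => hP (by rw [h, map_zero])
      rw [MvPolynomial.aeval_C, algebraMap_int_eq, eq_intCast, Complex.norm_intCast]
      refine hη1.trans ?_
      exact_mod_cast Int.one_le_abs hc
    rw [h0, card_empty, Nat.cast_zero, zero_mul]
    positivity
  | succ k ih =>
    intro δ
    obtain ⟨C, hC, h⟩ := ih δ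
    refine ⟨2 * C + 2 * (δ + 1), by omega, ?_⟩
    intro β P hP hdeg η hη hη1 T hT
    set p := MvPolynomial.finSuccEquiv ℤ k P with hpdef
    have hp : p ≠ 0 := by
      rw [hpdef]
      exact (map_ne_zero_iff _ (MvPolynomial.finSuccEquiv ℤ k).injective).2 hP
    have hlead : p.leadingCoeff ≠ 0 := Polynomial.leadingCoeff_ne_zero.2 hp
    have hldeg : p.leadingCoeff.totalDegree ≤ δ := by
      have h1 := MvPolynomial.totalDegree_coeff_finSuccEquiv_add_le P p.natDegree hlead
      have h2 : p.leadingCoeff.totalDegree + p.natDegree ≤ P.totalDegree := h1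
      omega
    have hpd : p.natDegree ≤ δ := by
      rw [hpdef, MvPolynomial.natDegree_finSuccEquiv]
      exact (MvPolynomial.degreeOf_le_totalDegree _ _).trans hdeg
    have hT0 : (1 : ℝ) ≤ T := by exact_mod_cast hT
    set η' : ℝ := η ^ (1 / 2 : ℝ) with hη'
    have hη'0 : 0 < η' := Real.rpow_pos_of_pos hη _
    have hη'1 : η' ≤ 1 := Real.rpow_le_one hη.le hη1 (by norm_num)
    set A := smallSet k T (fun i => β i.succ) p.leadingCoeff η' with hA
    set s : ℝ := η ^ (1 / (2 * ((δ : ℝ) + 1))) with hs
    have hs0 : 0 < s := Real.rpow_pos_of_pos hη _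
    have hs1 : s ≤ 1 := Real.rpow_le_one hη.le hη1 (by positivity)
    have hsη : η ≤ η' * s ^ p.natDegree := by
      have h1 : s ^ δ ≤ s ^ p.natDegree := pow_le_pow_of_le_one hs0.le hs1 hpd
      have h2 : η ≤ η' * s ^ δ := by
        rw [hs, ← Real.rpow_mul_natCast hη.le, hη', ← Real.rpow_add hη]
        conv_lhs => rw [← Real.rpow_one η]
        apply Real.rpow_le_rpow_of_exponent_ge hη hη1
        have hδ : (0 : ℝ) ≤ δ := Nat.cast_nonneg _
        have h3 : 1 / (2 * ((δ : ℝ) + 1)) * δ ≤ 1 / 2 := by
          rw [one_div_mul_eq_div, div_le_div_iff₀ (by positivity) (by norm_num)]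
          linarith
        linarith
      exact h2.trans (mul_le_mul_of_nonneg_left h1 hη'0.le)
    set S := smallSet (k + 1) T β P η with hS
    set B := (Fintype.piFinset fun _ : Fin k => Ioc 0 T) with hB
    have hmaps : ∀ n ∈ S, Fin.tail n ∈ B := by
      intro n hn
      rw [hB, Fintype.mem_piFinset]
      intro i
      exact Fintype.mem_piFinset.1 (mem_filter.1 hn).1 i.succ
    have hval : ∀ n : Fin (k + 1) → ℕ,
        MvPolynomial.aeval (fun i => (Real.log (n i) : ℂ) + β i) P =
        (p.map (MvPolynomial.aeval (fun i => (Real.log (Fin.tail n i) : ℂ) + β i.succ) :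
          MvPolynomial (Fin k) ℤ →ₐ[ℤ] ℂ).toRingHom).eval ((Real.log (n 0) : ℂ) + β 0) := by
      intro n
      rw [← aeval_cons]
      congr 2
      funext i
      refine Fin.cases ?_ (fun i => ?_) i
      · rfl
      · rfl
    have hinj : ∀ n', Set.InjOn (fun n : Fin (k + 1) → ℕ => n 0) {n | Fin.tail n = n'} := by
      intro n' a ha b hb hab
      rw [← Fin.cons_self_tail a, ← Fin.cons_self_tail b]
      simp only [Set.mem_setOf_eq] at ha hb
      rw [ha, hb]
      simp only at hab
      rw [hab]
    have hfibT : ∀ n' ∈ B, ((S.filter fun n => Fin.tail n = n').card : ℝ) ≤ T := by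
      intro n' _
      have h1 : (S.filter fun n => Fin.tail n = n').card ≤ (Ioc 0 T).card := by
        refine card_le_card_of_injOn (fun n => n 0) ?_ ?_
        · intro n hn
          exact Fintype.mem_piFinset.1 (mem_filter.1 (mem_filter.1 hn).1).1 0
        · exact (hinj n').mono fun n hn => (mem_filter.1 hn).2
      rw [Nat.card_Ioc, Nat.sub_zero] at h1
      exact_mod_cast h1
    have hfib : ∀ n' ∈ B, n' ∉ A → ((S.filter fun n => Fin.tail n = n').card : ℝ) ≤
        δ * (2 * s * T + 1) := by
      intro n' hn'B hn'A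
      set q := p.map (MvPolynomial.aeval (fun i => (Real.log (n' i) : ℂ) + β i.succ) :
          MvPolynomial (Fin k) ℤ →ₐ[ℤ] ℂ).toRingHom with hq
      have hl : η' ≤ ‖MvPolynomial.aeval (fun i => (Real.log (n' i) : ℂ) + β i.succ)
          p.leadingCoeff‖ := by
        by_contra hcon
        exact hn'A (mem_filter.2 ⟨hn'B, not_le.1 hcon⟩)
      have hl0 : (MvPolynomial.aeval (fun i => (Real.log (n' i) : ℂ) + β i.succ) :
          MvPolynomial (Fin k) ℤ →ₐ[ℤ] ℂ).toRingHom p.leadingCoeff ≠ 0 := by
        intro h0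
        have h1 : MvPolynomial.aeval (fun i => (Real.log (n' i) : ℂ) + β i.succ)
          p.leadingCoeff = 0 := h0
        rw [h1, norm_zero] at hl
        linarith
      have hqd : q.natDegree = p.natDegree := Polynomial.natDegree_map_of_leadingCoeff_ne_zero _ hl0
      have hql : q.leadingCoeff = MvPolynomial.aeval
          (fun i => (Real.log (n' i) : ℂ) + β i.succ) p.leadingCoeff :=
        Polynomial.leadingCoeff_map_of_leadingCoeff_ne_zero _ hl0
      have h1 := card_poly_small q (β 0) s hs0 T
      have h2 : (S.filter fun n => Fin.tail n = n').card ≤ ((Ioc 0 T).filter fun n : ℕ =>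
          ‖q.eval ((Real.log n : ℂ) + β 0)‖ < ‖q.leadingCoeff‖ * s ^ q.natDegree).card := by
        refine card_le_card_of_injOn (fun n => n 0) ?_ ?_
        · intro n hn
          have h3 := mem_filter.1 (mem_coe.1 hn)
          have h4 := mem_filter.1 h3.1
          rw [mem_coe, mem_filter]
          refine ⟨Fintype.mem_piFinset.1 h4.1 0, ?_⟩
          have h5 := h4.2
          rw [hval n, h3.2] at h5
          rw [hqd, hql]
          exact h5.trans_le (hsη.trans (mul_le_mul_of_nonneg_right hl (by positivity)))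
        · exact (hinj n').mono fun n hn => (mem_filter.1 hn).2
      have h3 : ((S.filter fun n => Fin.tail n = n').card : ℝ) ≤ q.natDegree * (2 * s * T + 1) :=
        le_trans (by exact_mod_cast h2) h1
      refine h3.trans (mul_le_mul_of_nonneg_right ?_ (by positivity))
      rw [hqd]
      exact_mod_cast hpd
    have hsum : (S.card : ℝ) ≤ A.card * T + (T : ℝ) ^ k * (δ * (2 * s * T + 1)) := by
      have h1 : (S.card : ℝ) = ∑ n' ∈ B, ((S.filter fun n => Fin.tail n = n').card : ℝ) := by
        have := card_eq_sum_card_fiberwise hmaps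
        exact_mod_cast this
      rw [h1]
      have h2 : ∀ n' ∈ B, ((S.filter fun n => Fin.tail n = n').card : ℝ) ≤
          (if n' ∈ A then (T : ℝ) else 0) + δ * (2 * s * T + 1) := by
        intro n' hn'
        by_cases hn'A : n' ∈ A
        · rw [if_pos hn'A]
          have := hfibT n' hn'
          have h3 : (0 : ℝ) ≤ δ * (2 * s * T + 1) := by positivity
          linarith
        · rw [if_neg hn'A, zero_add]
          exact hfib n' hn' hn'A
      refine (Finset.sum_le_sum h2).trans ?_
      rw [Finset.sum_add_distrib, Finset.sum_const, nsmul_eq_mul, ← Finset.sum_filter,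
        Finset.sum_const, nsmul_eq_mul]
      refine add_le_add ?_ ?_
      · refine mul_le_mul_of_nonneg_right ?_ (by positivity)
        have : (B.filter fun n' => n' ∈ A).card ≤ A.card :=
          card_le_card fun x hx => (mem_filter.1 hx).2
        exact_mod_cast this
      · rw [hB, Fintype.card_piFinset_const, Nat.card_Ioc, Nat.sub_zero]
        push_cast
        exact le_rfl
    have hAc := h (fun i => β i.succ) p.leadingCoeff hlead hldeg η' hη'0 hη'1 T hT
    set D : ℕ := 2 * C + 2 * (δ + 1) with hD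
    have hC0 : (0 : ℝ) < C := by exact_mod_cast hC
    have hDr : (D : ℝ) = 2 * C + 2 * (δ + 1) := by rw [hD]; push_cast; ring
    have hδ : (0 : ℝ) ≤ δ := Nat.cast_nonneg _
    set w : ℝ := η ^ (1 / (D : ℝ)) with hw
    have hw0 : 0 ≤ w := Real.rpow_nonneg hη.le _
    have hw1 : η' ^ (1 / (C : ℝ)) ≤ w := by
      rw [hη', ← Real.rpow_mul hη.le, hw]
      apply Real.rpow_le_rpow_of_exponent_ge hη hη1
      rw [div_mul_div_comm, one_mul]
      apply one_div_le_one_div_of_le (by positivity)
      rw [hDr]; linarith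
    have hw2 : s ≤ w := by
      rw [hs, hw]
      apply Real.rpow_le_rpow_of_exponent_ge hη hη1
      apply one_div_le_one_div_of_le (by positivity)
      rw [hDr]; linarith
    have hTk : (0 : ℝ) < (T : ℝ) ^ k := by positivity
    calc (S.card : ℝ) * T ≤ (A.card * T + (T : ℝ) ^ k * (δ * (2 * s * T + 1))) * T :=
          mul_le_mul_of_nonneg_right hsum (by linarith)
      _ ≤ (C * (w * T + 1) * (T : ℝ) ^ k + (T : ℝ) ^ k * (δ * (2 * w * T + 1))) * T := by
          refine mul_le_mul_of_nonneg_right (add_le_add ?_ ?_) (by linarith)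
          · refine hAc.trans ?_
            have h3 : η' ^ (1 / (C : ℝ)) * T ≤ w * T := mul_le_mul_of_nonneg_right hw1 (by linarith)
            have h4 : (C : ℝ) * (η' ^ (1 / (C : ℝ)) * T + 1) ≤ C * (w * T + 1) :=
              mul_le_mul_of_nonneg_left (by linarith) hC0.le
            exact mul_le_mul_of_nonneg_right h4 hTk.le
          · have h3 : s * T ≤ w * T := mul_le_mul_of_nonneg_right hw2 (by linarith)
            refine mul_le_mul_of_nonneg_left ?_ hTk.le
            exact mul_le_mul_of_nonneg_left (by linarith) hδ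
      _ = ((C + 2 * δ) * (w * T) + (C + δ)) * (T : ℝ) ^ (k + 1) := by ring
      _ ≤ (D * (w * T) + D) * (T : ℝ) ^ (k + 1) := by
          have h5 : 0 ≤ w * T := mul_nonneg hw0 (by linarith)
          refine mul_le_mul_of_nonneg_right (add_le_add ?_ ?_) (by positivity)
          · refine mul_le_mul_of_nonneg_right ?_ h5
            rw [hDr]; linarith
          · rw [hDr]; linarith
      _ = D * (w * T + 1) * (T : ℝ) ^ (k + 1) := by ring

end Pool.Agent.R351.GF
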