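import Mathlib
import Pool.Agent.R351.GF.Small

/-!
# Small values of polynomials at the logarithms of tuples of integers: a range of heights
-/

set_option autoImplicit false

namespace Pool.Agent.R351.GF

open Finset Pool.Agent.Y916 Pool.Agent.Y535.LG

/-- There are logarithms `l i` of the numbers `n i` with `|Im (l i)| ≤ H`, and a nonzero polynomial with
integer coefficients, of degree at most `δ` and height at most `H`, whose value at `l` has absolute
value smaller than `η`. -/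
def Sml {k : ℕ} (δ : ℕ) (H η : ℝ) (n : Fin k → ℕ) : Prop :=
  ∃ l : Fin k → ℂ, (∀ i, Complex.exp (l i) = n i) ∧ (∀ i, |(l i).im| ≤ H) ∧
    ∃ P : MvPolynomial (Fin k) ℤ, P ≠ 0 ∧ P.totalDegree ≤ δ ∧ (∀ s, |((P.coeff s : ℤ) : ℝ)| ≤ H) ∧
      ‖MvPolynomial.aeval l P‖ < η

theorem exists_branch {n : ℕ} (hn : 0 < n) {l : ℂ} (hl : Complex.exp l = n) :
    ∃ b : ℤ, l = (Real.log n : ℂ) + b * (2 * Real.pi * Complex.I) := by
  have h3 : Complex.exp l = Complex.exp (Real.log n : ℂ) := by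
    rw [hl, ← Complex.ofReal_exp, Real.exp_log (by exact_mod_cast hn)]
    push_cast
    rfl
  exact Complex.exp_eq_exp_iff_exists_int.1 h3

/-- the polynomial with given coefficients -/
noncomputable def pol {k δ : ℕ} (c : Mn k δ → ℤ) : MvPolynomial (Fin k) ℤ :=
  ∑ e, MvPolynomial.monomial (toF e) (c e)

theorem pol_coeff {k δ : ℕ} (P : MvPolynomial (Fin k) ℤ) (hP : P.totalDegree ≤ δ) :
    pol (fun e : Mn k δ => P.coeff (toF e)) = P := by
  classical
  unfold pol
  ext s
  rw [MvPolynomial.coeff_sum]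
  simp only [MvPolynomial.coeff_monomial]
  by_cases hs : ∃ e : Mn k δ, toF e = s
  · obtain ⟨e, rfl⟩ := hs
    rw [Finset.sum_eq_single e]
    · rw [if_pos rfl]
    · intro e' _ he'
      rw [if_neg]
      exact fun h => he' (toF_inj h)
    · intro h; exact absurd (Finset.mem_univ _) h
  · rw [Finset.sum_eq_zero]
    · by_contra h
      exact hs (toF_surjZ P hP s (MvPolynomial.mem_support_iff.2 (Ne.symm h)))
    · intro e _
      rw [if_neg]
      exact fun h => hs ⟨e, h⟩

open Classical in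
/-- the tuples `n ≤ T` of positive integers at which something small exists -/
noncomputable def smlSet (k δ T : ℕ) (H η : ℝ) : Finset (Fin k → ℕ) :=
  (Fintype.piFinset fun _ : Fin k => Ioc 0 T).filter (Sml δ H η)

theorem box_pos {k T : ℕ} {n : Fin k → ℕ} (hn : n ∈ Fintype.piFinset fun _ : Fin k => Ioc 0 T)
    (i : Fin k) : 0 < n i := (Finset.mem_Ioc.1 (Fintype.mem_piFinset.1 hn i)).1

theorem box_le {k T : ℕ} {n : Fin k → ℕ} (hn : n ∈ Fintype.piFinset fun _ : Fin k => Ioc 0 T)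
    (i : Fin k) : n i ≤ T := (Finset.mem_Ioc.1 (Fintype.mem_piFinset.1 hn i)).2

/-- The count for one small height. -/
theorem sml_count (k δ : ℕ) : ∃ D : ℕ, 0 < D ∧ ∀ (N T : ℕ) (η : ℝ), 1 ≤ N → 1 ≤ T → 0 < η → η ≤ 1 →
    ((smlSet k δ T N η).card : ℝ) * T ≤
      D * (N : ℝ) ^ D * (η ^ (1 / (D : ℝ)) * T + 1) * (T : ℝ) ^ k := by
  classical
  obtain ⟨C, hC, h⟩ := small_count k δ
  set M := Fintype.card (Mn k δ) with hM
  refine ⟨C * 3 ^ (k + M) + (k + M), by positivity, fun N T η hN hT hη hη1 => ?_⟩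
  set D := C * 3 ^ (k + M) + (k + M) with hD
  set Ω : Finset ((Fin k → ℤ) × (Mn k δ → ℤ)) :=
    ((Fintype.piFinset fun _ : Fin k => Icc (-(N : ℤ)) N) ×ˢ
      (Fintype.piFinset fun _ : Mn k δ => Icc (-(N : ℤ)) N)).filter
        fun w => pol w.2 ≠ 0 ∧ (pol w.2).totalDegree ≤ δ with hΩ
  have hsub : smlSet k δ T N η ⊆ Ω.biUnion fun w =>
      smallSet k T (fun i => (w.1 i : ℂ) * (2 * Real.pi * Complex.I)) (pol w.2) η := by
    intro n hn
    obtain ⟨hnB, l, hl, hlN, P, hP0, hPd, hPN, hPv⟩ := mem_filter.1 hn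
    have hb : ∀ i, ∃ b : ℤ, l i = (Real.log (n i) : ℂ) + b * (2 * Real.pi * Complex.I) :=
      fun i => exists_branch (box_pos hnB i) (hl i)
    choose b hb using hb
    rw [mem_biUnion]
    refine ⟨(b, fun e => P.coeff (toF e)), ?_, ?_⟩
    · rw [hΩ, mem_filter, mem_product, Fintype.mem_piFinset, Fintype.mem_piFinset]
      refine ⟨⟨fun i => ?_, fun e => ?_⟩, ?_⟩
      · have h1 := hlN i
        rw [hb i] at h1
        have h2 : ((Real.log (n i) : ℂ) + b i * (2 * Real.pi * Complex.I)).im = b i * (2 * Real.pi) := by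
          rw [Complex.add_im, Complex.ofReal_im, zero_add]
          simp
        rw [h2, abs_mul, abs_of_pos (by positivity : (0 : ℝ) < 2 * Real.pi)] at h1
        have h3 := Real.pi_gt_three
        have h4 : (0 : ℝ) ≤ |(b i : ℝ)| := abs_nonneg _
        have h5 : |(b i : ℝ)| ≤ N := by nlinarith
        have h6 : |b i| ≤ (N : ℤ) := by exact_mod_cast h5
        rw [mem_Icc]
        exact abs_le.1 h6
      · have h6 : |P.coeff (toF e)| ≤ (N : ℤ) := by exact_mod_cast hPN (toF e)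
        rw [mem_Icc]
        exact abs_le.1 h6
      · rw [pol_coeff P hPd]
        exact ⟨hP0, hPd⟩
    · rw [smallSet, mem_filter]
      refine ⟨hnB, ?_⟩
      simp only
      rw [pol_coeff P hPd]
      have h1 : (fun i => (Real.log (n i) : ℂ) + (b i : ℂ) * (2 * Real.pi * Complex.I)) = l := by
        funext i
        exact (hb i).symm
      rw [h1]
      exact hPv
  have hN0 : (1 : ℝ) ≤ N := by exact_mod_cast hN
  have hT0 : (1 : ℝ) ≤ T := by exact_mod_cast hT
  have hC0 : (0 : ℝ) < C := by exact_mod_cast hC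
  have hCη : 0 ≤ η ^ (1 / (C : ℝ)) := Real.rpow_nonneg hη.le _
  set R : ℝ := C * (η ^ (1 / (C : ℝ)) * T + 1) * (T : ℝ) ^ k with hR
  have h1 : ((smlSet k δ T N η).card : ℝ) * T ≤ Ω.card * R := by
    have h2 : ((smlSet k δ T N η).card : ℝ) ≤ ∑ w ∈ Ω,
        ((smallSet k T (fun i => (w.1 i : ℂ) * (2 * Real.pi * Complex.I)) (pol w.2) η).card : ℝ) := by
      have := (card_le_card hsub).trans card_biUnion_le
      exact_mod_cast this
    calc ((smlSet k δ T N η).card : ℝ) * T ≤ (∑ w ∈ Ω,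
        ((smallSet k T (fun i => (w.1 i : ℂ) * (2 * Real.pi * Complex.I)) (pol w.2) η).card : ℝ)) * T :=
          mul_le_mul_of_nonneg_right h2 (by linarith)
      _ = ∑ w ∈ Ω, ((smallSet k T (fun i => (w.1 i : ℂ) * (2 * Real.pi * Complex.I))
            (pol w.2) η).card : ℝ) * T := by rw [Finset.sum_mul]
      _ ≤ ∑ _w ∈ Ω, R := by
          refine Finset.sum_le_sum fun w hw => ?_
          have h3 := (mem_filter.1 hw).2
          exact h _ _ h3.1 h3.2 η hη hη1 T hT
      _ = Ω.card * R := by rw [Finset.sum_const, nsmul_eq_mul]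
  have hΩc : (Ω.card : ℝ) ≤ 3 ^ (k + M) * (N : ℝ) ^ (k + M) := by
    have h2 : Ω.card ≤ (2 * N + 1) ^ (k + M) := by
      refine (card_filter_le _ _).trans ?_
      rw [card_product, Fintype.card_piFinset_const, Fintype.card_piFinset, Finset.prod_const,
        Finset.card_univ, ← hM, Int.card_Icc, pow_add]
      have h3 : ((N : ℤ) + 1 - -(N : ℤ)).toNat = 2 * N + 1 := by omega
      rw [h3]
    have h3 : ((2 * N + 1 : ℕ) : ℝ) ≤ 3 * N := by push_cast; linarith
    calc (Ω.card : ℝ) ≤ ((2 * N + 1 : ℕ) : ℝ) ^ (k + M) := by exact_mod_cast h2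
      _ ≤ (3 * N) ^ (k + M) := pow_le_pow_left₀ (Nat.cast_nonneg _) h3 _
      _ = 3 ^ (k + M) * (N : ℝ) ^ (k + M) := mul_pow _ _ _
  have hR0 : 0 ≤ R := by positivity
  have hDC : (C : ℝ) ≤ D := by
    have h2 : C ≤ D := by
      rw [hD]
      exact (Nat.le_mul_of_pos_right C (by positivity)).trans (Nat.le_add_right _ _)
    exact_mod_cast h2
  have hw : η ^ (1 / (C : ℝ)) ≤ η ^ (1 / (D : ℝ)) := by
    apply Real.rpow_le_rpow_of_exponent_ge hη hη1
    exact one_div_le_one_div_of_le hC0 hDC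
  calc ((smlSet k δ T N η).card : ℝ) * T ≤ Ω.card * R := h1
    _ ≤ (3 ^ (k + M) * (N : ℝ) ^ (k + M)) * R := mul_le_mul_of_nonneg_right hΩc hR0
    _ = (C * 3 ^ (k + M)) * (N : ℝ) ^ (k + M) * (η ^ (1 / (C : ℝ)) * T + 1) * (T : ℝ) ^ k := by
        rw [hR]; ring
    _ ≤ D * (N : ℝ) ^ D * (η ^ (1 / (D : ℝ)) * T + 1) * (T : ℝ) ^ k := by
        refine mul_le_mul_of_nonneg_right ?_ (by positivity)
        refine mul_le_mul ?_ ?_ (by positivity) (by positivity)
        · refine mul_le_mul ?_ ?_ (by positivity) (by positivity)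
          · rw [hD]
            push_cast
            linarith [show (0 : ℝ) ≤ k from Nat.cast_nonneg k, show (0 : ℝ) ≤ M from Nat.cast_nonneg M]
          · exact pow_le_pow_right₀ hN0 (by rw [hD]; omega)
        · have h3 : η ^ (1 / (C : ℝ)) * T ≤ η ^ (1 / (D : ℝ)) * T :=
            mul_le_mul_of_nonneg_right hw (by linarith)
          linarith

end Pool.Agent.R351.GF
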