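import Mathlib
import Pool.Agent.R351.GF.Rng

/-!
# The measure for almost all tuples of integers, in a range of heights
-/

set_option autoImplicit false

namespace Pool.Agent.R351.GF

open Finset

theorem Sml.mono {k δ : ℕ} {H H' η η' : ℝ} {n : Fin k → ℕ} (h : Sml δ H η n) (hH : H ≤ H')
    (hη : η ≤ η') : Sml δ H' η' n := by
  obtain ⟨l, h1, h2, P, h3, h4, h5, h6⟩ := h
  exact ⟨l, h1, fun i => (h2 i).trans hH, P, h3, h4, fun s => (h5 s).trans hH, h6.trans_le hη⟩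

theorem sum_inv_sq (n : ℕ) : ∑ i ∈ Ioc 0 n, ((i : ℝ) ^ 2)⁻¹ ≤ 2 := by
  have h : ∀ n : ℕ, 1 ≤ n → ∑ i ∈ Ioc 0 n, ((i : ℝ) ^ 2)⁻¹ ≤ 2 - (n : ℝ)⁻¹ := by
    intro n hn
    induction n, hn using Nat.le_induction with
    | base => norm_num
    | succ m hm ih =>
      rw [Finset.sum_Ioc_succ_top (Nat.zero_le m)]
      have hm0 : (0 : ℝ) < m := by exact_mod_cast hm
      push_cast
      have h1 : (((m : ℝ) + 1) ^ 2)⁻¹ ≤ (m : ℝ)⁻¹ - ((m : ℝ) + 1)⁻¹ := by
        rw [inv_sub_inv hm0.ne' (by positivity), inv_eq_one_div,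
          div_le_div_iff₀ (by positivity) (by positivity)]
        nlinarith
      linarith
  rcases Nat.eq_zero_or_pos n with rfl | hn
  · simp
  · have := h n hn
    have h2 : (0 : ℝ) ≤ (n : ℝ)⁻¹ := by positivity
    linarith

open Classical in
/-- **Small heights.** -/
theorem range_small (k δ : ℕ) : ∃ D : ℕ, 0 < D ∧ ∀ (T N₁ : ℕ) (κ : ℝ), 1 ≤ T → 0 < κ → κ ≤ 1 →
    (N₁ : ℝ) ^ (D + 1) ≤ (T : ℝ) ^ (1 / 2 : ℝ) →
    (((Fintype.piFinset fun _ : Fin k => Ioc 0 T).filter fun n =>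
      ∃ N : ℕ, 1 ≤ N ∧ N ≤ N₁ ∧ Sml δ N (κ / (N : ℝ) ^ (D * (D + 2))) n).card : ℝ) ≤
      2 * D * (κ ^ (1 / (D : ℝ)) * (T : ℝ) ^ k) + D * (T : ℝ) ^ ((k : ℝ) - 1 / 2) := by
  obtain ⟨D, hD, h⟩ := sml_count k δ
  refine ⟨D, hD, fun T N₁ κ hT hκ hκ1 hN₁ => ?_⟩
  set S := (Fintype.piFinset fun _ : Fin k => Ioc 0 T).filter fun n =>
      ∃ N : ℕ, 1 ≤ N ∧ N ≤ N₁ ∧ Sml δ N (κ / (N : ℝ) ^ (D * (D + 2))) n with hS
  have hT0 : (1 : ℝ) ≤ T := by exact_mod_cast hT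
  have hTp : (0 : ℝ) < T := by linarith
  have hD0 : (0 : ℝ) < D := by exact_mod_cast hD
  have hsub : S ⊆ (Ioc 0 N₁).biUnion fun N => smlSet k δ T N (κ / (N : ℝ) ^ (D * (D + 2))) := by
    intro n hn
    obtain ⟨h1, N, hN, hN', h2⟩ := mem_filter.1 hn
    exact mem_biUnion.2 ⟨N, mem_Ioc.2 ⟨hN, hN'⟩, mem_filter.2 ⟨h1, h2⟩⟩
  have h1 : (S.card : ℝ) * T ≤ ∑ N ∈ Ioc 0 N₁,
      ((smlSet k δ T N (κ / (N : ℝ) ^ (D * (D + 2)))).card : ℝ) * T := by
    rw [← Finset.sum_mul]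
    refine mul_le_mul_of_nonneg_right ?_ hTp.le
    have := (card_le_card hsub).trans card_biUnion_le
    exact_mod_cast this
  set w := κ ^ (1 / (D : ℝ)) with hw
  have hw0 : 0 ≤ w := Real.rpow_nonneg hκ.le _
  have h2 : ∀ N ∈ Ioc 0 N₁, ((smlSet k δ T N (κ / (N : ℝ) ^ (D * (D + 2)))).card : ℝ) * T ≤
      (D * w * (T : ℝ) ^ (k + 1)) * ((N : ℝ) ^ 2)⁻¹ + D * (T : ℝ) ^ k * (N₁ : ℝ) ^ D := by
    intro N hN
    rw [mem_Ioc] at hN
    have hN0 : (1 : ℝ) ≤ N := by exact_mod_cast hN.1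
    have hNp : (0 : ℝ) < N := by linarith
    have hη : 0 < κ / (N : ℝ) ^ (D * (D + 2)) := by positivity
    have hη1 : κ / (N : ℝ) ^ (D * (D + 2)) ≤ 1 := by
      rw [div_le_one (by positivity)]
      exact hκ1.trans (one_le_pow₀ hN0)
    have h3 := h N T _ hN.1 hT hη hη1
    have h4 : (κ / (N : ℝ) ^ (D * (D + 2))) ^ (1 / (D : ℝ)) = w / (N : ℝ) ^ (D + 2) := by
      rw [Real.div_rpow hκ.le (by positivity), ← Real.rpow_natCast (N : ℝ) (D * (D + 2)),
        ← Real.rpow_mul hNp.le, ← Real.rpow_natCast (N : ℝ) (D + 2), hw]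
      congr 2
      push_cast
      field_simp
    rw [h4] at h3
    refine h3.trans ?_
    have h5 : (D : ℝ) * (N : ℝ) ^ D * (w / (N : ℝ) ^ (D + 2) * T + 1) * (T : ℝ) ^ k =
        (D * w * (T : ℝ) ^ (k + 1)) * ((N : ℝ) ^ 2)⁻¹ + D * (T : ℝ) ^ k * (N : ℝ) ^ D := by
      field_simp
      ring
    rw [h5]
    have h6 : (N : ℝ) ^ D ≤ (N₁ : ℝ) ^ D :=
      pow_le_pow_left₀ hNp.le (by exact_mod_cast hN.2) _
    have h7 : D * (T : ℝ) ^ k * (N : ℝ) ^ D ≤ D * (T : ℝ) ^ k * (N₁ : ℝ) ^ D :=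
      mul_le_mul_of_nonneg_left h6 (by positivity)
    linarith
  have h3 : (S.card : ℝ) * T ≤ (D * w * (T : ℝ) ^ (k + 1)) * 2 +
      D * (T : ℝ) ^ k * (T : ℝ) ^ (1 / 2 : ℝ) := by
    refine h1.trans ((Finset.sum_le_sum h2).trans ?_)
    rw [Finset.sum_add_distrib, ← Finset.mul_sum, Finset.sum_const, nsmul_eq_mul, Nat.card_Ioc,
      Nat.sub_zero]
    refine add_le_add ?_ ?_
    · exact mul_le_mul_of_nonneg_left (sum_inv_sq N₁) (by positivity)
    · calc (N₁ : ℝ) * (D * (T : ℝ) ^ k * (N₁ : ℝ) ^ D) = D * (T : ℝ) ^ k * (N₁ : ℝ) ^ (D + 1) := by ring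
        _ ≤ _ := mul_le_mul_of_nonneg_left hN₁ (by positivity)
  have h4 : (2 * D * (w * (T : ℝ) ^ k) + D * (T : ℝ) ^ ((k : ℝ) - 1 / 2)) * T =
      (D * w * (T : ℝ) ^ (k + 1)) * 2 + D * (T : ℝ) ^ k * (T : ℝ) ^ (1 / 2 : ℝ) := by
    have h5 : (T : ℝ) ^ ((k : ℝ) - 1 / 2) * T = (T : ℝ) ^ k * (T : ℝ) ^ (1 / 2 : ℝ) := by
      rw [← Real.rpow_natCast (T : ℝ) k, ← Real.rpow_add hTp]
      conv_lhs => rw [← Real.rpow_one (T : ℝ), ← Real.rpow_mul hTp.le, ← Real.rpow_add hTp]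
      congr 1
      ring
    calc _ = 2 * D * (w * (T : ℝ) ^ k) * T + D * ((T : ℝ) ^ ((k : ℝ) - 1 / 2) * T) := by ring
      _ = _ := by rw [h5]; ring
  rw [← h4] at h3
  exact le_of_mul_le_mul_right h3 hTp

/-- the scales -/
def scl (T i : ℕ) : ℕ := (4 * T) ^ 2 ^ i

theorem scl_zero (T : ℕ) : scl T 0 = 4 * T := by simp [scl]

theorem scl_succ (T i : ℕ) : scl T (i + 1) = scl T i ^ 2 := by
  rw [scl, scl, ← pow_mul, pow_succ]

theorem le_scl {T : ℕ} (hT : 1 ≤ T) (i : ℕ) : T ≤ scl T i := by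
  have h1 : T ≤ 4 * T := by omega
  refine h1.trans ?_
  conv_lhs => rw [← pow_one (4 * T)]
  exact Nat.pow_le_pow_right (by omega) Nat.one_le_two_pow

/-- small values at height `H` are bad at the right scale -/
theorem bad_of_sml {k δ C K N T : ℕ} {H κ : ℝ} {n : Fin k → ℕ} (hκ1 : κ ≤ 1)
    (hn : n ∈ Fintype.piFinset fun _ : Fin k => Ioc 0 T) (hH : 2 ≤ H)
    (hN : H + T ≤ N) (hNC : ((N : ℝ) + 2) ^ C ≤ H ^ K) (h : Sml δ H (κ / H ^ K) n) : Bad δ C N n := by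
  obtain ⟨l, hl, hlH, P, hP0, hPd, hPH, hPv⟩ := h
  have hTn : (0 : ℝ) ≤ T := Nat.cast_nonneg _
  refine ⟨l, hl, fun i => ?_, P, hP0, hPd, fun s => ?_, ?_⟩
  · have h1 := Complex.norm_le_abs_re_add_abs_im (l i)
    have h0 := box_pos hn i
    have h2 : |(l i).re| ≤ T := by
      have h3 : Real.exp (l i).re = n i := by
        have := congrArg norm (hl i)
        rwa [Complex.norm_exp, Complex.norm_natCast] at this
      have h4 : (l i).re = Real.log (n i) := by rw [← h3, Real.log_exp]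
      rw [h4, abs_of_nonneg (Real.log_natCast_nonneg _)]
      have h5 : (0 : ℝ) < n i := by exact_mod_cast h0
      have h6 := Real.log_le_sub_one_of_pos h5
      have h7 : (n i : ℝ) ≤ T := by exact_mod_cast box_le hn i
      linarith
    have h3 := hlH i
    linarith
  · have h1 := hPH s
    have h2 : |((P.coeff s : ℤ) : ℝ)| ≤ N := by linarith
    exact_mod_cast h2
  · have hp : (0 : ℝ) < ((N : ℝ) + 2) ^ C := by positivity
    calc ‖MvPolynomial.aeval l P‖ * ((N : ℝ) + 2) ^ C < κ / H ^ K * ((N : ℝ) + 2) ^ C :=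
          mul_lt_mul_of_pos_right hPv hp
      _ ≤ 1 / H ^ K * H ^ K := by
          refine mul_le_mul (div_le_div_of_nonneg_right hκ1 (by positivity)) hNC hp.le (by positivity)
      _ = 1 := by field_simp

theorem four_le_scl {T : ℕ} (hT : 1 ≤ T) (j : ℕ) : 4 * T ≤ scl T j := by
  conv_lhs => rw [← pow_one (4 * T)]
  exact Nat.pow_le_pow_right (by omega) Nat.one_le_two_pow

open Classical in
/-- **Large heights.** -/
theorem range_large {k δ C D K T I : ℕ} {R κ : ℝ} (hT : 2 ≤ T) (hκ1 : κ ≤ 1)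
    (hK : (4 * D + 7) * C ≤ K)
    (hR : ∀ N : ℕ, T ≤ N → ((badSet k δ C N T).card : ℝ) ≤ R) :
    (((Fintype.piFinset fun _ : Fin k => Ioc 0 T).filter fun n =>
      ∃ H : ℝ, 2 ≤ H ∧ (T : ℝ) ≤ H ^ (4 * D + 4) ∧ 2 * H ≤ scl T I ∧ Sml δ H (κ / H ^ K) n).card : ℝ) ≤
      (I + 1) * R := by
  set S := (Fintype.piFinset fun _ : Fin k => Ioc 0 T).filter fun n =>
      ∃ H : ℝ, 2 ≤ H ∧ (T : ℝ) ≤ H ^ (4 * D + 4) ∧ 2 * H ≤ scl T I ∧ Sml δ H (κ / H ^ K) n with hS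
  have hT2 : (2 : ℝ) ≤ T := by exact_mod_cast hT
  have hsub : S ⊆ (range (I + 1)).biUnion fun i => badSet k δ C (scl T i) T := by
    intro n hn
    obtain ⟨hnB, H, hH, hTH, hHI, hsm⟩ := mem_filter.1 hn
    have hex : ∃ i, 2 * H ≤ scl T i := ⟨I, hHI⟩
    set i := Nat.find hex with hi
    have hi1 : 2 * H ≤ scl T i := Nat.find_spec hex
    have hiI : i ≤ I := Nat.find_min' hex hHI
    rw [mem_biUnion]
    refine ⟨i, mem_range.2 (by omega), mem_filter.2 ⟨hnB, ?_⟩⟩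
    have hHp : (0 : ℝ) < H := by linarith
    have hH1 : (1 : ℝ) ≤ H := by linarith
    have hH3 : (5 : ℝ) ≤ H ^ 3 := by
      have : (2 : ℝ) ^ 3 ≤ H ^ 3 := pow_le_pow_left₀ (by norm_num) hH 3
      norm_num at this
      linarith
    rcases Nat.eq_zero_or_pos i with h0 | hpos
    · rw [h0, scl_zero] at hi1 ⊢
      push_cast at hi1
      refine bad_of_sml hκ1 hnB hH ?_ ?_ hsm
      · push_cast; linarith
      · push_cast
        have h1 : (4 * (T : ℝ) + 2) ≤ H ^ (4 * D + 7) := by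
          calc 4 * (T : ℝ) + 2 ≤ 5 * T := by linarith
            _ ≤ H ^ 3 * H ^ (4 * D + 4) := mul_le_mul hH3 hTH (by linarith) (by positivity)
            _ = H ^ (4 * D + 7) := by ring
        calc (4 * (T : ℝ) + 2) ^ C ≤ (H ^ (4 * D + 7)) ^ C := pow_le_pow_left₀ (by linarith) h1 _
          _ = H ^ ((4 * D + 7) * C) := by rw [← pow_mul]
          _ ≤ H ^ K := pow_le_pow_right₀ hH1 hK
    · obtain ⟨j, hj⟩ := Nat.exists_eq_succ_of_ne_zero hpos.ne'
      have hj1 : ¬ 2 * H ≤ scl T j := Nat.find_min hex (by omega)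
      rw [not_le] at hj1
      have h4 : (4 * (T : ℝ)) ≤ scl T j := by
        have := four_le_scl (T := T) (by omega) j
        exact_mod_cast this
      refine bad_of_sml hκ1 hnB hH ?_ ?_ hsm
      · linarith
      · rw [hj, Nat.succ_eq_add_one, scl_succ]
        push_cast
        have h0 : (0 : ℝ) ≤ scl T j := Nat.cast_nonneg _
        have h1 : ((scl T j : ℝ) ^ 2 + 2) ≤ H ^ 5 := by
          calc (scl T j : ℝ) ^ 2 + 2 ≤ (2 * H) ^ 2 + 2 := by
                have := pow_le_pow_left₀ h0 hj1.le 2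
                linarith
            _ ≤ 5 * H ^ 2 := by nlinarith
            _ ≤ H ^ 3 * H ^ 2 := mul_le_mul_of_nonneg_right hH3 (by positivity)
            _ = H ^ 5 := by ring
        calc ((scl T j : ℝ) ^ 2 + 2) ^ C ≤ (H ^ 5) ^ C := pow_le_pow_left₀ (by positivity) h1 _
          _ = H ^ (5 * C) := by rw [← pow_mul]
          _ ≤ H ^ K := by
              apply pow_le_pow_right₀ hH1
              refine le_trans ?_ hK
              exact Nat.mul_le_mul_right _ (by omega)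
  have h1 : (S.card : ℝ) ≤ ∑ i ∈ range (I + 1), ((badSet k δ C (scl T i) T).card : ℝ) := by
    have := (card_le_card hsub).trans card_biUnion_le
    exact_mod_cast this
  refine h1.trans ((Finset.sum_le_sum fun i _ => hR _ (le_scl (by omega) i)).trans ?_)
  rw [Finset.sum_const, nsmul_eq_mul, card_range]
  push_cast
  exact le_rfl

/-- the number of scales up to a double exponential -/
theorem scl_bound {T : ℕ} (hT : 2 ≤ T) {x H : ℝ} (hx : 1 ≤ x) (hH : H ≤ Real.exp (Real.exp x)) :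
    2 * H ≤ scl T ⌈3 * x⌉₊ := by
  set I := ⌈3 * x⌉₊ with hI
  have hI1 : 3 * x ≤ I := Nat.le_ceil _
  have h8 : (8 : ℝ) ≤ 4 * T := by
    have : (2 : ℝ) ≤ T := by exact_mod_cast hT
    linarith
  have hlog2 : (0.69 : ℝ) < Real.log 2 := by
    have := Real.log_two_gt_d9
    linarith
  have h1 : Real.exp (2 * x) ≤ (2 : ℝ) ^ I := by
    rw [← Real.rpow_natCast, Real.rpow_def_of_pos (by norm_num)]
    apply Real.exp_le_exp.2
    nlinarith
  have h2 : (2 : ℝ) ≤ Real.log (4 * T) := by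
    have h3 : Real.log 8 ≤ Real.log (4 * T) := Real.log_le_log (by norm_num) h8
    have h4 : Real.log 8 = 3 * Real.log 2 := by
      rw [show (8 : ℝ) = 2 ^ 3 by norm_num, Real.log_pow]; norm_num
    linarith
  have h5 : ((scl T I : ℕ) : ℝ) = Real.exp ((2 : ℝ) ^ I * Real.log (4 * T)) := by
    rw [scl]
    push_cast
    rw [mul_comm ((2 : ℝ) ^ I), ← Real.rpow_natCast, Real.rpow_def_of_pos (by linarith)]
    push_cast
    rfl
  rw [h5]
  have h6 : 2 * H ≤ Real.exp (Real.log 2 + Real.exp x) := by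
    rw [Real.exp_add, Real.exp_log (by norm_num)]
    linarith
  refine h6.trans (Real.exp_le_exp.2 ?_)
  have h7 : Real.exp x ≤ Real.exp (2 * x) := Real.exp_le_exp.2 (by linarith)
  have h9 : 1 ≤ Real.exp x := Real.one_le_exp (by linarith)
  have h10 : Real.log 2 ≤ 1 := by
    have := Real.log_two_lt_d9
    linarith
  have h11 : (2 : ℝ) ^ I * 2 ≤ (2 : ℝ) ^ I * Real.log (4 * T) :=
    mul_le_mul_of_nonneg_left h2 (by positivity)
  linarith

open Classical in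
/-- **Main theorem**: almost all tuples, a doubly exponential range of heights. -/
theorem main_range (k δ : ℕ) : ∃ K : ℕ, 0 < K ∧ ∀ T : ℕ, 1 ≤ T →
    (∀ κ : ℝ, 0 < κ → κ ≤ 1 →
      (((Fintype.piFinset fun _ : Fin k => Ioc 0 T).filter fun n =>
        ∃ H : ℝ, 2 ≤ H ∧ H ≤ Real.exp (Real.exp ((T : ℝ) ^ (1 / (K : ℝ)))) ∧
          Sml δ H (κ / H ^ K) n).card : ℝ) ≤
        K * (κ ^ (1 / (K : ℝ)) * (T : ℝ) ^ k + (T : ℝ) ^ ((k : ℝ) - 1 / K))) ∧
    (∀ H : ℝ, 2 ≤ H → T ≤ H →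
      (((Fintype.piFinset fun _ : Fin k => Ioc 0 T).filter fun n =>
        Sml δ H (1 / H ^ K) n).card : ℝ) ≤ K * (T : ℝ) ^ ((k : ℝ) - 1 / K)) ∧
    (∀ 𝓗 : Set ℝ, ¬ BddAbove 𝓗 →
      (((Fintype.piFinset fun _ : Fin k => Ioc 0 T).filter fun n =>
        ∃ H₀ : ℝ, ∀ H ∈ 𝓗, H₀ ≤ H → Sml δ H (1 / H ^ K) n).card : ℝ) ≤
        K * (T : ℝ) ^ ((k : ℝ) - 1 / K)) := by
  obtain ⟨C, hC, hcount⟩ := scale_count k δ
  obtain ⟨D, hD, hsmall⟩ := range_small k δ
  set E := D * (D + 2) with hE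
  refine ⟨2 * E + (4 * D + 12) * C + 2 * D + 2, by omega, fun T hT => ?_⟩
  set K := 2 * E + (4 * D + 12) * C + 2 * D + 2 with hK
  have hT0 : (1 : ℝ) ≤ T := by exact_mod_cast hT
  have hTp : (0 : ℝ) < T := by linarith
  have hC0 : (0 : ℝ) < C := by exact_mod_cast hC
  have hD0 : (0 : ℝ) < D := by exact_mod_cast hD
  have hKr : (K : ℝ) = 2 * E + (4 * D + 12) * C + 2 * D + 2 := by rw [hK]; push_cast; ring
  have hE0 : (0 : ℝ) ≤ E := Nat.cast_nonneg _
  have hDC0 : (0 : ℝ) < D * C := mul_pos hD0 hC0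
  have hK0 : (0 : ℝ) < K := by rw [hKr]; nlinarith
  have hKC : (C : ℝ) ≤ K := by rw [hKr]; nlinarith
  have hK2C : (2 * C : ℝ) ≤ K := by rw [hKr]; nlinarith
  have hpow : ∀ a : ℝ, 1 / (K : ℝ) ≤ a → (T : ℝ) ^ ((k : ℝ) - a) ≤ (T : ℝ) ^ ((k : ℝ) - 1 / K) := by
    intro a ha
    apply Real.rpow_le_rpow_of_exponent_le hT0
    linarith
  have hTk : (0 : ℝ) ≤ (T : ℝ) ^ ((k : ℝ) - 1 / K) := Real.rpow_nonneg hTp.le _
  -- one scale
  have hscale : ∀ H : ℝ, 2 ≤ H → T ≤ H →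
      (((Fintype.piFinset fun _ : Fin k => Ioc 0 T).filter fun n =>
        Sml δ H (1 / H ^ K) n).card : ℝ) ≤ K * (T : ℝ) ^ ((k : ℝ) - 1 / K) := by
    intro H hH hTH
    set N := ⌈2 * H⌉₊ with hN
    have hN1 : 2 * H ≤ N := Nat.le_ceil _
    have hN2 : (N : ℝ) < 2 * H + 1 := Nat.ceil_lt_add_one (by linarith)
    have hTN : T ≤ N := by
      have : (T : ℝ) ≤ N := by linarith
      exact_mod_cast this
    have hsub : ((Fintype.piFinset fun _ : Fin k => Ioc 0 T).filter fun n =>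
        Sml δ H (1 / H ^ K) n) ⊆ badSet k δ C N T := by
      intro n hn
      obtain ⟨hnB, hsm⟩ := mem_filter.1 hn
      refine mem_filter.2 ⟨hnB, bad_of_sml (K := K) le_rfl hnB hH (by linarith) ?_ hsm⟩
      have hH1 : (1 : ℝ) ≤ H := by linarith
      have h1 : (N : ℝ) + 2 ≤ H ^ 4 := by
        have h2 : (2 : ℝ) ^ 3 ≤ H ^ 3 := pow_le_pow_left₀ (by norm_num) hH 3
        have h3 : H ^ 4 = H ^ 3 * H := by ring
        rw [h3]
        nlinarith
      calc ((N : ℝ) + 2) ^ C ≤ (H ^ 4) ^ C := pow_le_pow_left₀ (by positivity) h1 _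
        _ = H ^ (4 * C) := by rw [← pow_mul]
        _ ≤ H ^ K := by
            apply pow_le_pow_right₀ hH1
            rw [hK]
            nlinarith [Nat.zero_le (D * C)]
    have h1 : (((Fintype.piFinset fun _ : Fin k => Ioc 0 T).filter fun n =>
        Sml δ H (1 / H ^ K) n).card : ℝ) ≤ (badSet k δ C N T).card := by
      exact_mod_cast card_le_card hsub
    refine h1.trans ((hcount T N hT hTN).trans ?_)
    exact mul_le_mul hKC (hpow _ (one_div_le_one_div_of_le hC0 hKC))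
      (Real.rpow_nonneg hTp.le _) hK0.le
  refine ⟨fun κ hκ hκ1 => ?_, hscale, fun 𝓗 h𝓗 => ?_⟩
  · -- the range
    set S := (Fintype.piFinset fun _ : Fin k => Ioc 0 T).filter fun n =>
        ∃ H : ℝ, 2 ≤ H ∧ H ≤ Real.exp (Real.exp ((T : ℝ) ^ (1 / (K : ℝ)))) ∧
          Sml δ H (κ / H ^ K) n with hS
    have hκK : 0 ≤ κ ^ (1 / (K : ℝ)) := Real.rpow_nonneg hκ.le _
    rcases Nat.lt_or_ge 1 T with hT2 | hT1
    swap
    · -- `T = 1`
      have hT1' : T = 1 := le_antisymm hT1 hT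
      have h1 : S.card ≤ 1 := by
        refine (card_filter_le _ _).trans ?_
        rw [Fintype.card_piFinset_const, Nat.card_Ioc, Nat.sub_zero, hT1', one_pow]
      have h2 : (S.card : ℝ) ≤ 1 := by exact_mod_cast h1
      rw [hT1']
      simp only [Nat.cast_one, Real.one_rpow, one_pow, mul_one]
      have h3 : (1 : ℝ) ≤ K := by
        rw [hKr]; nlinarith
      have h4 : (1 : ℝ) ≤ K * (κ ^ (1 / (K : ℝ)) + 1) := by nlinarith
      linarith
    · -- `T ≥ 2`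
      set x : ℝ := (T : ℝ) ^ (1 / (K : ℝ)) with hx
      have hx1 : 1 ≤ x := Real.one_le_rpow hT0 (by positivity)
      set I := ⌈3 * x⌉₊ with hI
      have hI2 : (I : ℝ) + 1 ≤ 5 * x := by
        have := Nat.ceil_lt_add_one (by linarith : (0 : ℝ) ≤ 3 * x)
        rw [← hI] at this
        linarith
      set N₁ := ⌊(T : ℝ) ^ (1 / (2 * ((D : ℝ) + 1)))⌋₊ with hN₁
      have hN1a : (N₁ : ℝ) ≤ (T : ℝ) ^ (1 / (2 * ((D : ℝ) + 1))) :=
        Nat.floor_le (Real.rpow_nonneg hTp.le _)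
      have hN1b : (T : ℝ) ^ (1 / (2 * ((D : ℝ) + 1))) < N₁ + 1 := Nat.lt_floor_add_one _
      have hN1c : (N₁ : ℝ) ^ (D + 1) ≤ (T : ℝ) ^ (1 / 2 : ℝ) := by
        refine (pow_le_pow_left₀ (Nat.cast_nonneg _) hN1a _).trans ?_
        rw [← Real.rpow_mul_natCast hTp.le]
        apply le_of_eq
        congr 1
        push_cast
        field_simp
      have hA := hsmall T N₁ κ hT hκ hκ1 hN1c
      have hB := range_large (k := k) (δ := δ) (C := C) (D := D) (K := K) (T := T) (I := I)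
        (R := C * (T : ℝ) ^ ((k : ℝ) - 1 / C)) (κ := κ) hT2 hκ1 (by rw [hK]; nlinarith) (fun N hN => hcount T N hT hN)
      have hsub : S ⊆ ((Fintype.piFinset fun _ : Fin k => Ioc 0 T).filter fun n =>
          ∃ N : ℕ, 1 ≤ N ∧ N ≤ N₁ ∧ Sml δ N (κ / (N : ℝ) ^ (D * (D + 2))) n) ∪
          ((Fintype.piFinset fun _ : Fin k => Ioc 0 T).filter fun n =>
            ∃ H : ℝ, 2 ≤ H ∧ (T : ℝ) ≤ H ^ (4 * D + 4) ∧ 2 * H ≤ scl T I ∧
              Sml δ H (κ / H ^ K) n) := by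
        intro n hn
        obtain ⟨hnB, H, hH, hHx, hsm⟩ := mem_filter.1 hn
        rw [mem_union]
        have hHp : (0 : ℝ) < H := by linarith
        have hH1 : (1 : ℝ) ≤ H := by linarith
        have hceil1 : H ≤ ⌈H⌉₊ := Nat.le_ceil _
        have hceil2 : (⌈H⌉₊ : ℝ) < H + 1 := Nat.ceil_lt_add_one hHp.le
        have hceil3 : (⌈H⌉₊ : ℝ) ≤ H ^ 2 := by nlinarith
        rcases le_or_gt ⌈H⌉₊ N₁ with h1 | h1
        · left
          refine mem_filter.2 ⟨hnB, ⌈H⌉₊, ?_, h1, hsm.mono hceil1 ?_⟩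
          · exact Nat.ceil_pos.2 hHp
          · apply div_le_div_of_nonneg_left hκ.le (by positivity)
            calc (⌈H⌉₊ : ℝ) ^ (D * (D + 2)) ≤ (H ^ 2) ^ (D * (D + 2)) :=
                  pow_le_pow_left₀ (by positivity) hceil3 _
              _ = H ^ (2 * E) := by rw [← pow_mul]
              _ ≤ H ^ K := pow_le_pow_right₀ hH1 (by rw [hK]; omega)
        · right
          refine mem_filter.2 ⟨hnB, H, hH, ?_, scl_bound hT2 hx1 hHx, hsm⟩
          have h2 : (N₁ : ℝ) + 1 ≤ ⌈H⌉₊ := by exact_mod_cast h1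
          have h3 : (T : ℝ) ^ (1 / (2 * ((D : ℝ) + 1))) ≤ H ^ 2 := by linarith
          calc (T : ℝ) = ((T : ℝ) ^ (1 / (2 * ((D : ℝ) + 1)))) ^ (2 * (D + 1)) := by
                rw [← Real.rpow_mul_natCast hTp.le]
                conv_lhs => rw [← Real.rpow_one (T : ℝ)]
                congr 1
                push_cast
                field_simp
            _ ≤ (H ^ 2) ^ (2 * (D + 1)) := pow_le_pow_left₀ (Real.rpow_nonneg hTp.le _) h3 _
            _ = H ^ (4 * D + 4) := by rw [← pow_mul]; congr 1; ring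
      have h1 : (S.card : ℝ) ≤ (2 * D * (κ ^ (1 / (D : ℝ)) * (T : ℝ) ^ k) +
          D * (T : ℝ) ^ ((k : ℝ) - 1 / 2)) + (I + 1) * (C * (T : ℝ) ^ ((k : ℝ) - 1 / C)) := by
        have h2 := (card_le_card hsub).trans (card_union_le _ _)
        have h3 := (Nat.cast_le (α := ℝ)).2 h2
        rw [Nat.cast_add] at h3
        exact h3.trans (add_le_add hA hB)
      have hDK : (D : ℝ) ≤ K := by rw [hKr]; nlinarith
      have h2 : κ ^ (1 / (D : ℝ)) ≤ κ ^ (1 / (K : ℝ)) := by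
        apply Real.rpow_le_rpow_of_exponent_ge hκ hκ1
        exact one_div_le_one_div_of_le hD0 hDK
      have h3 : (T : ℝ) ^ ((k : ℝ) - 1 / 2) ≤ (T : ℝ) ^ ((k : ℝ) - 1 / K) := by
        apply hpow
        apply one_div_le_one_div_of_le (by norm_num)
        rw [hKr]; nlinarith
      have h4 : x * (T : ℝ) ^ ((k : ℝ) - 1 / C) ≤ (T : ℝ) ^ ((k : ℝ) - 1 / K) := by
        rw [hx, ← Real.rpow_add hTp]
        apply Real.rpow_le_rpow_of_exponent_le hT0
        have h5 : 1 / (K : ℝ) ≤ 1 / (2 * C) := one_div_le_one_div_of_le (by positivity) hK2C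
        have h6 : 1 / (C : ℝ) = 2 * (1 / (2 * C)) := by field_simp
        linarith
      have h5 : (I + 1 : ℝ) * (C * (T : ℝ) ^ ((k : ℝ) - 1 / C)) ≤
          5 * C * (T : ℝ) ^ ((k : ℝ) - 1 / K) := by
        have h6 : (0 : ℝ) ≤ C * (T : ℝ) ^ ((k : ℝ) - 1 / C) :=
          mul_nonneg hC0.le (Real.rpow_nonneg hTp.le _)
        calc (I + 1 : ℝ) * (C * (T : ℝ) ^ ((k : ℝ) - 1 / C)) ≤
              5 * x * (C * (T : ℝ) ^ ((k : ℝ) - 1 / C)) := mul_le_mul_of_nonneg_right hI2 h6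
          _ = 5 * C * (x * (T : ℝ) ^ ((k : ℝ) - 1 / C)) := by ring
          _ ≤ _ := mul_le_mul_of_nonneg_left h4 (by positivity)
      have hTkp : (0 : ℝ) ≤ (T : ℝ) ^ k := by positivity
      have h6 : 2 * D * (κ ^ (1 / (D : ℝ)) * (T : ℝ) ^ k) ≤ K * (κ ^ (1 / (K : ℝ)) * (T : ℝ) ^ k) := by
        refine mul_le_mul ?_ (mul_le_mul_of_nonneg_right h2 hTkp) ?_ hK0.le
        · rw [hKr]; nlinarith
        · exact mul_nonneg (Real.rpow_nonneg hκ.le _) hTkp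
      have h7 : D * (T : ℝ) ^ ((k : ℝ) - 1 / 2) + 5 * C * (T : ℝ) ^ ((k : ℝ) - 1 / K) ≤
          K * (T : ℝ) ^ ((k : ℝ) - 1 / K) := by
        calc D * (T : ℝ) ^ ((k : ℝ) - 1 / 2) + 5 * C * (T : ℝ) ^ ((k : ℝ) - 1 / K) ≤
              D * (T : ℝ) ^ ((k : ℝ) - 1 / K) + 5 * C * (T : ℝ) ^ ((k : ℝ) - 1 / K) := by
                have := mul_le_mul_of_nonneg_left h3 hD0.le
                linarith
          _ = (D + 5 * C) * (T : ℝ) ^ ((k : ℝ) - 1 / K) := by ring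
          _ ≤ _ := by
                refine mul_le_mul_of_nonneg_right ?_ hTk
                rw [hKr]; nlinarith
      rw [mul_add]
      linarith
  · -- infinitely many scales
    set S := (Fintype.piFinset fun _ : Fin k => Ioc 0 T).filter fun n =>
        ∃ H₀ : ℝ, ∀ H ∈ 𝓗, H₀ ≤ H → Sml δ H (1 / H ^ K) n with hS
    have hex : ∀ n : Fin k → ℕ, ∃ H₀ : ℝ, n ∈ S → ∀ H ∈ 𝓗, H₀ ≤ H → Sml δ H (1 / H ^ K) n := by
      intro n
      by_cases hn : n ∈ S
      · obtain ⟨H₀, h⟩ := (mem_filter.1 hn).2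
        exact ⟨H₀, fun _ => h⟩
      · exact ⟨0, fun h => absurd h hn⟩
    choose H₀ hH₀ using hex
    obtain ⟨B, hB⟩ := (S.image H₀).bddAbove
    obtain ⟨H, hH𝓗, hH⟩ := not_bddAbove_iff.1 h𝓗 (max B (max 2 T))
    have h2 : (2 : ℝ) ≤ H := ((le_max_left _ _).trans (le_max_right _ _)).trans hH.le
    have h3 : (T : ℝ) ≤ H := ((le_max_right _ _).trans (le_max_right _ _)).trans hH.le
    have h4 : B ≤ H := (le_max_left _ _).trans hH.le
    refine le_trans ?_ (hscale H h2 h3)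
    have hsub : S ⊆ ((Fintype.piFinset fun _ : Fin k => Ioc 0 T).filter fun n =>
        Sml δ H (1 / H ^ K) n) := by
      intro n hn
      refine mem_filter.2 ⟨(mem_filter.1 hn).1, hH₀ n hn H hH𝓗 (le_trans ?_ h4)⟩
      exact hB (by rw [coe_image]; exact ⟨n, hn, rfl⟩)
    exact_mod_cast card_le_card hsub

end Pool.Agent.R351.GF
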